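import Pool.Agent.LibCI48.TDefs

/-! TASK B1.  Elementary facts on a flow along lines. -/

set_option autoImplicit false

namespace CI48

open CPE48 Set Function Filter Topology

variable {X : Type*} [MetricSpace X] {ρ : ℝ → X → X} {V : X → ℝ} {r : X → ℝ → ℝ}

theorem b1_comp (h : SR ρ V r) (c : X) (a b : ℝ) : ρ a (ρ b c) = ρ (a + b) c :=
  (h.flow.add a b c).symm

theorem b1_diff (h : SR ρ V r) (c : X) : Differentiable ℝ (r c) := fun t =>
  (h.deriv c t).differentiableAt

theorem sr_mono (h : SR ρ V r) (c : X) : Monotone (r c) := by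
  apply monotone_of_deriv_nonneg (b1_diff h c)
  intro t
  rw [(h.deriv c t).deriv]
  exact h.V0 _

theorem sr_lip (h : SR ρ V r) (c : X) (s t : ℝ) : |r c s - r c t| ≤ |s - t| := by
  have h1 := Convex.norm_image_sub_le_of_norm_hasDerivWithin_le (𝕜 := ℝ) (f := r c)
    (f' := fun t => V (ρ (r c t) c)) (s := univ) (x := t) (y := s) (C := 1)
    (fun x _ => (h.deriv c x).hasDerivWithinAt) (fun x _ => by
      rw [Real.norm_eq_abs, abs_of_nonneg (h.V0 _)]
      exact h.V1 _) convex_univ (mem_univ _) (mem_univ _)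
  simpa [Real.norm_eq_abs] using h1

theorem sr_order (h : SR ρ V r) (c : X) (t : ℝ) : Monotone (fun u => u + r (ρ u c) t) := by
  intro u u' huu
  by_contra hlt
  simp only [not_le] at hlt
  have hc : ∀ u, Continuous (fun t => u + r (ρ u c) t) := fun u =>
    continuous_const.add (b1_diff h (ρ u c)).continuous
  have hcont : Continuous (fun s => (u' + r (ρ u' c) s) - (u + r (ρ u c) s)) :=
    (hc u').sub (hc u)
  have hivt := intermediate_value_uIcc (a := (0:ℝ)) (b := t) hcont.continuousOn
  have h0 : (0:ℝ) ∈ uIcc ((u' + r (ρ u' c) 0) - (u + r (ρ u c) 0))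
      ((u' + r (ρ u' c) t) - (u + r (ρ u c) t)) := by
    rw [h.zero, h.zero]
    rw [Set.mem_uIcc]
    right
    constructor
    · linarith
    · linarith
  obtain ⟨s, _, hs⟩ := hivt h0
  simp only at hs
  -- both trajectories pass through the same point at time `s`
  have hstep : ∀ u, r (ρ u c) t = r (ρ u c) s + r (ρ (u + r (ρ u c) s) c) (t - s) := by
    intro u
    have h1 := h.add (ρ u c) s (t - s)
    rw [b1_comp h, add_comm (r (ρ u c) s) u] at h1
    rw [← h1]
    congr 1
    ring
  have h3 := hstep u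
  have h4 := hstep u'
  have h5 : u' + r (ρ u' c) s = u + r (ρ u c) s := by linarith
  rw [h5] at h4
  linarith

theorem sr_const (h : SR ρ V r) (c : X) (s : ℝ) (hs : V (ρ (r c s) c) = 0) :
    V c = 0 ∧ ∀ t, r c t = 0 := by
  have h1 : ∀ t, r c t = r c s := by
    intro t
    have h2 := h.add c s (t - s)
    rw [h.stop _ _ hs, add_zero] at h2
    rw [← h2]
    congr 1
    ring
  have h3 : r c s = 0 := by
    rw [← h1 0]
    exact h.zero c
  refine ⟨?_, fun t => (h1 t).trans h3⟩
  rw [h3, h.flow.zero] at hs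
  exact hs

theorem sr_flow (h : SR ρ V r) : IsFlow (fl ρ r) := by
  refine ⟨?_, ?_, ?_⟩
  · have h1 : Continuous (fun q : ℝ × X => r q.2 q.1) :=
      h.cont.comp (continuous_snd.prodMk continuous_fst)
    exact h.flow.cont.comp (h1.prodMk continuous_snd)
  · intro z
    unfold fl
    rw [h.zero, h.flow.zero]
  · intro s t z
    unfold fl
    rw [b1_comp h, add_comm s t, h.add z t s, add_comm (r z t)]

theorem sr_iter (h : SR ρ V r) (m : ℕ) (c : X) : (fl ρ r 1)^[m] c = fl ρ r m c := by
  have hf := sr_flow h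
  induction m with
  | zero => simp [hf.zero]
  | succ m ih =>
    rw [Function.iterate_succ_apply', ih, ← hf.add]
    congr 1
    push_cast
    ring

theorem sr_ze [CompactSpace X] (h : SR ρ V r) : ZE (fl ρ r 1) := by
  refine line_ze (s := fun c => r c 1) h.flow h.iso h.speed ?_ ?_ ?_ (fun c => sr_order h c 1)
  · exact h.cont.comp (continuous_id.prodMk continuous_const)
  · intro c
    have h1 := sr_mono h c (show (0:ℝ) ≤ 1 by norm_num)
    rwa [h.zero] at h1
  · intro c
    have h1 := sr_lip h c 1 0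
    rw [h.zero, sub_zero, sub_zero, abs_one] at h1
    exact (abs_le.1 h1).2

end CI48
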