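import Pool.Agent.LibCI48.B1

/-! TASK B2.  Limits and mixing. -/

set_option autoImplicit false

namespace CI48

open CPE48 Set Function Filter Topology

variable {X : Type*} [MetricSpace X] {ρ : ℝ → X → X} {V : X → ℝ} {r : X → ℝ → ℝ}

theorem sr_lim (h : SR ρ V r) {c : X} {l : Filter ℝ} [NeBot l]
    (hl : Tendsto (fun t => t + 1) l l) {L : ℝ} (hL : Tendsto (r c) l (𝓝 L)) :
    V (ρ L c) = 0 := by
  have h1 : Tendsto (fun t => r c (t + 1)) l (𝓝 L) := hL.comp hl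
  have h2 : Tendsto (fun t => r c t + r (ρ (r c t) c) 1) l (𝓝 (L + r (ρ L c) 1)) := by
    refine hL.add ?_
    have h3 : Continuous (fun x : ℝ => r (ρ x c) 1) := by
      have h4 : Continuous (fun x : ℝ => ρ x c) :=
        h.flow.cont.comp (continuous_id.prodMk continuous_const)
      exact h.cont.comp (h4.prodMk continuous_const)
    exact (h3.tendsto L).comp hL
  have h3 : (fun t => r c (t + 1)) = fun t => r c t + r (ρ (r c t) c) 1 := by
    funext t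
    exact h.add c t 1
  rw [h3] at h1
  have h4 := tendsto_nhds_unique h1 h2
  have h5 : r (ρ L c) 1 = 0 := by linarith
  -- `r (ρ L c)` vanishes on `[0, 1]`, so its derivative at `1/2` is zero
  have h6 : ∀ t ∈ Icc (0:ℝ) 1, r (ρ L c) t = 0 := by
    intro t ht
    have h7 := sr_mono h (ρ L c) ht.1
    have h8 := sr_mono h (ρ L c) ht.2
    rw [h.zero] at h7
    rw [h5] at h8
    exact le_antisymm h8 h7
  have h9 : HasDerivAt (r (ρ L c)) 0 (1 / 2) := by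
    have h10 : (fun _ : ℝ => (0:ℝ)) =ᶠ[𝓝 (1 / 2 : ℝ)] r (ρ L c) := by
      have h11 : Icc (0:ℝ) 1 ∈ 𝓝 (1 / 2 : ℝ) := Icc_mem_nhds (by norm_num) (by norm_num)
      filter_upwards [h11] with t ht
      exact (h6 t ht).symm
    exact (hasDerivAt_const (1 / 2 : ℝ) (0:ℝ)).congr_of_eventuallyEq h10.symm
  have h12 := h9.unique (h.deriv (ρ L c) (1 / 2))
  rw [h6 (1 / 2) ⟨by norm_num, by norm_num⟩, h.flow.zero] at h12
  exact h12.symm

theorem sr_top (h : SR ρ V r) {c : X} (hc : ∀ u, 0 ≤ u → V (ρ u c) ≠ 0) :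
    Tendsto (r c) atTop atTop := by
  rcases tendsto_atTop_of_monotone (sr_mono h c) with h1 | ⟨L, hL⟩
  · exact h1
  · exfalso
    have h2 : r c 0 ≤ L := (sr_mono h c).ge_of_tendsto hL 0
    rw [h.zero] at h2
    exact hc L h2 (sr_lim h (tendsto_atTop_add_const_right _ _ tendsto_id) hL)

theorem sr_le (h : SR ρ V r) {c : X} {u : ℝ} (hu : 0 ≤ u) (hV : V (ρ u c) = 0) (t : ℝ) :
    r c t ≤ u := by
  by_contra hge
  push Not at hge
  have hcont : Continuous (r c) := (b1_diff h _).continuous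
  have hivt := intermediate_value_uIcc (a := (0:ℝ)) (b := t) hcont.continuousOn
  have h0 : u ∈ uIcc (r c 0) (r c t) := by
    rw [h.zero, Set.mem_uIcc]
    left
    exact ⟨hu, hge.le⟩
  obtain ⟨s, _, hs⟩ := hivt h0
  have h1 : V (ρ (r c s) c) = 0 := by
    rw [hs]
    exact hV
  have h2 := (sr_const h c s h1).2 t
  rw [h2] at hge
  linarith

theorem sr_mixing (h : SR ρ V r)
    (hyp : ∀ U W : Set X, IsOpen U → IsOpen W → U.Nonempty → W.Nonempty →
      ∃ (c : X) (u R : ℝ), c ∈ W ∧ 0 ≤ u ∧ u < R ∧ V (ρ u c) = 0 ∧ ρ R c ∈ U ∧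
        ∀ η : ℝ, 0 < η → ∃ γ : ℝ → X, Continuous γ ∧ γ 0 = c ∧
          (∀ l ∈ Icc (0:ℝ) 1, dist (γ l) c < η) ∧ ∀ v, 0 ≤ v → V (ρ v (γ 1)) ≠ 0) :
    Mixing (fl ρ r 1) := by
  intro U W hU hW hUne hWne
  obtain ⟨c, u, R, hcW, hu, huR, hVu, hRU, hpath⟩ := hyp U W hU hW hUne hWne
  obtain ⟨η1, hη1, hb1⟩ := Metric.isOpen_iff.mp hW _ hcW
  obtain ⟨η2, hη2, hb2⟩ := Metric.isOpen_iff.mp hU _ hRU
  obtain ⟨γ, hγ, hγ0, hγd, hγ1⟩ := hpath (min η1 η2) (lt_min hη1 hη2)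
  have ht : Tendsto (r (γ 1)) atTop atTop := sr_top h hγ1
  obtain ⟨T, hT⟩ := (tendsto_atTop.mp ht R).exists_forall_of_atTop
  obtain ⟨M, hM⟩ := exists_nat_ge T
  refine ⟨M, fun m hm => ?_⟩
  have hmT : T ≤ (m:ℝ) := hM.trans (by exact_mod_cast hm)
  have h1 : R ≤ r (γ 1) m := hT _ hmT
  have h0 : r (γ 0) m < R := by
    rw [hγ0]
    exact lt_of_le_of_lt (sr_le h hu hVu (m:ℝ)) huR
  have hcont : ContinuousOn (fun l => r (γ l) m) (Icc 0 1) :=
    (h.cont.comp (hγ.prodMk continuous_const)).continuousOn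
  obtain ⟨l, hl, hlR⟩ := intermediate_value_Icc zero_le_one hcont
    (⟨h0.le, h1⟩ : R ∈ Icc (r (γ 0) m) (r (γ 1) m))
  have hlR' : r (γ l) m = R := hlR
  have hd := hγd l hl
  refine ⟨γ l, ?_, ?_⟩
  · show (fl ρ r 1)^[m] (γ l) ∈ U
    rw [sr_iter h]
    apply hb2
    rw [Metric.mem_ball]
    unfold fl
    rw [hlR', h.iso]
    exact lt_of_lt_of_le hd (min_le_right _ _)
  · apply hb1
    rw [Metric.mem_ball]
    exact lt_of_lt_of_le hd (min_le_left _ _)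

end CI48
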