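import Pool.Agent.LibCI48.B2

/-! TASK B3.  Change of time and visits. -/

set_option autoImplicit false

namespace CI48

open CPE48 Set Function Filter Topology

variable {X : Type*} [MetricSpace X] {ρ : ℝ → X → X} {V : X → ℝ} {r : X → ℝ → ℝ}

theorem sr_time (h : SR ρ V r) (c : X) (R : ℝ) (hR : 0 ≤ R)
    (hc : ∀ u ∈ Icc 0 R, V (ρ u c) ≠ 0) : ∃ T : ℝ, R ≤ T ∧ r c T = R ∧
      ∀ b : X → ℝ, Continuous b →
        ∫ t in (0:ℝ)..T, b (fl ρ r t c) = ∫ u in (0:ℝ)..R, b (ρ u c) / V (ρ u c) := by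
  have hρc : Continuous (fun u : ℝ => ρ u c) :=
    h.flow.cont.comp (continuous_id.prodMk continuous_const)
  have hVc : Continuous (fun u : ℝ => V (ρ u c)) := h.Vc.comp hρc
  have hVpos : ∀ u ∈ Icc 0 R, 0 < V (ρ u c) := fun u hu =>
    lt_of_le_of_ne (h.V0 _) (fun h0 => hc u hu h0.symm)
  have hrc : Continuous (r c) :=
    continuous_iff_continuousAt.mpr (fun t => (h.deriv c t).continuousAt)
  have hmono := sr_mono h c
  obtain ⟨T, hT0, hTR⟩ : ∃ T, 0 ≤ T ∧ r c T = R := by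
    obtain ⟨u0, hu0, hmin⟩ := isCompact_Icc.exists_isMinOn (nonempty_Icc.mpr hR) hVc.continuousOn
    have hm := hVpos u0 hu0
    have hmin' : ∀ u ∈ Icc 0 R, V (ρ u0 c) ≤ V (ρ u c) := fun u hu => hmin hu
    clear hmin
    generalize V (ρ u0 c) = m at hm hmin'
    by_contra hcon
    push Not at hcon
    have hlt : ∀ t, 0 ≤ t → r c t < R := by
      intro t ht
      by_contra hge
      push Not at hge
      obtain ⟨s, hs, hs2⟩ := intermediate_value_Icc ht hrc.continuousOn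
        ⟨(by rw [h.zero]; exact hR), hge⟩
      exact hcon s hs.1 hs2
    have hder := (convex_Ici (0:ℝ)).mul_sub_le_image_sub_of_le_deriv (C := m)
      hrc.continuousOn (fun t _ => (h.deriv c t).differentiableAt.differentiableWithinAt)
      (fun t ht => by
        rw [(h.deriv c t).deriv]
        rw [interior_Ici] at ht
        have ht0 : (0:ℝ) ≤ t := le_of_lt ht
        refine hmin' _ ⟨?_, (hlt t ht0).le⟩
        have := hmono ht0
        rwa [h.zero] at this)
    have hRm : 0 ≤ R / m + 1 := by positivity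
    have h1 := hder 0 (mem_Ici.mpr le_rfl) (R / m + 1) (mem_Ici.mpr hRm) hRm
    rw [h.zero] at h1
    have h2 := hlt _ hRm
    have h3 : m * (R / m + 1 - 0) = R + m := by
      field_simp
      ring
    rw [h3] at h1
    linarith
  have hRT : R ≤ T := by
    have h1 := sr_lip h c T 0
    rw [hTR, h.zero, sub_zero, sub_zero, abs_of_nonneg hR, abs_of_nonneg hT0] at h1
    exact h1
  have himg : ∀ t ∈ Icc (0:ℝ) T, r c t ∈ Icc 0 R := by
    intro t ht
    constructor
    · have := hmono ht.1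
      rwa [h.zero] at this
    · have := hmono ht.2
      rwa [hTR] at this
  refine ⟨T, hRT, hTR, ?_⟩
  intro b hb
  have hsub := intervalIntegral.integral_comp_mul_deriv' (a := 0) (b := T) (f := r c)
    (f' := fun t => V (ρ (r c t) c)) (g := fun u => b (ρ u c) / V (ρ u c))
    (fun t _ => h.deriv c t) (hVc.comp hrc).continuousOn (by
      rw [uIcc_of_le hT0]
      refine ContinuousOn.div (hb.comp hρc).continuousOn hVc.continuousOn ?_
      rintro u ⟨t, ht, rfl⟩
      exact (hVpos _ (himg t ht)).ne')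
  rw [h.zero, hTR] at hsub
  rw [← hsub]
  refine intervalIntegral.integral_congr ?_
  intro t ht
  rw [uIcc_of_le hT0] at ht
  have hne := (hVpos _ (himg t ht)).ne'
  show b (ρ (r c t) c) = b (ρ (r c t) c) / V (ρ (r c t) c) * V (ρ (r c t) c)
  field_simp

theorem sr_vis (h : SR ρ V r)
    (hd : ∀ v : X, ∀ η : ℝ, 0 < η → ∃ M : ℝ, 0 ≤ M ∧ ∀ c, ∃ u ∈ Icc 0 M, dist (ρ u c) v < η)
    (hgood : ∃ I : ℝ, ∀ R : ℝ, 1 ≤ R → ∃ c : X, (∀ u ∈ Icc 0 R, V (ρ u c) ≠ 0) ∧
      ∫ u in (0:ℝ)..R, 1 / V (ρ u c) ≤ I * R) : Vis (fl ρ r 1) := by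
  intro N hN hne
  obtain ⟨I, hI⟩ := hgood
  obtain ⟨b, θ, R₀, hbc, hb0, hb1, hbN, hθ, hrec⟩ := recur h.flow h.speed hd N hN hne
  have hI1 : 1 ≤ I := by
    obtain ⟨c, hc, hi⟩ := hI 1 le_rfl
    obtain ⟨T, hT, _, hch⟩ := sr_time h c 1 zero_le_one hc
    have h1 := hch (fun _ => 1) continuous_const
    rw [intervalIntegral.integral_const, smul_eq_mul, mul_one, sub_zero] at h1
    linarith
  have hI0 : 0 < I := by linarith
  refine ⟨θ / (2 * I), by positivity, ?_⟩
  rw [Filter.frequently_atTop]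
  intro m
  set R : ℝ := max (max R₀ 1) m with hR
  have hR0 : R₀ ≤ R := (le_max_left _ _).trans (le_max_left _ _)
  have hR1 : 1 ≤ R := (le_max_right R₀ 1).trans (le_max_left _ _)
  have hRm : (m:ℝ) ≤ R := le_max_right _ _
  obtain ⟨c, hc, hi⟩ := hI R hR1
  obtain ⟨T, hT, hrT, hch⟩ := sr_time h c R (by linarith) hc
  have hTI : T ≤ I * R := by
    have h1 := hch (fun _ => 1) continuous_const
    rw [intervalIntegral.integral_const, smul_eq_mul, mul_one, sub_zero] at h1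
    linarith
  have hnT : T ≤ (⌈T⌉₊ : ℝ) := Nat.le_ceil T
  have hn2 : (⌈T⌉₊ : ℝ) ≤ 2 * T := by
    have := Nat.ceil_lt_add_one (a := T) (by linarith)
    linarith
  set n : ℕ := ⌈T⌉₊ with hn
  have hmn : m ≤ n := by
    have : (m:ℝ) ≤ n := by linarith
    exact_mod_cast this
  have hflc : Continuous (fun t : ℝ => fl ρ r t c) :=
    (sr_flow h).cont.comp (continuous_id.prodMk continuous_const)
  have hfc : Continuous (fun t : ℝ => b (fl ρ r t c)) := hbc.comp hflc
  have hρc : Continuous (fun u : ℝ => ρ u c) :=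
    h.flow.cont.comp (continuous_id.prodMk continuous_const)
  -- the integral up to `n`
  have h1 : ∫ t in (0:ℝ)..T, b (fl ρ r t c) ≤ ∫ t in (0:ℝ)..(n:ℝ), b (fl ρ r t c) := by
    rw [← intervalIntegral.integral_add_adjacent_intervals (a := (0:ℝ)) (b := T) (c := (n:ℝ))
      (hfc.intervalIntegrable _ _) (hfc.intervalIntegrable _ _)]
    have : 0 ≤ ∫ t in T..(n:ℝ), b (fl ρ r t c) :=
      intervalIntegral.integral_nonneg hnT (fun t _ => hb0 _)
    linarith
  have h2 : ∫ u in (0:ℝ)..R, b (ρ u c) ≤ ∫ u in (0:ℝ)..R, b (ρ u c) / V (ρ u c) := by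
    refine intervalIntegral.integral_mono_on (by linarith) ?_ ?_ ?_
    · exact (hbc.comp hρc).intervalIntegrable _ _
    · refine ContinuousOn.intervalIntegrable_of_Icc (by linarith) ?_
      exact (hbc.comp hρc).continuousOn.div (h.Vc.comp hρc).continuousOn
        (fun u hu h0 => hc u hu h0)
    · intro u hu
      have hV : 0 < V (ρ u c) := lt_of_le_of_ne (h.V0 _)
        (fun h0 => hc u hu h0.symm)
      rw [le_div_iff₀ hV]
      calc b (ρ u c) * V (ρ u c) ≤ b (ρ u c) * 1 :=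
            mul_le_mul_of_nonneg_left (h.V1 _) (hb0 _)
        _ = b (ρ u c) := mul_one _
  have h3 := hrec c R hR0
  have h4 := hch b hbc
  obtain ⟨s, hs, h5⟩ := avg_shift (fun t => b (fl ρ r t c)) hfc n
  refine ⟨n, hmn, fl ρ r s c, ?_⟩
  have h6 := qs9_count b N hb1 hbN (fun i => (fl ρ r 1)^[i] (fl ρ r s c)) n
  have h7 : ∑ i ∈ Finset.range n, b ((fl ρ r 1)^[i] (fl ρ r s c)) =
      ∑ i ∈ Finset.range n, b (fl ρ r (i + s) c) := by
    refine Finset.sum_congr rfl (fun i _ => ?_)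
    rw [qs9_iter (sr_flow h)]
  have h8 : θ / (2 * I) * n ≤ θ * R := by
    have : θ / (2 * I) * n ≤ θ / (2 * I) * (2 * (I * R)) := by
      apply mul_le_mul_of_nonneg_left _ (by positivity)
      linarith
    refine this.trans (le_of_eq ?_)
    field_simp
  calc θ / (2 * I) * n ≤ θ * R := h8
    _ ≤ ∫ u in (0:ℝ)..R, b (ρ u c) := h3
    _ ≤ ∫ u in (0:ℝ)..R, b (ρ u c) / V (ρ u c) := h2
    _ = ∫ t in (0:ℝ)..T, b (fl ρ r t c) := h4.symm
    _ ≤ ∫ t in (0:ℝ)..(n:ℝ), b (fl ρ r t c) := h1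
    _ ≤ ∑ i ∈ Finset.range n, b (fl ρ r (i + s) c) := h5
    _ = ∑ i ∈ Finset.range n, b ((fl ρ r 1)^[i] (fl ρ r s c)) := h7.symm
    _ ≤ _ := h6

end CI48
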