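import Pool.Agent.LibCI48.CDefs

/-! TASK C00 (SHORT, ~30 lines).  Zeros of the vector field are at rest. -/

set_option autoImplicit false

namespace CI48

open CPE48 Set Function Filter Topology

theorem c00_gen {E : Type*} [NormedAddCommGroup E] [NormedSpace ℝ E] {Z : E → E}
    {φ : ℝ → E → E} (h : CI.IsFl Z φ) (c : E) (hc : Z c = 0) (t : ℝ) : φ t c = c := by
  have hd : ∀ t, HasDerivAt (fun t => φ t c) 0 t := by
    intro t
    have h1 : HasDerivAt (fun s => φ (t + s) c) (Z (φ t c)) 0 := by
      have h2 := h.deriv t c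
      have h3 : HasDerivAt (fun s : ℝ => t + s) 1 0 := (hasDerivAt_id (0:ℝ)).const_add t
      have h4 := HasDerivAt.scomp (0:ℝ) (by simpa using h2) h3
      rw [one_smul] at h4
      exact h4
    have h5 : HasDerivAt (fun s => φ t (φ s c)) (0 : E) 0 := by
      have h6 : Differentiable ℝ (φ t) := by
        have h7 := h.smooth.comp (contDiff_prodMk_right (n := ((⊤ : ℕ∞) : WithTop ℕ∞)) t)
        exact h7.differentiable (by simp)
      have h8 : HasDerivAt (fun s => φ s c) (Z (φ 0 c)) 0 := h.deriv 0 c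
      rw [h.zero, hc] at h8
      have h9 : HasFDerivAt (φ t) (fderiv ℝ (φ t) (φ 0 c)) (φ 0 c) :=
        (h6 (φ 0 c)).hasFDerivAt
      have h10 := h9.comp_hasDerivAt (0:ℝ) h8
      rw [map_zero] at h10
      exact h10
    have h11 : (fun s => φ (t + s) c) = fun s => φ t (φ s c) := by
      funext s
      exact h.add t s c
    rw [h11] at h1
    have h12 : Z (φ t c) = 0 := h1.unique h5
    have h13 := h.deriv t c
    rwa [h12] at h13
  have h0 : (fun t => φ t c) t = (fun t => φ t c) 0 :=
    is_const_of_deriv_eq_zero (fun t => (hd t).differentiableAt) (fun t => (hd t).deriv) t 0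
  simpa [h.zero] using h0

theorem phi_stop' (P : CI.Par) (t : ℝ) (c : ℝ × ℝ) (h : CI.VV P c = 0) :
    CI.phi P t c = c :=
  c00_gen (CI.phi_isFl P) c (CI.ZZ_zero P c h) t

end CI48
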