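import Pool.Agent.LibCI48.CDefs

/-! TASK C01 (MEDIUM, ~90 lines).  Descent of periodic functions to the torus. -/

set_option autoImplicit false

namespace CI48

open CPE48 Set Function Filter Topology

theorem c01_open1 : IsOpenQuotientMap (fun x : ℝ => (x : UnitAddCircle)) :=
  QuotientAddGroup.isOpenQuotientMap_mk

theorem c01_eq1 (x x' : ℝ) : (x : UnitAddCircle) = (x' : UnitAddCircle) ↔ ∃ i : ℤ, x' = x + i := by
  constructor
  · intro h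
    have h1 : ((x' - x : ℝ) : UnitAddCircle) = 0 := by
      rw [AddCircle.coe_sub, h, sub_self]
    obtain ⟨n, hn⟩ := (AddCircle.coe_eq_zero_iff (1:ℝ)).1 h1
    refine ⟨n, ?_⟩
    rw [zsmul_eq_mul, mul_one] at hn
    linarith
  · rintro ⟨i, rfl⟩
    have h1 : ((i : ℝ) : UnitAddCircle) = 0 :=
      (AddCircle.coe_eq_zero_iff (1:ℝ)).2 ⟨i, by rw [zsmul_eq_mul, mul_one]⟩
    rw [AddCircle.coe_add, h1, add_zero]

theorem pr2_open : IsOpenQuotientMap pr2 :=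
  c01_open1.prodMap c01_open1

theorem pr3_open : IsOpenQuotientMap pr3 :=
  (c01_open1.prodMap c01_open1).prodMap c01_open1

theorem pr5_open : IsOpenQuotientMap pr5 :=
  pr3_open.prodMap pr2_open

theorem pr2_eq_iff (y y' : ℝ × ℝ) :
    pr2 y = pr2 y' ↔ ∃ i j : ℤ, y' = (y.1 + i, y.2 + j) := by
  unfold pr2
  rw [Prod.mk.injEq, c01_eq1, c01_eq1]
  constructor
  · rintro ⟨⟨i, hi⟩, ⟨j, hj⟩⟩
    exact ⟨i, j, Prod.ext hi hj⟩
  · rintro ⟨i, j, rfl⟩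
    exact ⟨⟨i, rfl⟩, ⟨j, rfl⟩⟩

theorem pr3_eq_iff (c c' : CI.E3) : pr3 c = pr3 c' ↔ ∃ i j k : ℤ, c' = c + z3 i j k := by
  unfold pr3
  rw [Prod.mk.injEq, Prod.mk.injEq, c01_eq1, c01_eq1, c01_eq1]
  constructor
  · rintro ⟨⟨⟨i, hi⟩, ⟨j, hj⟩⟩, ⟨k, hk⟩⟩
    exact ⟨i, j, k, Prod.ext (Prod.ext hi hj) hk⟩
  · rintro ⟨i, j, k, rfl⟩
    exact ⟨⟨⟨i, rfl⟩, ⟨j, rfl⟩⟩, ⟨k, rfl⟩⟩

theorem pr5_eq_iff (z z' : CI.E5) : pr5 z = pr5 z' ↔ ∃ v : CI.Z5, z' = z + CI.sh v := by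
  unfold pr5
  rw [Prod.mk.injEq, pr3_eq_iff, pr2_eq_iff]
  constructor
  · rintro ⟨⟨i, j, k, h1⟩, ⟨l, m, h2⟩⟩
    exact ⟨(((i, j), k), (l, m)), Prod.ext h1 h2⟩
  · rintro ⟨v, rfl⟩
    exact ⟨⟨v.1.1.1, v.1.1.2, v.1.2, rfl⟩, ⟨v.2.1, v.2.2, rfl⟩⟩

theorem c01_desc {T E W Z : Type*} [TopologicalSpace T] [TopologicalSpace E] [TopologicalSpace W]
    [TopologicalSpace Z] {π : E → W} (hπ : IsOpenQuotientMap π) (f : T → E → Z)
    (hf : Continuous (fun q : T × E => f q.1 q.2)) (hp : ∀ t c c', π c = π c' → f t c = f t c') :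
    ∃ g : T → W → Z, Continuous (fun q : T × W => g q.1 q.2) ∧ ∀ t c, g t (π c) = f t c := by
  have h0 : ∀ t c, f t (surjInv hπ.surjective (π c)) = f t c := fun t c =>
    hp t _ _ (surjInv_eq hπ.surjective (π c))
  refine ⟨fun t w => f t (surjInv hπ.surjective w), ?_, h0⟩
  have h1 : IsOpenQuotientMap (Prod.map (id : T → T) π) := IsOpenQuotientMap.id.prodMap hπ
  rw [← h1.continuous_comp_iff]
  have h2 : ((fun q : T × W => f q.1 (surjInv hπ.surjective q.2)) ∘ Prod.map (id : T → T) π) =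
      fun q : T × E => f q.1 q.2 := by
    funext q
    exact h0 q.1 q.2
  rw [h2]
  exact hf

theorem desc3 {T Z : Type*} [TopologicalSpace T] [TopologicalSpace Z] (f : T → CI.E3 → Z)
    (hf : Continuous (fun q : T × CI.E3 => f q.1 q.2))
    (hp : ∀ t c i j k, f t (c + z3 i j k) = f t c) :
    ∃ g : T → X3 → Z, Continuous (fun q : T × X3 => g q.1 q.2) ∧ ∀ t c, g t (pr3 c) = f t c := by
  refine c01_desc pr3_open f hf ?_
  intro t c c' h
  obtain ⟨i, j, k, rfl⟩ := (pr3_eq_iff c c').1 h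
  exact (hp t c i j k).symm

theorem desc5 {T Z : Type*} [TopologicalSpace T] [TopologicalSpace Z] (f : T → CI.E5 → Z)
    (hf : Continuous (fun q : T × CI.E5 => f q.1 q.2))
    (hp : ∀ t z v, f t (z + CI.sh v) = f t z) :
    ∃ g : T → X3 × Y2 → Z, Continuous (fun q : T × (X3 × Y2) => g q.1 q.2) ∧
      ∀ t z, g t (pr5 z) = f t z := by
  refine c01_desc pr5_open f hf ?_
  intro t c c' h
  obtain ⟨v, rfl⟩ := (pr5_eq_iff c c').1 h
  exact (hp t c v).symm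

theorem desc2 {Z : Type*} [TopologicalSpace Z] (f : ℝ × ℝ → Z) (hf : Continuous f)
    (hp : ∀ y : ℝ × ℝ, ∀ i j : ℤ, f (y.1 + i, y.2 + j) = f y) :
    ∃ g : Y2 → Z, Continuous g ∧ ∀ y, g (pr2 y) = f y := by
  obtain ⟨g, h1, h2⟩ := c01_desc pr2_open (fun (_ : Unit) y => f y) (hf.comp continuous_snd) (by
    intro t c c' h
    obtain ⟨i, j, rfl⟩ := (pr2_eq_iff c c').1 h
    exact (hp c i j).symm)
  exact ⟨g (), h1.comp (continuous_const.prodMk continuous_id), fun y => h2 () y⟩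

end CI48
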