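import Pool.Agent.LibCI48.CDefs

/-! TASK C02 (MEDIUM, ~80 lines).  The inverse of `y ↦ NN (x, y)`. -/

set_option autoImplicit false

namespace CI48

open CPE48 Set Function Filter Topology

theorem YY_spec (P : CI.Par) (x n : ℝ) : CI.NN P (x, YY P x n) = n :=
  (CI.NN_surj P x n).choose_spec

theorem YY_eq (P : CI.Par) (x y n : ℝ) (h : CI.NN P (x, y) = n) : y = YY P x n :=
  (CI.NN_strictMono P x).injective (h.trans (YY_spec P x n).symm)

theorem c02_NN_cont (P : CI.Par) : Continuous (CI.NN P) := by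
  have h := CI.KK_cont P
  unfold CI.NN
  fun_prop

theorem YY_cont (P : CI.Par) : Continuous (fun q : ℝ × ℝ => YY P q.1 q.2) := by
  have hN := c02_NN_cont P
  rw [continuous_iff_continuousAt]
  intro q0
  refine tendsto_order.2 ⟨fun a ha => ?_, fun a ha => ?_⟩
  · have h1 : CI.NN P (q0.1, a) < q0.2 := by
      have := CI.NN_strictMono P q0.1 ha
      simpa [YY_spec] using this
    have h2 : IsOpen {q : ℝ × ℝ | CI.NN P (q.1, a) < q.2} :=
      isOpen_lt (hN.comp (continuous_fst.prodMk continuous_const)) continuous_snd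
    filter_upwards [h2.mem_nhds h1] with q hq
    have hq' : CI.NN P (q.1, a) < CI.NN P (q.1, YY P q.1 q.2) := by
      rw [YY_spec]; exact hq
    exact (CI.NN_strictMono P q.1).lt_iff_lt.1 hq'
  · have h1 : q0.2 < CI.NN P (q0.1, a) := by
      have := CI.NN_strictMono P q0.1 ha
      simpa [YY_spec] using this
    have h2 : IsOpen {q : ℝ × ℝ | q.2 < CI.NN P (q.1, a)} :=
      isOpen_lt continuous_snd (hN.comp (continuous_fst.prodMk continuous_const))
    filter_upwards [h2.mem_nhds h1] with q hq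
    have hq' : CI.NN P (q.1, YY P q.1 q.2) < CI.NN P (q.1, a) := by
      rw [YY_spec]; exact hq
    exact (CI.NN_strictMono P q.1).lt_iff_lt.1 hq'

theorem YY_shift (P : CI.Par) (x n : ℝ) (i j : ℤ) :
    YY P (x + i) (n + j - P.al * i) = YY P x n + j := by
  symm
  apply YY_eq
  have h := CI.NN_shift P (x, YY P x n) i j
  rw [YY_spec] at h
  exact h

theorem YY_strictMono (P : CI.Par) (x : ℝ) : StrictMono (YY P x) := by
  intro n n' h
  by_contra hc
  have h1 := (CI.NN_strictMono P x).monotone (not_lt.1 hc)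
  simp only [YY_spec] at h1
  linarith

theorem c02_nn_bound (P : CI.Par) (m : ℕ) :
    P.al * P.J (m + 1) - P.q (m + 1) ≤ (1 / 2) ^ m / 16 := by
  induction m with
  | zero => simpa using P.n_le
  | succ m ih =>
      have := P.n_step m
      have h2 : ((1 : ℝ) / 2) ^ (m + 1) = (1 / 2) ^ m / 2 := by rw [pow_succ]; ring
      rw [h2]
      linarith

theorem par_irr (P : CI.Par) (i j : ℤ) (h : (j : ℝ) = P.al * i) : i = 0 ∧ j = 0 := by
  have hi : i = 0 := by
    by_contra hi
    have hi' : (0 : ℝ) < |(i : ℝ)| := abs_pos.2 (by exact_mod_cast hi)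
    obtain ⟨m, hm⟩ := exists_pow_lt_of_lt_one (show (0 : ℝ) < 1 / |(i : ℝ)| by positivity)
      (show (1 / 2 : ℝ) < 1 by norm_num)
    have hb := c02_nn_bound P m
    have hp := P.n_pos m
    set n : ℝ := P.al * P.J (m + 1) - P.q (m + 1) with hn
    have h1 : ((j * P.J (m + 1) - P.q (m + 1) * i : ℤ) : ℝ) = n * i := by
      push_cast
      rw [h, hn]
      ring
    have h2 : (j * P.J (m + 1) - P.q (m + 1) * i : ℤ) ≠ 0 := by
      intro h0
      rw [h0] at h1
      have : n * (i : ℝ) ≠ 0 := mul_ne_zero hp.ne' (by exact_mod_cast hi)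
      exact this (by simpa using h1.symm)
    have h3 : (1 : ℝ) ≤ |((j * P.J (m + 1) - P.q (m + 1) * i : ℤ) : ℝ)| := by
      exact_mod_cast Int.one_le_abs h2
    rw [h1, abs_mul, abs_of_pos hp] at h3
    have h4 : n < 1 / |(i : ℝ)| := by
      have : (0 : ℝ) < (1 / 2) ^ m := by positivity
      linarith
    have h5 : n * |(i : ℝ)| < 1 := by
      rwa [lt_div_iff₀ hi'] at h4
    linarith
  refine ⟨hi, ?_⟩
  rw [hi] at h
  have : (j : ℝ) = 0 := by simpa using h
  exact_mod_cast this

end CI48
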