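import Pool.Agent.LibCI48.C01
import Pool.Agent.LibCI48.C02

/-! TASK C03 (MEDIUM, ~120 lines).  The flow on `X3` and the straightening. -/

set_option autoImplicit false

namespace CI48

open CPE48 Set Function Filter Topology

theorem c03_Phi_z3 (P : CI.Par) (t : ℝ) (c : CI.E3) (i j k : ℤ) :
    CI.Phi P t (c + z3 i j k) = CI.Phi P t c + z3 i j k :=
  CI.Phi_shift P t c (((i, j), k), (0, 0))

theorem c03_pr3_z3 (c : CI.E3) (i j k : ℤ) : pr3 (c + z3 i j k) = pr3 c :=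
  ((pr3_eq_iff c (c + z3 i j k)).2 ⟨i, j, k, rfl⟩).symm

theorem c03_Phi_cont (P : CI.Par) : Continuous (fun q : ℝ × CI.E3 => CI.Phi P q.1 q.2) := by
  have h := (CI.phi_isFl P).smooth.continuous
  have h1 : Continuous (fun q : ℝ × CI.E3 => CI.phi P q.1 q.2.1) :=
    h.comp (continuous_fst.prodMk (continuous_fst.comp continuous_snd))
  unfold CI.Phi
  refine h1.prodMk ?_
  have h2 : Continuous (fun q : ℝ × CI.E3 => (CI.phi P q.1 q.2.1).1) := continuous_fst.comp h1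
  fun_prop

theorem c03_Phi_zero (P : CI.Par) (c : CI.E3) : CI.Phi P 0 c = c := by
  unfold CI.Phi
  rw [(CI.phi_isFl P).zero]
  refine Prod.ext rfl ?_
  simp

theorem exists_Phi (P : CI.Par) : ∃ Φ : ℝ → X3 → X3, IsPhi P Φ := by
  obtain ⟨g, hg, hg2⟩ := desc3 (T := ℝ) (fun t c => pr3 (CI.Phi P t c))
    (pr3_open.continuous.comp (c03_Phi_cont P)) (by
      intro t c i j k
      show pr3 (CI.Phi P t (c + z3 i j k)) = pr3 (CI.Phi P t c)
      rw [c03_Phi_z3, c03_pr3_z3])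
  refine ⟨g, ⟨hg, ?_, ?_⟩, hg2⟩
  · intro z
    obtain ⟨c, rfl⟩ := pr3_open.surjective z
    rw [hg2, c03_Phi_zero]
  · intro s t z
    obtain ⟨c, rfl⟩ := pr3_open.surjective z
    rw [hg2, hg2, hg2, CI.Phi_add]

theorem c03_desc {Z : Type*} [TopologicalSpace Z] (f : CI.E3 → Z) (hf : Continuous f)
    (hp : ∀ c i j k, f (c + z3 i j k) = f c) :
    ∃ g : X3 → Z, Continuous g ∧ ∀ c, g (pr3 c) = f c := by
  obtain ⟨g, hg, hg2⟩ := desc3 (T := Unit) (fun _ c => f c) (hf.comp continuous_snd)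
    (fun _ c i j k => hp c i j k)
  exact ⟨g (), hg.comp (continuous_const.prodMk continuous_id), fun c => hg2 () c⟩

theorem c03_YY_per (P : CI.Par) (x y : ℝ) (i j : ℤ) :
    YY P (x + i) (y + j - P.al * (x + i)) = YY P x (y - P.al * x) + j := by
  rw [← YY_shift P x (y - P.al * x) i j]
  congr 1
  ring

theorem c03_YY_cont (P : CI.Par) :
    Continuous (fun c : CI.E3 => YY P c.1.1 (c.1.2 - P.al * c.1.1)) := by
  have h1 : Continuous (fun c : CI.E3 => (c.1.1, c.1.2 - P.al * c.1.1)) := by fun_prop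
  exact (YY_cont P).comp h1

theorem c03_YY_NN (P : CI.Par) (x y : ℝ) : YY P x (y - CI.KK P (x, y) - P.al * x) = y := by
  symm
  apply YY_eq
  unfold CI.NN
  ring

theorem c03_NN_YY (P : CI.Par) (x y : ℝ) :
    YY P x (y - P.al * x) - CI.KK P (x, YY P x (y - P.al * x)) = y := by
  have h := YY_spec P x (y - P.al * x)
  unfold CI.NN at h
  dsimp only at h
  linarith

theorem exists_straight (P : CI.Par) : ∃ Ψ : X3 ≃ₜ X3,
    (∀ c : CI.E3, Ψ (pr3 c) = pr3 ((c.1.1, c.1.2 - CI.KK P c.1), c.2)) ∧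
    (∀ c : CI.E3, Ψ.symm (pr3 c) =
      pr3 ((c.1.1, YY P c.1.1 (c.1.2 - P.al * c.1.1)), c.2)) := by
  have hK := CI.KK_cont P
  obtain ⟨g, hg, hg2⟩ := c03_desc (fun c => pr3 ((c.1.1, c.1.2 - CI.KK P c.1), c.2))
    (pr3_open.continuous.comp (by fun_prop)) (by
      intro c i j k
      refine Eq.symm ((pr3_eq_iff _ _).2 ⟨i, j, k, ?_⟩)
      have h := CI.KK_shift P c.1 i j
      refine Prod.ext (Prod.ext rfl ?_) rfl
      show c.1.2 + j - CI.KK P (c.1.1 + i, c.1.2 + j) = c.1.2 - CI.KK P c.1 + j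
      rw [h]; ring)
  obtain ⟨g', hg', hg2'⟩ := c03_desc
    (fun c => pr3 ((c.1.1, YY P c.1.1 (c.1.2 - P.al * c.1.1)), c.2))
    (pr3_open.continuous.comp (by
      have := c03_YY_cont P
      fun_prop)) (by
      intro c i j k
      refine Eq.symm ((pr3_eq_iff _ _).2 ⟨i, j, k, ?_⟩)
      refine Prod.ext (Prod.ext rfl ?_) rfl
      exact c03_YY_per P c.1.1 c.1.2 i j)
  refine ⟨{ toFun := g, invFun := g', left_inv := ?_, right_inv := ?_,
            continuous_toFun := hg, continuous_invFun := hg' }, hg2, hg2'⟩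
  · intro z
    obtain ⟨c, rfl⟩ := pr3_open.surjective z
    rw [hg2, hg2']
    show pr3 ((c.1.1, YY P c.1.1 (c.1.2 - CI.KK P (c.1.1, c.1.2) - P.al * c.1.1)), c.2) = pr3 c
    rw [c03_YY_NN]
  · intro z
    obtain ⟨c, rfl⟩ := pr3_open.surjective z
    rw [hg2', hg2]
    show pr3 ((c.1.1, YY P c.1.1 (c.1.2 - P.al * c.1.1) -
      CI.KK P (c.1.1, YY P c.1.1 (c.1.2 - P.al * c.1.1))), c.2) = pr3 c
    rw [c03_NN_YY]

theorem exists_V (P : CI.Par) : ∃ V : X3 → ℝ, Continuous V ∧ IsV P V := by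
  have hV := CI.VV_cont P
  have hY := c03_YY_cont P
  obtain ⟨g, hg, hg2⟩ := c03_desc
    (fun c => CI.VV P (c.1.1, YY P c.1.1 (c.1.2 - P.al * c.1.1))) (by fun_prop) (by
      intro c i j k
      show CI.VV P (c.1.1 + i, YY P (c.1.1 + i) (c.1.2 + j - P.al * (c.1.1 + i))) =
        CI.VV P (c.1.1, YY P c.1.1 (c.1.2 - P.al * c.1.1))
      rw [c03_YY_per]
      exact CI.VV_shift P (c.1.1, YY P c.1.1 (c.1.2 - P.al * c.1.1)) i j)
  exact ⟨g, hg, hg2⟩

theorem rho_pr3 (P : CI.Par) (u : ℝ) (c : CI.E3) :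
    rho P u (pr3 c) = pr3 ((c.1.1 + u, c.1.2 + P.al * u), c.2 + P.be * u) := by
  unfold rho pr3
  simp only [AddCircle.coe_add]

end CI48
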