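import Pool.Agent.LibCI48.C00
import Pool.Agent.LibCI48.C03

/-! TASK C04 (MEDIUM, ~130 lines).  The flow in straightened coordinates is a flow along the lines of
`rho`. -/

set_option autoImplicit false

namespace CI48

open CPE48 Set Function Filter Topology

theorem rho_flow (P : CI.Par) : IsFlow (rho P) := by
  have hc : Continuous (fun x : ℝ => (x : UnitAddCircle)) := c01_open1.continuous
  refine ⟨?_, ?_, ?_⟩
  · unfold rho
    have h1 : Continuous (fun q : ℝ × X3 => ((P.al * q.1 : ℝ) : UnitAddCircle)) :=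
      hc.comp (continuous_const.mul continuous_fst)
    have h2 : Continuous (fun q : ℝ × X3 => ((P.be * q.1 : ℝ) : UnitAddCircle)) :=
      hc.comp (continuous_const.mul continuous_fst)
    have h3 : Continuous (fun q : ℝ × X3 => ((q.1 : ℝ) : UnitAddCircle)) :=
      hc.comp continuous_fst
    exact ((((continuous_fst.comp (continuous_fst.comp continuous_snd))).add h3).prodMk
      ((continuous_snd.comp (continuous_fst.comp continuous_snd)).add h1)).prodMk
      ((continuous_snd.comp continuous_snd).add h2)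
  · intro z
    unfold rho
    simp
  · intro s t z
    unfold rho
    refine Prod.ext (Prod.ext ?_ ?_) ?_
    · show z.1.1 + ((s + t : ℝ) : UnitAddCircle) = z.1.1 + (t : UnitAddCircle) + (s : UnitAddCircle)
      rw [AddCircle.coe_add]; abel
    · show z.1.2 + ((P.al * (s + t) : ℝ) : UnitAddCircle) =
        z.1.2 + ((P.al * t : ℝ) : UnitAddCircle) + ((P.al * s : ℝ) : UnitAddCircle)
      rw [mul_add, AddCircle.coe_add]; abel
    · show z.2 + ((P.be * (s + t) : ℝ) : UnitAddCircle) =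
        z.2 + ((P.be * t : ℝ) : UnitAddCircle) + ((P.be * s : ℝ) : UnitAddCircle)
      rw [mul_add, AddCircle.coe_add]; abel

theorem rho_iso (P : CI.Par) (u : ℝ) (c c' : X3) : dist (rho P u c) (rho P u c') = dist c c' := by
  unfold rho
  simp only [Prod.dist_eq, dist_add_right]

theorem c04_norm (x : ℝ) : ‖(x : UnitAddCircle)‖ ≤ |x| := by
  rw [UnitAddCircle.norm_eq]
  have h := round_le x 0
  simpa using h

theorem c04_dist (a : UnitAddCircle) (x y : ℝ) (h : |x| ≤ y) :
    dist (a + (x : UnitAddCircle)) a ≤ y := by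
  rw [dist_eq_norm, add_sub_cancel_left]
  exact (c04_norm x).trans h

theorem rho_speed (P : CI.Par) (u : ℝ) (c : X3) : dist (rho P u c) c ≤ |u| := by
  unfold rho
  have h1 : |P.al * u| ≤ |u| := by
    rw [abs_mul, abs_of_pos P.al_pos]
    have := P.al_lt.le
    nlinarith [abs_nonneg u]
  have h2 : |P.be * u| ≤ |u| := by
    rw [abs_mul, abs_of_pos P.be_pos]
    have := P.be_lt.le
    nlinarith [abs_nonneg u]
  rw [Prod.dist_eq, Prod.dist_eq]
  exact max_le (max_le (c04_dist _ _ _ le_rfl) (c04_dist _ _ _ h1)) (c04_dist _ _ _ h2)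

theorem c04_phi (P : CI.Par) (t x n : ℝ) :
    CI.phi P t (x, YY P x n) =
      ((CI.phi P t (x, YY P x n)).1, YY P (CI.phi P t (x, YY P x n)).1 n) := by
  refine Prod.ext rfl ?_
  show (CI.phi P t (x, YY P x n)).2 = YY P (CI.phi P t (x, YY P x n)).1 n
  apply YY_eq
  show CI.NN P (CI.phi P t (x, YY P x n)) = n
  rw [CI.NN_phi, YY_spec]

theorem exists_SR (P : CI.Par) (Φ : ℝ → X3 → X3) (hΦ : IsPhi P Φ) (Ψ : X3 ≃ₜ X3)
    (hΨ : ∀ c : CI.E3, Ψ (pr3 c) = pr3 ((c.1.1, c.1.2 - CI.KK P c.1), c.2))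
    (V : X3 → ℝ) (hVc : Continuous V) (hV : IsV P V) :
    ∃ r : X3 → ℝ → ℝ, SR (rho P) V r ∧ ∀ x, Ψ (Φ 1 x) = fl (rho P) r 1 (Ψ x) := by
  have hYc := c03_YY_cont P
  have hphi := CI.phi_isFl P
  obtain ⟨g, hg, hg2⟩ := desc3 (T := ℝ)
    (fun t c => (CI.phi P t (c.1.1, YY P c.1.1 (c.1.2 - P.al * c.1.1))).1 - c.1.1) (by
      have h1 : Continuous (fun q : ℝ × CI.E3 =>
          (q.1, ((q.2.1.1, YY P q.2.1.1 (q.2.1.2 - P.al * q.2.1.1)) : ℝ × ℝ))) := by
        have h2 : Continuous (fun q : ℝ × CI.E3 => YY P q.2.1.1 (q.2.1.2 - P.al * q.2.1.1)) :=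
          hYc.comp continuous_snd
        fun_prop
      have h3 : Continuous (fun q : ℝ × CI.E3 =>
          CI.phi P q.1 (q.2.1.1, YY P q.2.1.1 (q.2.1.2 - P.al * q.2.1.1))) :=
        hphi.smooth.continuous.comp h1
      have h4 : Continuous (fun q : ℝ × CI.E3 =>
          (CI.phi P q.1 (q.2.1.1, YY P q.2.1.1 (q.2.1.2 - P.al * q.2.1.1))).1) :=
        continuous_fst.comp h3
      fun_prop) (by
      intro t c i j k
      show (CI.phi P t (c.1.1 + i, YY P (c.1.1 + i) (c.1.2 + j - P.al * (c.1.1 + i)))).1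
        - (c.1.1 + i) = _
      rw [c03_YY_per]
      have h := CI.phi_shift P t (c.1.1, YY P c.1.1 (c.1.2 - P.al * c.1.1)) i j
      dsimp only at h
      rw [h]
      ring)
  -- value of `V` at a moved point
  have key : ∀ (c : CI.E3) (t : ℝ), rho P (g t (pr3 c)) (pr3 c) =
      pr3 (((CI.phi P t (c.1.1, YY P c.1.1 (c.1.2 - P.al * c.1.1))).1,
        c.1.2 + P.al * (g t (pr3 c))), c.2 + P.be * (g t (pr3 c))) := by
    intro c t
    rw [rho_pr3]
    have : c.1.1 + g t (pr3 c) = (CI.phi P t (c.1.1, YY P c.1.1 (c.1.2 - P.al * c.1.1))).1 := by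
      rw [hg2]; ring
    rw [this]
  have keyn : ∀ (c : CI.E3) (t : ℝ),
      c.1.2 + P.al * (g t (pr3 c)) -
        P.al * (CI.phi P t (c.1.1, YY P c.1.1 (c.1.2 - P.al * c.1.1))).1 =
      c.1.2 - P.al * c.1.1 := by
    intro c t
    rw [hg2]; ring
  refine ⟨fun c t => g t c, ?_, ?_⟩
  · refine ⟨rho_flow P, rho_iso P, rho_speed P, hVc, ?_, ?_, ?_, ?_, ?_, ?_, ?_⟩
    · intro z
      obtain ⟨c, rfl⟩ := pr3_open.surjective z
      rw [hV]; exact CI.VV_nonneg P _
    · intro z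
      obtain ⟨c, rfl⟩ := pr3_open.surjective z
      rw [hV]; exact CI.VV_le_one P _
    · exact hg.comp continuous_swap
    · intro z
      obtain ⟨c, rfl⟩ := pr3_open.surjective z
      show g 0 (pr3 c) = 0
      rw [hg2, hphi.zero]
      ring
    · intro z t
      obtain ⟨c, rfl⟩ := pr3_open.surjective z
      have h1 := hphi.deriv t (c.1.1, YY P c.1.1 (c.1.2 - P.al * c.1.1))
      have h2 := (ContinuousLinearMap.fst ℝ ℝ ℝ).hasFDerivAt.comp_hasDerivAt t h1
      have h3 := h2.sub_const c.1.1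
      have h4 : V (rho P (g t (pr3 c)) (pr3 c)) =
          CI.VV P (CI.phi P t (c.1.1, YY P c.1.1 (c.1.2 - P.al * c.1.1))) := by
        rw [key, hV]
        dsimp only
        rw [keyn, ← c04_phi]
      show HasDerivAt (fun t => g t (pr3 c)) (V (rho P (g t (pr3 c)) (pr3 c))) t
      rw [h4]
      have h5 : (fun t => g t (pr3 c)) = fun t =>
          (CI.phi P t (c.1.1, YY P c.1.1 (c.1.2 - P.al * c.1.1))).1 - c.1.1 := by
        funext t
        rw [hg2]
      rw [h5]
      exact h3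
    · intro z s t
      obtain ⟨c, rfl⟩ := pr3_open.surjective z
      show g (s + t) (pr3 c) = g s (pr3 c) + g t (rho P (g s (pr3 c)) (pr3 c))
      rw [key, hg2 t, hg2 (s + t), hg2 s]
      dsimp only
      have h1 := keyn c s
      rw [hg2 s] at h1
      rw [h1, ← c04_phi, ← hphi.add, add_comm t s]
      ring
    · intro z t h
      obtain ⟨c, rfl⟩ := pr3_open.surjective z
      rw [hV] at h
      show g t (pr3 c) = 0
      rw [hg2, phi_stop' P t _ h]
      ring
  · intro z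
    obtain ⟨c, rfl⟩ := pr3_open.surjective z
    rw [hΦ.2, hΨ, hΨ]
    unfold fl
    rw [key]
    dsimp only
    rw [hg2]
    dsimp only
    have h1 : YY P c.1.1 (c.1.2 - CI.KK P c.1 - P.al * c.1.1) = c.1.2 := c03_YY_NN P c.1.1 c.1.2
    rw [h1]
    refine Eq.symm ((pr3_eq_iff _ _).2 ⟨0, 0, 1, ?_⟩)
    have h2 := CI.NN_phi P 1 c.1
    unfold CI.NN at h2
    refine Prod.ext (Prod.ext ?_ ?_) ?_
    · show (CI.phi P 1 c.1).1 = (CI.phi P 1 c.1).1 + ((0 : ℤ) : ℝ)
      simp
    · show (CI.phi P 1 c.1).2 - CI.KK P (CI.phi P 1 c.1) =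
        c.1.2 - CI.KK P c.1 + P.al * ((CI.phi P 1 c.1).1 - c.1.1) + ((0 : ℤ) : ℝ)
      push_cast
      linarith
    · show c.2 + 1 + P.be * ((CI.phi P 1 c.1).1 - c.1.1) =
        c.2 + P.be * ((CI.phi P 1 c.1).1 - c.1.1) + ((1 : ℤ) : ℝ)
      push_cast
      ring

end CI48
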