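import Pool.Agent.LibCI48.C03

/-! TASK C05 (MEDIUM, ~110 lines).  Density of the linear flow, and the hypothesis of `sr_mixing`.

* `rho_unif`: from `P.dense` (with `δ = η / 2` or `η`) for the target `v - c`; distances on
  `UnitAddCircle`: `‖(t : UnitAddCircle)‖ ≤ |t - n|` for every integer `n`.
* `V_zero`: `V (pr3 ((0, 0), θ)) = VV (0, YY 0 0) = 0`: `VV_zero_iff` with `i = 0`, `P.J0`.
* `V_ne`: if `n` is not of the form `j - al * i` then `V (rho v (pr3 ((x, n + al * x), θ))) ≠ 0` for all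
  `v` (`rho_pr3`, `VV_zero`, `YY_spec`).
* `mix_hyp`: given `U`, `W`.  `u ≥ 0` with `c = rho (-u) (pr3 0) ∈ W` (`P.dense` for the negative of a
  point of `W`), `R - u ≥ 1` with `rho (R - u) (pr3 0) ∈ U` (`P.dense` for a point of `U` translated by
  `-(1, al, be)`).  Path: `γ l = c + l * (0, s, 0)` (i.e. `pr3` of the lift with `y` increased by
  `l * s`) with `0 < s < η` and `s` not of the form `j - al * i` (countably many):
  `n = s` for `γ 1`.
-/

set_option autoImplicit false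

namespace CI48

open CPE48 Set Function Filter Topology

theorem c05_dist (a b : ℝ) (n : ℤ) :
    dist (a : UnitAddCircle) (b : UnitAddCircle) ≤ |a - b - n| := by
  rw [dist_eq_norm, ← AddCircle.coe_sub, UnitAddCircle.norm_eq]
  exact round_le _ _

theorem c05_surj (c : X3) : ∃ c' : CI.E3, pr3 c' = c := by
  obtain ⟨⟨a, b⟩, d⟩ := c
  obtain ⟨a', rfl⟩ := QuotientAddGroup.mk_surjective a
  obtain ⟨b', rfl⟩ := QuotientAddGroup.mk_surjective b
  obtain ⟨d', rfl⟩ := QuotientAddGroup.mk_surjective d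
  exact ⟨((a', b'), d'), rfl⟩

theorem c05_dist3 (c v : CI.E3) (η : ℝ) (i j k : ℤ) (h1 : |c.1.1 - v.1.1 - i| < η)
    (h2 : |c.1.2 - v.1.2 - j| < η) (h3 : |c.2 - v.2 - k| < η) : dist (pr3 c) (pr3 v) < η := by
  unfold pr3
  rw [Prod.dist_eq, Prod.dist_eq]
  exact max_lt (max_lt ((c05_dist _ _ i).trans_lt h1) ((c05_dist _ _ j).trans_lt h2))
    ((c05_dist _ _ k).trans_lt h3)

theorem rho_unif (P : CI.Par) (v : X3) (η : ℝ) (hη : 0 < η) :
    ∃ M : ℝ, 0 ≤ M ∧ ∀ c, ∃ u ∈ Icc 0 M, dist (rho P u c) v < η := by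
  obtain ⟨M, hM, h⟩ := P.dense η hη
  refine ⟨M, hM, fun c => ?_⟩
  obtain ⟨v, rfl⟩ := c05_surj v
  obtain ⟨c, rfl⟩ := c05_surj c
  obtain ⟨u, hu, i, j, k, h1, h2, h3⟩ := h (v.1.1 - c.1.1) (v.1.2 - c.1.2) (v.2 - c.2)
  refine ⟨u, hu, ?_⟩
  rw [rho_pr3]
  refine c05_dist3 _ _ η i j k ?_ ?_ ?_
  · have : c.1.1 + u - v.1.1 - i = u - (v.1.1 - c.1.1) - i := by ring
    change |c.1.1 + u - v.1.1 - i| < η
    rw [this]; exact h1
  · have : c.1.2 + P.al * u - v.1.2 - j = P.al * u - (v.1.2 - c.1.2) - j := by ring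
    change |c.1.2 + P.al * u - v.1.2 - j| < η
    rw [this]; exact h2
  · have : c.2 + P.be * u - v.2 - k = P.be * u - (v.2 - c.2) - k := by ring
    change |c.2 + P.be * u - v.2 - k| < η
    rw [this]; exact h3

theorem V_zero (P : CI.Par) (V : X3 → ℝ) (hV : IsV P V) (θ : ℝ) : V (pr3 ((0, 0), θ)) = 0 := by
  rw [hV]
  have h1 := CI.VV_zero_iff P (0, YY P 0 0) (YY_spec P 0 0)
  have h2 : CI.VV P (0, YY P 0 0) = 0 := h1.2 ⟨0, by rw [P.J0]; norm_num⟩
  change CI.VV P (0, YY P 0 (0 - P.al * 0)) = 0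
  rw [mul_zero, sub_zero]
  exact h2

theorem V_ne (P : CI.Par) (V : X3 → ℝ) (hV : IsV P V) (x n θ v : ℝ)
    (hn : ∀ i j : ℤ, n ≠ j - P.al * i) : V (rho P v (pr3 ((x, n + P.al * x), θ))) ≠ 0 := by
  rw [rho_pr3, hV]
  intro h
  change CI.VV P (x + v, YY P (x + v) (n + P.al * x + P.al * v - P.al * (x + v))) = 0 at h
  have h1 : n + P.al * x + P.al * v - P.al * (x + v) = n := by ring
  rw [h1] at h
  obtain ⟨i, j, hij⟩ := CI.VV_zero P _ h
  rw [YY_spec] at hij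
  exact hn i j hij

theorem exists_generic (P : CI.Par) (a b : ℝ) (hab : a < b) :
    ∃ n ∈ Ioo a b, ∀ i j : ℤ, n ≠ j - P.al * i := by
  have hc : (range fun q : ℤ × ℤ => (q.2 : ℝ) - P.al * q.1).Countable := countable_range _
  obtain ⟨n, hn, hn2⟩ := (hc.dense_compl ℝ).exists_mem_open isOpen_Ioo (nonempty_Ioo.2 hab)
  exact ⟨n, hn2, fun i j h => hn ⟨(i, j), h.symm⟩⟩

theorem mix_hyp (P : CI.Par) (V : X3 → ℝ) (hV : IsV P V) (U W : Set X3) (hU : IsOpen U)
    (hW : IsOpen W) (hUn : U.Nonempty) (hWn : W.Nonempty) :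
    ∃ (c : X3) (u R : ℝ), c ∈ W ∧ 0 ≤ u ∧ u < R ∧ V (rho P u c) = 0 ∧ rho P R c ∈ U ∧
      ∀ η : ℝ, 0 < η → ∃ γ : ℝ → X3, Continuous γ ∧ γ 0 = c ∧
        (∀ l ∈ Icc (0:ℝ) 1, dist (γ l) c < η) ∧ ∀ v, 0 ≤ v → V (rho P v (γ 1)) ≠ 0 := by
  obtain ⟨w, hw⟩ := hWn
  obtain ⟨εw, hεw, hbw⟩ := Metric.isOpen_iff.1 hW w hw
  obtain ⟨p, hp⟩ := hUn
  obtain ⟨εp, hεp, hbp⟩ := Metric.isOpen_iff.1 hU p hp
  obtain ⟨w, rfl⟩ := c05_surj w
  obtain ⟨p, rfl⟩ := c05_surj p
  obtain ⟨M, -, hM⟩ := P.dense εw hεw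
  obtain ⟨M', -, hM'⟩ := P.dense εp hεp
  obtain ⟨u, hu, i, j, k, h1, h2, h3⟩ := hM (-w.1.1) (-w.1.2) (-w.2)
  obtain ⟨s, hs, i', j', k', h1', h2', h3'⟩ := hM' (p.1.1 - 1) (p.1.2 - P.al) (p.2 - P.be)
  refine ⟨pr3 ((-u, -(P.al * u)), -(P.be * u)), u, u + (1 + s), ?_, hu.1, ?_, ?_, ?_, ?_⟩
  · apply hbw
    rw [Metric.mem_ball]
    refine c05_dist3 _ _ εw (-i) (-j) (-k) ?_ ?_ ?_
    · have : -u - w.1.1 - ((-i : ℤ) : ℝ) = -(u - -w.1.1 - i) := by push_cast; ring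
      change |-u - w.1.1 - ((-i : ℤ) : ℝ)| < εw
      rw [this, abs_neg]; exact h1
    · have : -(P.al * u) - w.1.2 - ((-j : ℤ) : ℝ) = -(P.al * u - -w.1.2 - j) := by
        push_cast; ring
      change |-(P.al * u) - w.1.2 - ((-j : ℤ) : ℝ)| < εw
      rw [this, abs_neg]; exact h2
    · have : -(P.be * u) - w.2 - ((-k : ℤ) : ℝ) = -(P.be * u - -w.2 - k) := by
        push_cast; ring
      change |-(P.be * u) - w.2 - ((-k : ℤ) : ℝ)| < εw
      rw [this, abs_neg]; exact h3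
  · linarith [hs.1]
  · rw [rho_pr3]
    have h4 : ((((-u, -(P.al * u)), -(P.be * u)) : CI.E3).1.1 + u,
        (((-u, -(P.al * u)), -(P.be * u)) : CI.E3).1.2 + P.al * u) = ((0 : ℝ), (0 : ℝ)) := by
      ext <;> simp
    have h5 : (((-u, -(P.al * u)), -(P.be * u)) : CI.E3).2 + P.be * u = 0 := by simp
    rw [h4, h5]
    exact V_zero P V hV 0
  · apply hbp
    rw [Metric.mem_ball, rho_pr3]
    refine c05_dist3 _ _ εp i' j' k' ?_ ?_ ?_
    · have : -u + (u + (1 + s)) - p.1.1 - i' = s - (p.1.1 - 1) - i' := by ring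
      change |-u + (u + (1 + s)) - p.1.1 - i'| < εp
      rw [this]; exact h1'
    · have : -(P.al * u) + P.al * (u + (1 + s)) - p.1.2 - j' =
          P.al * s - (p.1.2 - P.al) - j' := by ring
      change |-(P.al * u) + P.al * (u + (1 + s)) - p.1.2 - j'| < εp
      rw [this]; exact h2'
    · have : -(P.be * u) + P.be * (u + (1 + s)) - p.2 - k' = P.be * s - (p.2 - P.be) - k' := by
        ring
      change |-(P.be * u) + P.be * (u + (1 + s)) - p.2 - k'| < εp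
      rw [this]; exact h3'
  · intro η hη
    obtain ⟨t, ht, htg⟩ := exists_generic P 0 η hη
    refine ⟨fun l => pr3 ((-u, -(P.al * u) + l * t), -(P.be * u)), ?_, ?_, ?_, ?_⟩
    · have hc : Continuous fun l : ℝ => ((-(P.al * u) + l * t : ℝ) : UnitAddCircle) :=
        (AddCircle.continuous_mk' 1).comp
          (continuous_const.add (continuous_id.mul continuous_const))
      have hd : Continuous fun _ : ℝ => ((-u : ℝ) : UnitAddCircle) := continuous_const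
      have he : Continuous fun _ : ℝ => ((-(P.be * u) : ℝ) : UnitAddCircle) := continuous_const
      exact (hd.prodMk hc).prodMk he
    · simp
    · intro l hl
      have hlt : |l * t| < η := by
        rw [abs_of_nonneg (mul_nonneg hl.1 ht.1.le)]
        nlinarith [hl.1, hl.2, ht.1, ht.2]
      refine c05_dist3 _ _ η 0 0 0 ?_ ?_ ?_
      · change |-u - -u - ((0 : ℤ) : ℝ)| < η
        rw [Int.cast_zero, sub_self, sub_zero, abs_zero]; exact hη
      · change |-(P.al * u) + l * t - -(P.al * u) - ((0 : ℤ) : ℝ)| < η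
        have : -(P.al * u) + l * t - -(P.al * u) - ((0 : ℤ) : ℝ) = l * t := by
          push_cast; ring
        rw [this]; exact hlt
      · change |-(P.be * u) - -(P.be * u) - ((0 : ℤ) : ℝ)| < η
        rw [Int.cast_zero, sub_self, sub_zero, abs_zero]; exact hη
    · intro v _
      have h6 : pr3 ((-u, -(P.al * u) + 1 * t), -(P.be * u)) =
          pr3 ((-u, t + P.al * (-u)), -(P.be * u)) := by
        congr 3
        ring
      show V (rho P v (pr3 ((-u, -(P.al * u) + 1 * t), -(P.be * u)))) ≠ 0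
      rw [h6]
      exact V_ne P V hV (-u) t (-(P.be * u)) v htg

end CI48
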