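import Pool.Agent.LibCI48.C02

/-! TASK C06 (MEDIUM/STRONG, ~120 lines).  Integrability of the travel time.

* `lint_V`: for fixed `u` the function `f y = NN (u, y)` is injective (`NN_strictMono`) with derivative
  `VV (u, y) / lam` (`NN_deriv`); with `y₀ = YY u 0`, `YY u 1 = y₀ + 1` (`YY_shift` with `i = 0`), `f` maps
  `Ioc y₀ (y₀ + 1)` onto `Ioc 0 1`.  `MeasureTheory.lintegral_image_eq_lintegral_abs_deriv_mul`:
  the integral is `∫⁻ y in Ioc y₀ (y₀+1), ofReal |VV/lam| * ofReal (1 / VV)`, and the integrand is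
  `≤ ofReal (1 / lam)` (both factors are `0` or the product is `1/lam`; in Lean `1 / 0 = 0`).
* `good_V`: `I = 2 / lam`.  For `R ≥ 1` the function `n ↦ ∫⁻ u in Ioc 0 R, ofReal (1 / VV (u, YY u n))` on
  `Ioc 0 1` has integral `≤ R / lam` (`lintegral_lintegral_swap`; measurability by continuity of `VV`
  and `YY_cont`); the set of `n` with `n = j - al * i` for some `i, j` is countable, so null; so there is
  another `n ∈ (0, 1]` with value `≤ R / lam` (`MeasureTheory.exists_notMem_null_le_lintegral` or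
  `exists_le_lintegral`-like, probability measure `volume.restrict (Ioc 0 1)`).  For this `n`
  `VV (u, YY u n) ≠ 0` for all `u` (`VV_zero`, `YY_spec`), the integrand is continuous, and
  `ofReal (∫ ..) = ∫⁻ ..` (`ofReal_integral_eq_lintegral_ofReal`, `intervalIntegral.integral_of_le`).
See LibCPE48/QT3 (`rot_good`) for the same kind of argument.
-/

set_option autoImplicit false

namespace CI48

open CPE48 Set Function Filter Topology MeasureTheory

theorem lint_V (P : CI.Par) (u : ℝ) :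
    ∫⁻ n in Ioc (0:ℝ) 1, ENNReal.ofReal (1 / CI.VV P (u, YY P u n)) ≤
      ENNReal.ofReal (1 / CI.lam P) := by
  have hl := CI.lam_pos P
  obtain ⟨y₀, hy₀⟩ := CI.NN_surj P u 0
  have hy₁ : CI.NN P (u, y₀ + 1) = 1 := by
    have h1 := CI.NN_shift P (u, y₀) 0 1
    rw [hy₀] at h1
    simpa using h1
  have hmono := CI.NN_strictMono P u
  have himg : (fun y => CI.NN P (u, y)) '' Ioc y₀ (y₀ + 1) = Ioc 0 1 := by
    ext n
    constructor
    · rintro ⟨y, hy, rfl⟩
      refine ⟨?_, ?_⟩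
      · rw [← hy₀]
        exact hmono hy.1
      · rw [← hy₁]
        exact hmono.monotone hy.2
    · intro hn
      obtain ⟨y, hy⟩ := CI.NN_surj P u n
      refine ⟨y, ⟨?_, ?_⟩, hy⟩
      · refine hmono.lt_iff_lt.1 ?_
        change CI.NN P (u, y₀) < CI.NN P (u, y)
        rw [hy₀, hy]
        exact hn.1
      · refine hmono.le_iff_le.1 ?_
        change CI.NN P (u, y) ≤ CI.NN P (u, y₀ + 1)
        rw [hy₁, hy]
        exact hn.2
  have h1 := lintegral_image_eq_lintegral_abs_deriv_mul (s := Ioc y₀ (y₀ + 1))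
    (f := fun y => CI.NN P (u, y)) (f' := fun y => CI.VV P (u, y) / CI.lam P) measurableSet_Ioc
    (fun y _ => (CI.NN_deriv P u y).hasDerivWithinAt) hmono.injective.injOn
    (fun n => ENNReal.ofReal (1 / CI.VV P (u, YY P u n)))
  rw [himg] at h1
  rw [h1]
  calc ∫⁻ y in Ioc y₀ (y₀ + 1), ENNReal.ofReal |CI.VV P (u, y) / CI.lam P| *
        ENNReal.ofReal (1 / CI.VV P (u, YY P u (CI.NN P (u, y))))
      ≤ ∫⁻ _y in Ioc y₀ (y₀ + 1), ENNReal.ofReal (1 / CI.lam P) := by
        refine lintegral_mono fun y => ?_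
        rw [← YY_eq P u y _ rfl, ← ENNReal.ofReal_mul (abs_nonneg _)]
        refine ENNReal.ofReal_le_ofReal ?_
        have hV := CI.VV_nonneg P (u, y)
        rw [abs_of_nonneg (div_nonneg hV hl.le)]
        rcases eq_or_lt_of_le hV with h2 | h2
        · rw [← h2]
          simp only [zero_div, zero_mul]
          positivity
        · refine le_of_eq ?_
          field_simp
    _ = ENNReal.ofReal (1 / CI.lam P) := by
        rw [setLIntegral_const, Real.volume_Ioc]
        simp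

theorem good_V (P : CI.Par) : ∃ I : ℝ, ∀ R : ℝ, 1 ≤ R → ∃ n : ℝ,
    (∀ u, CI.VV P (u, YY P u n) ≠ 0) ∧
    ∫ u in (0:ℝ)..R, 1 / CI.VV P (u, YY P u n) ≤ I * R := by
  have hl := CI.lam_pos P
  refine ⟨1 / CI.lam P, fun R hR => ?_⟩
  have hR0 : (0:ℝ) ≤ R := by linarith
  have hcont : Continuous fun q : ℝ × ℝ => CI.VV P (q.2, YY P q.2 q.1) :=
    (CI.VV_cont P).comp (continuous_snd.prodMk
      ((YY_cont P).comp (continuous_snd.prodMk continuous_fst)))
  have hmeas : Measurable fun q : ℝ × ℝ => ENNReal.ofReal (1 / CI.VV P (q.2, YY P q.2 q.1)) :=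
    ENNReal.measurable_ofReal.comp (measurable_const.div hcont.measurable)
  obtain ⟨G, hG⟩ : ∃ G : ℝ → ENNReal, G = fun n =>
      ∫⁻ u in Ioc 0 R, ENNReal.ofReal (1 / CI.VV P (u, YY P u n)) := ⟨_, rfl⟩
  have hGm : Measurable G := by
    rw [hG]
    exact Measurable.lintegral_prod_right' hmeas
  have hGint : ∫⁻ n in Ioc (0:ℝ) 1, G n ≤ ENNReal.ofReal (1 / CI.lam P) * ENNReal.ofReal R := by
    have h1 : ∫⁻ n in Ioc (0:ℝ) 1, G n = ∫⁻ u in Ioc 0 R, ∫⁻ n in Ioc (0:ℝ) 1,
        ENNReal.ofReal (1 / CI.VV P (u, YY P u n)) := by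
      rw [hG]
      exact lintegral_lintegral_swap hmeas.aemeasurable
    rw [h1]
    refine le_trans (lintegral_mono fun u => lint_V P u) ?_
    rw [setLIntegral_const, Real.volume_Ioc, sub_zero]
  obtain ⟨Zs, hZs⟩ : ∃ Zs : Set ℝ, Zs = range fun q : ℤ × ℤ => (q.2 : ℝ) - P.al * q.1 := ⟨_, rfl⟩
  have hZ0 : (volume.restrict (Ioc (0:ℝ) 1)) Zs = 0 := by
    rw [hZs]
    exact (countable_range _).measure_zero _
  have hprob : IsProbabilityMeasure (volume.restrict (Ioc (0:ℝ) 1)) := ⟨by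
    rw [Measure.restrict_apply_univ, Real.volume_Ioc]
    simp⟩
  obtain ⟨n, hnZ, hn⟩ := exists_notMem_null_le_lintegral (μ := volume.restrict (Ioc (0:ℝ) 1))
    hGm.aemeasurable hZ0
  have hn2 := le_trans hn hGint
  have hne : ∀ u, CI.VV P (u, YY P u n) ≠ 0 := by
    intro u hu
    obtain ⟨i, j, hij⟩ := CI.VV_zero P _ hu
    rw [YY_spec] at hij
    apply hnZ
    rw [hZs]
    exact ⟨(i, j), hij.symm⟩
  refine ⟨n, hne, ?_⟩
  have hc1 : Continuous fun u : ℝ => CI.VV P (u, YY P u n) :=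
    hcont.comp (f := fun u : ℝ => (n, u)) (Continuous.prodMk_right n)
  rw [intervalIntegral.integral_of_le hR0, integral_eq_lintegral_of_nonneg_ae]
  · have h1 : (∫⁻ u in Ioc 0 R, ENNReal.ofReal (1 / CI.VV P (u, YY P u n))) = G n := by
      rw [hG]
    rw [h1]
    have h2 := ENNReal.toReal_mono (ENNReal.mul_lt_top ENNReal.ofReal_lt_top
      ENNReal.ofReal_lt_top).ne hn2
    rw [ENNReal.toReal_mul, ENNReal.toReal_ofReal hR0, ENNReal.toReal_ofReal (by positivity)] at h2
    exact h2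
  · exact Eventually.of_forall fun u => div_nonneg zero_le_one (CI.VV_nonneg P _)
  · exact (continuous_const.div hc1 hne).aestronglyMeasurable

end CI48
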