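import Pool.Agent.LibCI48.B1
import Pool.Agent.LibCI48.B2
import Pool.Agent.LibCI48.B3
import Pool.Agent.LibCI48.C04
import Pool.Agent.LibCI48.C05
import Pool.Agent.LibCI48.C06

/-! TASK C07 (EASY, ~70 lines).  The dynamical properties of the base. -/

set_option autoImplicit false

namespace CI48

open CPE48 Set Function Filter Topology

theorem c07_V (P : CI.Par) (V : X3 → ℝ) (hV : IsV P V) (n u : ℝ) :
    V (rho P u (pr3 ((0, n), 0))) = CI.VV P (u, YY P u n) := by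
  rw [rho_pr3, hV]
  dsimp only
  have h1 : (0 : ℝ) + u = u := zero_add u
  have h2 : n + P.al * u - P.al * u = n := by ring
  rw [h1, h2]

theorem base_props (P : CI.Par) (Φ : ℝ → X3 → X3) (hΦ : IsPhi P Φ) :
    Mixing (Φ 1) ∧ ZE (Φ 1) ∧ Vis (Φ 1) := by
  obtain ⟨Ψ, hΨ, _⟩ := exists_straight P
  obtain ⟨V, hVc, hV⟩ := exists_V P
  obtain ⟨r, hr, hconj⟩ := exists_SR P Φ hΦ Ψ hΨ V hVc hV
  have hsymm : ∀ x, Ψ.symm (fl (rho P) r 1 x) = Φ 1 (Ψ.symm x) := by
    intro x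
    have h1 := hconj (Ψ.symm x)
    rw [Ψ.apply_symm_apply] at h1
    rw [← h1, Ψ.symm_apply_apply]
  refine ⟨?_, ?_, ?_⟩
  · exact Mixing.factor Ψ.symm.continuous Ψ.symm.surjective hsymm
      (sr_mixing hr (fun U W hU hW hUn hWn => mix_hyp P V hV U W hU hW hUn hWn))
  · exact ZE.factor Ψ.symm.continuous Ψ.symm.surjective hsymm (sr_ze hr)
  · have hvis : Vis (fl (rho P) r 1) := by
      refine sr_vis hr (fun v η hη => rho_unif P v η hη) ?_
      obtain ⟨I, hI⟩ := good_V P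
      refine ⟨I, fun R hR => ?_⟩
      obtain ⟨n, hn1, hn2⟩ := hI R hR
      refine ⟨pr3 ((0, n), 0), fun u _ => ?_, ?_⟩
      · rw [c07_V P V hV]; exact hn1 u
      · have h1 : (fun u => 1 / V (rho P u (pr3 ((0, n), 0)))) =
            fun u => 1 / CI.VV P (u, YY P u n) := by
          funext u
          rw [c07_V P V hV]
        rw [h1]
        exact hn2
    intro N hN hne
    obtain ⟨θ, hθ, hf⟩ := hvis (Ψ.symm ⁻¹' N) (hN.preimage Ψ.symm.continuous)
      (hne.preimage Ψ.symm.surjective)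
    refine ⟨θ, hθ, hf.mono ?_⟩
    rintro n ⟨c, hc⟩
    refine ⟨Ψ.symm c, ?_⟩
    have hsemi : Semiconj Ψ.symm (fl (rho P) r 1) (Φ 1) := hsymm
    have h2 : {i | i < n ∧ (Φ 1)^[i] (Ψ.symm c) ∈ N} =
        {i | i < n ∧ (fl (rho P) r 1)^[i] c ∈ Ψ.symm ⁻¹' N} := by
      ext i
      simp only [mem_setOf_eq, mem_preimage]
      rw [(hsemi.iterate_right i).eq c]
    rw [h2]
    exact hc

end CI48
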