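import Pool.Agent.LibCI48.C00
import Pool.Agent.LibCI48.C02

/-! TASK C08 (MEDIUM, ~130 lines).  The motion on the leaf of `0`, in lifts.  Write
`l x = (x, YY x 0)`; by `NN_phi` and `YY_eq`, `phi t (l x) = l (fxL t x)` (`leaf_phi`).  So `fxL` is a
one-dimensional flow: `fxL (s + t) x = fxL s (fxL t x)`, `fxL 0 x = x`, jointly continuous
(`phi_isFl`, `YY_cont`), with derivative `VV (l (fxL t x)) ∈ [0, 1]` in `t`.

* `fx_fixed`: if `VV (l x) = 0` then `fxL t x = x` for all `t` (`phi_stop'`, C00, stated).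
* `fx_mono`: nondecreasing in `t`; `fx_le`: if `x ≤ x'` and `VV (l x') = 0` then `fxL t x ≤ x'` for all
  `t` (intermediate value theorem: if `fxL s x = x'` for some `s` then `x = fxL (-s) x' = x'`); the same
  from below.
* `fx_maps`: `[Ak, Bk]` is invariant (both ends are stops, `VV_zero_iff`).
* `fx_lim`: for `x ∈ (Ak + 1/8, Bk - 1/8)`, `fxL t x` is nondecreasing and bounded by `Bk - 1/8`
  (a stop), so it converges to some `L ∈ [x, Bk - 1/8]` and `VV (l L) = 0` (otherwise the derivative is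
  bounded below near `L`; or: `fxL s L = lim fxL (s + t) x = L` for all `s`, so the derivative at
  `s = 0` vanishes).  By `VV_zero_iff`, `|L - J i| ≤ 1/8` for some `i`; as
  `J (2k+1) + 1/8 < L ≤ J (2k+2) - 1/8` and `J` is strictly increasing, `i = 2k + 2` and
  `L = Bk - 1/8`.
-/

set_option autoImplicit false

namespace CI48

open CPE48 Set Function Filter Topology

theorem leaf_phi (P : CI.Par) (t x : ℝ) :
    CI.phi P t (x, YY P x 0) = (fxL P t x, YY P (fxL P t x) 0) := by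
  refine Prod.ext rfl ?_
  refine YY_eq P _ _ 0 ?_
  change CI.NN P (CI.phi P t (x, YY P x 0)) = 0
  rw [CI.NN_phi, YY_spec]

theorem fx_zero (P : CI.Par) (x : ℝ) : fxL P 0 x = x := by
  rw [fxL, (CI.phi_isFl P).zero]

theorem fx_add (P : CI.Par) (s t x : ℝ) : fxL P (s + t) x = fxL P s (fxL P t x) := by
  rw [fxL, (CI.phi_isFl P).add, leaf_phi]
  rfl

private theorem c08_deriv (P : CI.Par) (t x : ℝ) :
    HasDerivAt (fun t => fxL P t x) (CI.VV P (fxL P t x, YY P (fxL P t x) 0)) t := by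
  have h := ((CI.phi_isFl P).deriv t (x, YY P x 0)).fst
  rw [leaf_phi] at h
  exact h

private theorem c08_mono (P : CI.Par) (x : ℝ) : Monotone fun t => fxL P t x := by
  refine monotone_of_deriv_nonneg (fun t => (c08_deriv P t x).differentiableAt) fun t => ?_
  rw [(c08_deriv P t x).deriv]
  exact CI.VV_nonneg P _

private theorem c08_cont (P : CI.Par) (x : ℝ) : Continuous fun t => fxL P t x :=
  continuous_iff_continuousAt.2 fun t => (c08_deriv P t x).continuousAt

private theorem c08_cont' (P : CI.Par) (t : ℝ) : Continuous fun x => fxL P t x := by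
  have h1 : Continuous fun q : ℝ × (ℝ × ℝ) => CI.phi P q.1 q.2 := (CI.phi_isFl P).smooth.continuous
  have h2 : Continuous fun x : ℝ => YY P x 0 :=
    (YY_cont P).comp (continuous_id.prodMk continuous_const)
  have h3 : Continuous fun x : ℝ => CI.phi P t (x, YY P x 0) :=
    h1.comp (continuous_const.prodMk (continuous_id.prodMk h2))
  exact continuous_fst.comp h3

private theorem c08_fixed (P : CI.Par) (t x : ℝ) (h : CI.VV P (x, YY P x 0) = 0) :
    fxL P t x = x := by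
  rw [fxL, phi_stop' P t _ h]

private theorem c08_eq (P : CI.Par) (s x x' : ℝ) (h : CI.VV P (x', YY P x' 0) = 0)
    (hs : fxL P s x = x') : x = x' := by
  have h1 : fxL P (-s) (fxL P s x) = x := by
    rw [← fx_add, neg_add_cancel, fx_zero]
  rw [hs, c08_fixed P _ _ h] at h1
  exact h1.symm

private theorem c08_le (P : CI.Par) (t x x' : ℝ) (hx : x ≤ x')
    (h : CI.VV P (x', YY P x' 0) = 0) : fxL P t x ≤ x' := by
  by_contra hlt
  have hlt := not_le.1 hlt
  obtain ⟨s, hs⟩ := mem_range_of_exists_le_of_exists_ge (c08_cont P x) (c := x')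
    ⟨0, by simp only [fx_zero]; exact hx⟩ ⟨t, hlt.le⟩
  have h1 := c08_eq P s x x' h hs
  rw [h1, c08_fixed P _ _ h] at hlt
  exact lt_irrefl _ hlt

private theorem c08_ge (P : CI.Par) (t x x' : ℝ) (hx : x' ≤ x)
    (h : CI.VV P (x', YY P x' 0) = 0) : x' ≤ fxL P t x := by
  by_contra hlt
  have hlt := not_le.1 hlt
  obtain ⟨s, hs⟩ := mem_range_of_exists_le_of_exists_ge (c08_cont P x) (c := x')
    ⟨t, hlt.le⟩ ⟨0, by simp only [fx_zero]; exact hx⟩
  have h1 := c08_eq P s x x' h hs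
  rw [h1, c08_fixed P _ _ h] at hlt
  exact lt_irrefl _ hlt

private theorem c08_stop (P : CI.Par) (x : ℝ) :
    CI.VV P (x, YY P x 0) = 0 ↔ ∃ i : ℕ, |x - P.J i| ≤ 1 / 8 :=
  CI.VV_zero_iff P (x, YY P x 0) (YY_spec P x 0)

theorem fx_maps (P : CI.Par) (k : ℕ) (t x : ℝ) (hx : x ∈ Icc (CI.Ak P k) (CI.Bk P k)) :
    fxL P t x ∈ Icc (CI.Ak P k) (CI.Bk P k) := by
  refine ⟨c08_ge P t x _ hx.1 ((c08_stop P _).2 ⟨2 * k + 1, ?_⟩),
    c08_le P t x _ hx.2 ((c08_stop P _).2 ⟨2 * k + 2, ?_⟩)⟩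
  · rw [CI.Ak, sub_self, abs_zero]
    norm_num
  · rw [CI.Bk, sub_self, abs_zero]
    norm_num

private theorem c08_J (P : CI.Par) : StrictMono P.J := by
  refine strictMono_nat_of_lt_succ fun i => ?_
  have := P.J_step i
  omega

theorem fx_lim (P : CI.Par) (k : ℕ) (x : ℝ)
    (hx : x ∈ Ioo (CI.Ak P k + 1 / 8) (CI.Bk P k - 1 / 8)) :
    Tendsto (fun t => fxL P t x) atTop (𝓝 (CI.Bk P k - 1 / 8)) := by
  have hstop : CI.VV P (CI.Bk P k - 1 / 8, YY P (CI.Bk P k - 1 / 8) 0) = 0 := by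
    refine (c08_stop P _).2 ⟨2 * k + 2, ?_⟩
    rw [CI.Bk, sub_sub_cancel_left, abs_neg, abs_of_nonneg (by norm_num)]
  have hle : ∀ t, fxL P t x ≤ CI.Bk P k - 1 / 8 := fun t => c08_le P t x _ hx.2.le hstop
  have hbdd : BddAbove (range fun t => fxL P t x) := ⟨_, by
    rintro _ ⟨t, rfl⟩
    exact hle t⟩
  have hlim := tendsto_atTop_ciSup (c08_mono P x) hbdd
  obtain ⟨L, hL⟩ : ∃ L, L = ⨆ t, fxL P t x := ⟨_, rfl⟩
  rw [← hL] at hlim
  have hL1 : x ≤ L := by
    rw [hL]
    have := le_ciSup hbdd 0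
    simpa only [fx_zero] using this
  have hL2 : L ≤ CI.Bk P k - 1 / 8 := le_of_tendsto' hlim hle
  have hfix : ∀ s, fxL P s L = L := by
    intro s
    have h1 : Tendsto (fun t => fxL P s (fxL P t x)) atTop (𝓝 (fxL P s L)) :=
      ((c08_cont' P s).tendsto L).comp hlim
    have h2 : Tendsto (fun t => fxL P s (fxL P t x)) atTop (𝓝 L) := by
      have h3 : (fun t => fxL P s (fxL P t x)) = fun t => fxL P (s + t) x := by
        funext t
        rw [fx_add]
      rw [h3]
      exact hlim.comp (tendsto_atTop_add_const_left _ s tendsto_id)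
    exact tendsto_nhds_unique h1 h2
  have hVV : CI.VV P (L, YY P L 0) = 0 := by
    have h1 := c08_deriv P 0 L
    rw [fx_zero] at h1
    have h2 : (fun t => fxL P t L) = fun _ => L := by
      funext t
      exact hfix t
    rw [h2] at h1
    exact h1.unique (hasDerivAt_const 0 L)
  obtain ⟨i, hi⟩ := (c08_stop P L).1 hVV
  have hi := abs_le.1 hi
  have h3 : CI.Ak P k < P.J i := by
    have := hx.1
    linarith [hi.2]
  have h4 : 2 * k + 1 < i := by
    rw [CI.Ak] at h3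
    exact (c08_J P).lt_iff_lt.1 (by exact_mod_cast h3)
  have h5 : CI.Bk P k ≤ P.J i := by
    rw [CI.Bk]
    exact_mod_cast (c08_J P).monotone (by omega : 2 * k + 2 ≤ i)
  have h6 : L = CI.Bk P k - 1 / 8 := le_antisymm hL2 (by linarith [hi.1])
  rw [← h6]
  exact hlim

theorem ends_lt (P : CI.Par) (k : ℕ) : CI.Ak P k + 1 / 8 < CI.Bk P k - 1 / 8 ∧
    CI.Bk P k < CI.Ak P (k + 1) ∧ CI.Ak P k + k + 1 ≤ CI.Bk P k := by
  have h1 := P.J_step (2 * k + 1)
  have h2 : P.J (2 * k + 2) < P.J (2 * (k + 1) + 1) := c08_J P (by omega)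
  have h3 : ((P.J (2 * k + 1) : ℕ) : ℝ) + (2 * k + 1) + 1 ≤ (P.J (2 * k + 2) : ℕ) := by
    exact_mod_cast h1
  have h4 : ((P.J (2 * k + 2) : ℕ) : ℝ) < (P.J (2 * (k + 1) + 1) : ℕ) := by exact_mod_cast h2
  have h5 : (0 : ℝ) ≤ k := Nat.cast_nonneg k
  rw [CI.Ak, CI.Bk, CI.Ak]
  refine ⟨by linarith, h4, by linarith⟩

end CI48
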