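import Pool.Agent.LibCI48.C05
import Pool.Agent.LibCI48.C08

/-! TASK C09 (MEDIUM, ~120 lines).  The cylinders.  Use the imported statements.

* `cyl_P`: `cont` (`YY_cont`, continuity of `pr3`); `per`; `inj`: from `pr3_eq_iff`: `x' = x + i`,
  `YY x' 0 = YY x 0 + j`, and `NN (x', YY x 0 + j) = NN (x, YY x 0) + j - al i = j - al i` must be `0`, so
  `i = j = 0` (`par_irr`), then the phases differ by an integer; `flow`: `hΦ.2`, `leaf_phi`,
  `CI.Phi` by definition: third coordinate `η + be x + t + be (x_t - x)`; `le1`, `lt`, `le2`, `gap` from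
  `ends_lt`; `maps`, `lim`; `dense` = `cyl_dense`.
* `cyl_dense`: let `Ψ` be the homeomorphism of `exists_straight`; `Ψ.symm` is uniformly continuous: `δ'`
  for `δ`.  `M` from `P.dense δ'`; `k ≥ M + 1` (so `Bk - 1/8 - (Ak + 1/8) ≥ M` by `ends_lt`).  For
  `c : X3`, let `Ψ c = pr3 ((x₀, y₀), θ₀)`; `P.dense` with the target `(x₀ - A', y₀ - al A', 0)`,
  `A' = Ak + 1/8` gives `u ∈ [0, M]`; `x = A' + u`, and `η = θ₀ - be x`:
  `Ψ (EL x η) = pr3 ((x, al x), θ₀)` [as `YY x 0 - KK (x, YY x 0) = NN + al x = al x`] is `δ'`-close to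
  `Ψ c`.
-/

set_option autoImplicit false

namespace CI48

open CPE48 Set Function Filter Topology

/-- the distance on the circle -/
private theorem C09_dist (a b : ℝ) (i : ℤ) :
    dist (a : UnitAddCircle) (b : UnitAddCircle) ≤ |a - b - i| := by
  rw [dist_eq_norm, ← AddCircle.coe_sub, UnitAddCircle.norm_eq]
  exact round_le (a - b) i

private theorem C09_lt {δ : ℝ} {a b a' b' θ : ℝ} (h : ∃ i : ℤ, |a - a' - i| < δ)
    (h' : ∃ j : ℤ, |b - b' - j| < δ) : dist (pr3 ((a', b'), θ)) (pr3 ((a, b), θ)) < δ := by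
  obtain ⟨i, hi⟩ := h
  obtain ⟨j, hj⟩ := h'
  have h1 : dist (a' : UnitAddCircle) (a : UnitAddCircle) < δ := by
    rw [dist_comm]
    exact (C09_dist a a' i).trans_lt hi
  have h2 : dist (b' : UnitAddCircle) (b : UnitAddCircle) < δ := by
    rw [dist_comm]
    exact (C09_dist b b' j).trans_lt hj
  have h3 : (0 : ℝ) < δ := (dist_nonneg).trans_lt h1
  unfold pr3
  rw [Prod.dist_eq, Prod.dist_eq]
  refine max_lt (max_lt h1 h2) ?_
  rw [dist_self]
  exact h3

theorem cyl_dense (P : CI.Par) (δ : ℝ) (hδ : 0 < δ) :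
    ∃ k, ∀ c : X3, ∃ x ∈ Icc (CI.Ak P k + 1 / 8) (CI.Bk P k - 1 / 8), ∃ η,
      dist c (EL P x η) < δ := by
  obtain ⟨Ψ, hΨ, -⟩ := exists_straight P
  obtain ⟨δ', hδ', hu⟩ := Metric.uniformContinuous_iff.1
    (CompactSpace.uniformContinuous_of_continuous Ψ.symm.continuous) δ hδ
  obtain ⟨M, hM, hd⟩ := P.dense δ' hδ'
  refine ⟨⌈M⌉₊, fun c => ?_⟩
  have hk : M ≤ (⌈M⌉₊ : ℝ) := Nat.le_ceil M
  have he := (ends_lt P ⌈M⌉₊).2.2
  obtain ⟨⟨⟨x₀, y₀⟩, θ₀⟩, hc⟩ := pr3_open.surjective (Ψ c)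
  obtain ⟨u, hu0, i, j, k, h1, h2, -⟩ := hd (x₀ - (CI.Ak P ⌈M⌉₊ + 1 / 8))
    (y₀ - P.al * (CI.Ak P ⌈M⌉₊ + 1 / 8)) 0
  refine ⟨CI.Ak P ⌈M⌉₊ + 1 / 8 + u, ⟨by linarith [hu0.1], by linarith [hu0.2]⟩,
    θ₀ - P.be * (CI.Ak P ⌈M⌉₊ + 1 / 8 + u), ?_⟩
  generalize CI.Ak P ⌈M⌉₊ + 1 / 8 = a at h1 h2 ⊢
  have h3 : Ψ (EL P (a + u) (θ₀ - P.be * (a + u))) = pr3 ((a + u, P.al * (a + u)), θ₀) := by
    unfold EL
    rw [hΨ]
    have h4 := YY_spec P (a + u) 0
    unfold CI.NN at h4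
    have h5 : YY P (a + u) 0 - CI.KK P (a + u, YY P (a + u) 0) = P.al * (a + u) := by
      simp only at h4
      linarith
    have h6 : θ₀ - P.be * (a + u) + P.be * (a + u) = θ₀ := by ring
    simp only [h5, h6]
  have h4 : dist (Ψ c) (Ψ (EL P (a + u) (θ₀ - P.be * (a + u)))) < δ' := by
    rw [h3, ← hc]
    refine C09_lt ⟨i, ?_⟩ ⟨j, ?_⟩
    · have e : a + u - x₀ - i = u - (x₀ - a) - i := by ring
      rw [e]
      exact h1
    · have e : P.al * (a + u) - y₀ - j = P.al * u - (y₀ - P.al * a) - j := by ring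
      rw [e]
      exact h2
  have h5 := hu h4
  rw [Homeomorph.symm_apply_apply, Homeomorph.symm_apply_apply] at h5
  exact h5

theorem cyl_P (P : CI.Par) (Φ : ℝ → X3 → X3) (hΦ : IsPhi P Φ) :
    Cyl Φ (EL P) (fxL P) (CI.Ak P) (fun k => CI.Ak P k + 1 / 8) (fun k => CI.Bk P k - 1 / 8)
      (CI.Bk P) where
  cont := by
    have h1 : Continuous fun q : ℝ × ℝ => YY P q.1 0 :=
      (YY_cont P).comp (continuous_fst.prodMk continuous_const)
    have h2 : Continuous fun q : ℝ × ℝ => (((q.1, YY P q.1 0), q.2 + P.be * q.1) : CI.E3) :=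
      (continuous_fst.prodMk h1).prodMk
        (continuous_snd.add (continuous_const.mul continuous_fst))
    exact pr3_open.continuous.comp h2
  per := by
    intro x η
    refine (pr3_eq_iff _ _).2 ⟨0, 0, -1, ?_⟩
    unfold z3
    refine Prod.ext (Prod.ext ?_ ?_) ?_
    · simp
    · simp
    · simp only [Prod.snd_add]
      push_cast
      ring
  inj := by
    intro x x' η η' h
    obtain ⟨i, j, k, hijk⟩ := (pr3_eq_iff _ _).1 h
    have h1 : x' = x + i := congrArg (fun c : CI.E3 => c.1.1) hijk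
    have h2 : YY P x' 0 = YY P x 0 + j := congrArg (fun c : CI.E3 => c.1.2) hijk
    have h3 : η' + P.be * x' = η + P.be * x + k := congrArg (fun c : CI.E3 => c.2) hijk
    have h4 := CI.NN_shift P (x, YY P x 0) i j
    simp only at h4
    rw [← h1, ← h2, YY_spec, YY_spec] at h4
    have h5 : (j : ℝ) = P.al * i := by linarith
    obtain ⟨hi, hj⟩ := par_irr P i j h5
    rw [hi, Int.cast_zero, add_zero] at h1
    refine ⟨h1.symm, k, ?_⟩
    rw [h1] at h3
    linarith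
  flow := by
    intro t x η
    unfold EL
    rw [hΦ.2]
    unfold CI.Phi
    have h1 := leaf_phi P t x
    simp only
    rw [h1]
    have h2 : η + P.be * x + t + P.be * (fxL P t x - x) = η + t + P.be * fxL P t x := by ring
    simp only [h2]
  le1 := fun k => by linarith
  lt := fun k => (ends_lt P k).1
  le2 := fun k => by linarith
  gap := fun k => (ends_lt P k).2.1
  maps := fun k t x hx => fx_maps P k t x hx
  lim := fun k x hx => fx_lim P k x hx
  dense := fun δ hδ => cyl_dense P δ hδ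

end CI48
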