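import Pool.Agent.LibCI48.C01

/-! TASK C10 (MEDIUM, ~120 lines).  The total displacements, in lifts.

* `pe_cont`: `disj_sum_continuous` (LibCPE48/A10) for
  `f l (e, z) = if e l = true then per (qf P l (ε l)) z else 0`; `b l = 2 * CI.dL l → 0`
  (`hd : Tendsto CI.dL atTop (𝓝 0)` is a hypothesis).  Continuity of `f l`: `e ↦ e l` is continuous to
  the discrete space `Bool` (`continuous_apply`), so the `if` is continuous (`continuous_bool_rng`..,
  or write it as `(if e l then 1 else 0) * ..`).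
* `pe_bound`: at most one term is nonzero.
* `De_cont`: `continuous_tsum` with the summable bound `(1/2)^l`.
* `pe_shift`, `De_shift`: `CI.per_shift`.
* `pe_cases`: for fixed `e`, `y`.
* `pe_at`: if `per (qf l') (c, (0, jL l)) ≠ 0` for some `l' ≠ l` and `c`, then by `disj` all
  `per (qf l) (c'', (0, jL l))` vanish, and `col` for the arc of the two points `c₁ = ((x, YY x 0), ..)` of
  phases `aL l`, `aL l + dL l` gives `c₁ = Phi (dL l) c₁`, impossible as `eta` increases by `dL l > 0`.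
  [Take `x = Ak P (kk l)`, `c₁ = ((x, y), aL l + be x)` with `NN (x, y) = 0` (`CI.NN_surj`),
  `CI.eta_Phi`.]
-/

set_option autoImplicit false

namespace CI48

open CPE48 Set Function Filter Topology

variable {P : CI.Par} {ε : ℕ → ℝ}

theorem pe_of_ne (h : QD P ε) (e : ℕ → Bool) {c c' : CI.E3} {y : ℝ × ℝ} {l : ℕ}
    (hne : CI.per (CI.qf P l (ε l)) (c', y) ≠ 0) : CI.pe P ε e (c, y) =
      if e l = true then CI.per (CI.qf P l (ε l)) (c, y) else 0 := by
  unfold CI.pe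
  refine tsum_eq_single l fun l' hl' => ?_
  split_ifs with he
  · by_contra hz
    exact hl' (h.disj l' l c c' y hz hne)
  · rfl

theorem pe_of_zero {e : ℕ → Bool} {z : CI.E5}
    (hz : ∀ l, e l = true → CI.per (CI.qf P l (ε l)) z = 0) : CI.pe P ε e z = 0 := by
  unfold CI.pe
  have h1 : (fun l => if e l = true then CI.per (CI.qf P l (ε l)) z else 0) = fun _ => 0 := by
    funext l
    split_ifs with he
    · exact hz l he
    · rfl
  rw [h1, tsum_zero]

theorem cont_if (l : ℕ) {f : CI.E5 → ℝ} (hf : Continuous f) :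
    Continuous (fun q : (ℕ → Bool) × CI.E5 => if q.1 l = true then f q.2 else 0) := by
  have e : (fun q : (ℕ → Bool) × CI.E5 => if q.1 l = true then f q.2 else 0) =
      fun q => (fun b : Bool => if b = true then (1:ℝ) else 0) (q.1 l) * f q.2 := by
    funext q
    by_cases hq : q.1 l = true <;> simp [hq]
  rw [e]
  have h1 : Continuous (fun b : Bool => if b = true then (1:ℝ) else 0) := continuous_of_discreteTopology
  have h2 : Continuous (fun q : (ℕ → Bool) × CI.E5 => q.1 l) :=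
    (continuous_apply l).comp continuous_fst
  exact (h1.comp h2).mul (hf.comp continuous_snd)

theorem pe_cont (h : QD P ε) (hd : Tendsto CI.dL atTop (𝓝 0)) :
    Continuous (fun q : (ℕ → Bool) × CI.E5 => CI.pe P ε q.1 q.2) := by
  have hb : Tendsto (fun l => 2 * CI.dL l) atTop (𝓝 0) := by
    have := hd.const_mul 2
    rwa [mul_zero] at this
  refine disj_sum_continuous (fun (l : ℕ) (q : (ℕ → Bool) × CI.E5) => if q.1 l = true then CI.per (CI.qf P l (ε l)) q.2 else 0)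
    (fun l => cont_if l (h.cont l)) ?_ (fun l => 2 * CI.dL l) hb ?_
  · intro t k l h1 h2
    have h3 : CI.per (CI.qf P k (ε k)) (t.2.1, t.2.2) ≠ 0 := by
      intro h0
      apply h1
      show (if t.1 k = true then CI.per (CI.qf P k (ε k)) (t.2.1, t.2.2) else 0) = 0
      rw [h0, ite_self]
    have h4 : CI.per (CI.qf P l (ε l)) (t.2.1, t.2.2) ≠ 0 := by
      intro h0
      apply h2
      show (if t.1 l = true then CI.per (CI.qf P l (ε l)) (t.2.1, t.2.2) else 0) = 0
      rw [h0, ite_self]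
    exact h.disj k l _ _ _ h3 h4
  · intro l t
    show |if t.1 l = true then CI.per (CI.qf P l (ε l)) t.2 else 0| ≤ _
    split_ifs with he
    · exact h.bound l t.2
    · rw [abs_zero]
      exact (abs_nonneg _).trans (h.bound l t.2)

theorem pe_bound (h : QD P ε) (hd : ∀ l, CI.dL l ≤ 1 / 8) (e : ℕ → Bool) (z : CI.E5) :
    |CI.pe P ε e z| ≤ 1 := by
  by_cases hex : ∃ l, e l = true ∧ CI.per (CI.qf P l (ε l)) z ≠ 0
  · obtain ⟨l, he, hl⟩ := hex
    have h1 : CI.pe P ε e (z.1, z.2) = _ := pe_of_ne h e (c := z.1) (c' := z.1) (y := z.2) hl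
    rw [if_pos he] at h1
    have h2 : CI.pe P ε e z = CI.per (CI.qf P l (ε l)) z := h1
    rw [h2]
    have h3 := h.bound l z
    have h4 := hd l
    linarith
  · push Not at hex
    rw [pe_of_zero hex, abs_zero]
    exact zero_le_one

theorem De_cont (hc : ∀ l, Continuous (CI.per (CI.dlt P l (ε l))))
    (hb : ∀ l z, |CI.per (CI.dlt P l (ε l)) z| ≤ (1 / 2) ^ l) :
    Continuous (fun q : (ℕ → Bool) × CI.E5 => CI.De P ε q.1 q.2) := by
  unfold CI.De
  refine continuous_tsum (u := fun l : ℕ => (1 / 2 : ℝ) ^ l) (fun l => cont_if l (hc l))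
    summable_geometric_two ?_
  intro l q
  rw [Real.norm_eq_abs]
  split_ifs with he
  · exact hb l q.2
  · rw [abs_zero]
    positivity

theorem pe_shift (e : ℕ → Bool) (z : CI.E5) (v : CI.Z5) :
    CI.pe P ε e (z + CI.sh v) = CI.pe P ε e z := by
  unfold CI.pe
  refine tsum_congr fun l => ?_
  rw [CI.per_shift]

theorem De_shift (e : ℕ → Bool) (z : CI.E5) (v : CI.Z5) :
    CI.De P ε e (z + CI.sh v) = CI.De P ε e z := by
  unfold CI.De
  refine tsum_congr fun l => ?_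
  rw [CI.per_shift]

theorem pe_cases (h : QD P ε) (e : ℕ → Bool) (y : ℝ × ℝ) :
    (∀ c, CI.pe P ε e (c, y) = 0) ∨
    ∃ l, e l = true ∧ ∀ c, CI.pe P ε e (c, y) = CI.per (CI.qf P l (ε l)) (c, y) := by
  by_cases hex : ∃ l, e l = true ∧ ∃ c : CI.E3, CI.per (CI.qf P l (ε l)) (c, y) ≠ 0
  · obtain ⟨l, he, c', hl⟩ := hex
    refine Or.inr ⟨l, he, fun c => ?_⟩
    rw [pe_of_ne h e hl, if_pos he]
  · push Not at hex
    exact Or.inl fun c => pe_of_zero fun l he => hex l he c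

theorem pe_at (h : QD P ε) (hpos : ∀ l, 0 < CI.dL l) (e : ℕ → Bool) (l : ℕ) (hl : e l = true)
    (c : CI.E3) : CI.pe P ε e (c, (0, CI.jL l)) =
      CI.per (CI.qf P l (ε l)) (c, (0, CI.jL l)) := by
  by_cases hex : ∃ c' : CI.E3, CI.per (CI.qf P l (ε l)) (c', (0, CI.jL l)) ≠ 0
  · obtain ⟨c', hc'⟩ := hex
    rw [pe_of_ne h e hc', if_pos hl]
  · push Not at hex
    exfalso
    obtain ⟨y₀, hy₀⟩ := CI.NN_surj P (CI.Ak P (CI.kk l)) 0
    obtain ⟨c₁, hc₁⟩ : ∃ c₁ : CI.E3, c₁ = ((CI.Ak P (CI.kk l), y₀),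
      CI.aL l + P.be * CI.Ak P (CI.kk l)) := ⟨_, rfl⟩
    have he1 : CI.eta P c₁ = CI.aL l := by
      rw [hc₁]
      unfold CI.eta
      show CI.aL l + P.be * CI.Ak P (CI.kk l) - P.be * CI.Ak P (CI.kk l) = CI.aL l
      ring
    have hJ : CI.Ak P (CI.kk l) ≤ CI.Bk P (CI.kk l) := by
      unfold CI.Ak CI.Bk
      have := P.J_step (2 * CI.kk l + 1)
      have h2 : P.J (2 * CI.kk l + 1) ≤ P.J (2 * CI.kk l + 2) := by
        have h3 : P.J (2 * CI.kk l + 1 + 1) = P.J (2 * CI.kk l + 2) := rfl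
        omega
      exact_mod_cast h2
    have harc : CI.ArcL P l c₁ (CI.Phi P (CI.dL l) c₁) := by
      refine ⟨?_, ?_, ?_, CI.dL l, rfl, ?_⟩
      · rw [hc₁]; exact hy₀
      · rw [hc₁]; exact ⟨le_rfl, hJ⟩
      · rw [he1]; exact ⟨le_rfl, by linarith [hpos l]⟩
      · rw [he1]; exact ⟨by linarith [hpos l], le_rfl⟩
    have h1 := h.col l _ _ harc
    rw [hex, hex] at h1
    have h2 := congrArg (CI.eta P) h1
    rw [CI.eta_Phi, CI.eta_Phi, CI.eta_Phi] at h2
    have := hpos l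
    linarith

theorem DD_shift (y : ℝ × ℝ) (i j : ℤ) : CI.DD (y.1 + i, y.2 + j) =
    ((CI.DD y).1 + (i + j : ℤ), (CI.DD y).2 + (i + 2 * j : ℤ)) := by
  unfold CI.DD
  show (y.1 + i + CI.ff (y.2 + j), y.2 + j + CI.hh (y.1 + i + CI.ff (y.2 + j))) =
    (y.1 + CI.ff y.2 + (i + j : ℤ), y.2 + CI.hh (y.1 + CI.ff y.2) + (i + 2 * j : ℤ))
  have h1 : y.1 + i + CI.ff (y.2 + j) = y.1 + CI.ff y.2 + ((i + j : ℤ) : ℝ) := by
    rw [CI.ff_add]
    push_cast
    ring
  rw [h1, CI.hh_add]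
  refine Prod.ext rfl ?_
  show y.2 + j + (CI.hh (y.1 + CI.ff y.2) + ((i + j : ℤ) : ℝ)) =
    y.2 + CI.hh (y.1 + CI.ff y.2) + ((i + 2 * j : ℤ) : ℝ)
  push_cast
  ring

end CI48
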