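import Pool.Agent.LibCI48.TDefs
import Pool.Agent.LibCI87.Defs

/-! TASK T08 (MEDIUM, ~140 lines).  The dyadic arcs and their switches.  `CI.kk`, `CI.lv`, `CI.nm`,
`CI.aL`, `CI.dL` (file LibCI87/Defs) are the same as `gj`, `gN`, `gm`, `aq - gj`, `bq - aq` of
LibCPE48/QHD (definitionally: `CI.ixx l = ixx l` by `rfl`); see the files LibCPE48/QH1 (`coverq`), QH2 (`collX_of_cantor`, part `const`), H04
(`h04_g`, `h04_g_close`), QI1 (`qi1_meas`, `swq_measurable`), H02 (`h02_unit`).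

* `aL_nonneg`, ..: elementary; `dL_tendsto`: as `bq_sub_tendsto` (`CI.dL k = bq k - aq k`).
* `cov_swI`: fix `k`; exceptional set = dyadic rationals (real numbers `m / 2^N`, `m : ℤ`).  Let `x` be
  another number, `y = Int.fract x ∈ (0, 1)`, `2^k y = i + y'`, `i = ⌊2^k y⌋₊`, `y' ∈ (0, 1)` not dyadic;
  `h02_unit` gives `s` with `hf s ∉ T`, `LL s ≤ y' ≤ LL s + WW s`, strict inequalities since `y'` is not
  dyadic; choose `N ≥ k + 3` with `2^k / 2^N` less than the two gaps, `m = ⌊2^N y⌋₊ < 2^N`, `l` with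
  `ixx l = (k, N - k - 3, m)`; `n = -⌊x⌋`.
* `coll_swI`: `H k x = h04_g F (2^k * x)` with `F` from `exists_cantor β`; `M k = 2^k`,
  `δ k = 2 * (1/2)^k`.  `per`: `h04_g F (x + j) = h04_g F x + j` (`qh2_add_nat`).  `fib`:
  `h04_g_close` twice.  `const`: if `l` is on with `s`, `i` then for `x ∈ [aL l, aL l + dL l]`,
  `2^k x ∈ [i + LL s, i + LL s + WW s]` and `h04_g F z = i + F (z - i)` there (`h04_g_on`), and
  `F` is constant on `[LL s, LL s + WW s]` since `hf s ∉ T`, so `hf s ≠ (List.range s.length).map β`.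
* `swI_meas`: as `swq_measurable`.
-/

set_option autoImplicit false

namespace CI48

open CPE48 Set Function Filter Topology MeasureTheory

open Classical in
/-- the switches -/
noncomputable def swI (T : Set (List ℕ)) (l : ℕ) : Bool :=
  decide (CI.nm l < 2 ^ CI.lv l ∧ ∃ s : List ℕ, hf s ∉ T ∧ ∃ i : ℕ,
    (i : ℝ) + LL s ≤ 2 ^ CI.kk l * CI.aL l ∧
      2 ^ CI.kk l * (CI.aL l + CI.dL l) ≤ i + LL s + WW s)

theorem aL_nonneg (l : ℕ) : 0 ≤ CI.aL l := by
  unfold CI.aL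
  split_ifs <;> positivity

theorem aL_add_le (l : ℕ) : CI.aL l + CI.dL l ≤ 1 := by
  unfold CI.aL CI.dL
  split_ifs with h
  · have h2 : (CI.nm l : ℝ) + 1 ≤ 2 ^ CI.lv l := by exact_mod_cast h
    have hp : (0 : ℝ) < 2 ^ CI.lv l := by positivity
    rw [← add_div, div_le_one hp]
    exact h2
  · rw [zero_add]
    have h1 := qh1_pow_le (Nat.zero_le (CI.lv l + CI.nm l))
    simpa using h1

theorem T08_dL (l : ℕ) : CI.dL l = bq l - aq l := by
  unfold bq
  rw [add_sub_cancel_left]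
  rfl

theorem dL_pos (l : ℕ) : 0 < CI.dL l := by
  rw [T08_dL]
  exact sub_pos.2 (aq_lt_bq l)

theorem dL_le (l : ℕ) : CI.dL l ≤ 1 / 8 := by
  rw [T08_dL]
  exact bq_sub_le l

theorem dL_tendsto : Tendsto CI.dL atTop (𝓝 0) := by
  have h : CI.dL = fun k => bq k - aq k := funext T08_dL
  rw [h]
  exact bq_sub_tendsto

/-- the covering of the points which are not dyadic -/
theorem T08_cov (T : Set (List ℕ)) (hT : ¬ ∃ β : ℕ → ℕ, ∀ m, (List.range m).map β ∈ T) (k : ℕ)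
    (y : ℝ) (hy0 : 0 ≤ y) (hy1 : y < 1) (hyD : ¬ qh1_D y) :
    ∃ l, swI T l = true ∧ CI.kk l = k ∧ y ∈ Icc (CI.aL l) (CI.aL l + CI.dL l) := by
  have hl : ∃ (i : ℕ) (s : List ℕ), hf s ∉ T ∧ (i : ℝ) + LL s < 2 ^ k * y ∧
      2 ^ k * y < i + LL s + WW s := by
    have h2y : (0 : ℝ) ≤ 2 ^ k * y := by positivity
    set i := ⌊(2 : ℝ) ^ k * y⌋₊ with hi
    have hi1 : (i : ℝ) ≤ 2 ^ k * y := Nat.floor_le h2y
    have hi2 : (2 : ℝ) ^ k * y < i + 1 := Nat.lt_floor_add_one _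
    -- not dyadic
    have hnd : ∀ z : ℝ, qh1_D z → 2 ^ k * y ≠ i + z := by
      intro z hz he
      refine hyD ?_
      have h1 : y = ((i : ℝ) + z) / 2 ^ k := by
        rw [← he]
        have : (2 : ℝ) ^ k * y / 2 ^ k = y := by field_simp
        rw [this]
      rw [h1]
      exact qh1_D_div (qh1_D_add (qh1_D_nat i) hz) k
    have hpos : 0 < 2 ^ k * y - i := by
      have h0 : (2 : ℝ) ^ k * y ≠ i + (0 : ℕ) := hnd _ (qh1_D_nat 0)
      rcases hi1.lt_or_eq with h | h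
      · linarith
      · exact absurd (by rw [← h]; simp) h0
    obtain ⟨s, hs, hs1, hs2⟩ := h02_unit T hT (2 ^ k * y - i) hpos (by linarith)
    refine ⟨i, s, hs, ?_, ?_⟩
    · have := hnd _ (qh1_D_LL s)
      exact lt_of_le_of_ne (by linarith) (fun h => this h.symm)
    · have := hnd _ (qh1_D_add (qh1_D_LL s) (qh1_D_WW s))
      refine lt_of_le_of_ne (by linarith) (fun h => this ?_)
      rw [h]
      ring
  obtain ⟨i, s, hs, hs1, hs2⟩ := hl
  -- choice of N
  have htend : Tendsto (fun N : ℕ => (2 : ℝ) ^ k / 2 ^ N) atTop (𝓝 0) := by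
    have h := (tendsto_pow_atTop_nhds_zero_of_lt_one (by norm_num : (0 : ℝ) ≤ 1 / 2)
      (by norm_num)).const_mul ((2 : ℝ) ^ k)
    rw [mul_zero] at h
    refine h.congr (fun N => ?_)
    rw [one_div_pow]
    ring
  have hev : ∀ᶠ N : ℕ in atTop, (2 : ℝ) ^ k / 2 ^ N < min (2 ^ k * y - (i + LL s))
        (i + LL s + WW s - 2 ^ k * y) :=
    htend.eventually_lt_const (lt_min (by linarith) (by linarith))
  obtain ⟨N, hN, hN3⟩ := (hev.and (eventually_ge_atTop (k + 3))).exists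
  rw [lt_min_iff] at hN
  have hp : (0 : ℝ) < 2 ^ N := by positivity
  set m := ⌊(2 : ℝ) ^ N * y⌋₊ with hm
  have hm1 : (m : ℝ) ≤ 2 ^ N * y := Nat.floor_le (by positivity)
  have hm2 : (2 : ℝ) ^ N * y < m + 1 := Nat.lt_floor_add_one _
  have hm3 : m < 2 ^ N := by
    have : (m : ℝ) < 2 ^ N := by nlinarith
    exact_mod_cast this
  set l := Encodable.encode ((k, N - k - 3, m) : ℕ × ℕ × ℕ) with hkl
  have hix : CI.ixx l = (k, N - k - 3, m) := by
    unfold CI.ixx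
    exact Denumerable.ofNat_encode _
  have hkk : CI.kk l = k := by unfold CI.kk; rw [hix]
  have hlv : CI.lv l = N := by
    unfold CI.lv
    rw [hkk, hix]
    simp only
    omega
  have hnm : CI.nm l = m := by unfold CI.nm; rw [hix]
  have haL : CI.aL l = m / 2 ^ N := by
    unfold CI.aL
    rw [hlv, hnm, if_pos hm3]
  have hdL : CI.dL l = 1 / 2 ^ N := by
    unfold CI.dL
    rw [hlv, hnm, if_pos hm3]
  have hy_lo : (m : ℝ) / 2 ^ N ≤ y := by
    rw [div_le_iff₀ hp]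
    linarith
  have hy_hi : y ≤ (m : ℝ) / 2 ^ N + 1 / 2 ^ N := by
    rw [← add_div, le_div_iff₀ hp]
    linarith
  have h2l : (0 : ℝ) < 2 ^ k := by positivity
  refine ⟨l, ?_, hkk, ?_⟩
  · unfold swI
    simp only [decide_eq_true_eq]
    refine ⟨by rw [hnm, hlv]; exact hm3, s, hs, i, ?_, ?_⟩
    · rw [haL, hkk]
      have h1 : (2 : ℝ) ^ k * y ≤ 2 ^ k * (m / 2 ^ N) + 2 ^ k / 2 ^ N := by
        have := mul_le_mul_of_nonneg_left hy_hi h2l.le
        calc (2 : ℝ) ^ k * y ≤ 2 ^ k * (m / 2 ^ N + 1 / 2 ^ N) := this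
          _ = _ := by ring
      linarith [hN.1]
    · rw [haL, hdL, hkk]
      have h1 : 2 ^ k * ((m : ℝ) / 2 ^ N) ≤ 2 ^ k * y := mul_le_mul_of_nonneg_left hy_lo h2l.le
      have h2 : (2 : ℝ) ^ k * ((m : ℝ) / 2 ^ N + 1 / 2 ^ N)
          = 2 ^ k * (m / 2 ^ N) + 2 ^ k / 2 ^ N := by ring
      rw [h2]
      linarith [hN.2]
  · rw [haL, hdL]
    exact ⟨hy_lo, hy_hi⟩

theorem cov_swI (T : Set (List ℕ)) (hT : ¬ ∃ β : ℕ → ℕ, ∀ m, (List.range m).map β ∈ T) :
    CovT CI.kk CI.aL (fun l => CI.aL l + CI.dL l) (swI T) := by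
  intro k
  refine ⟨{x | ∃ (m : ℤ) (N : ℕ), x = m / 2 ^ N}, ?_, ?_⟩
  · have : {x : ℝ | ∃ (m : ℤ) (N : ℕ), x = m / 2 ^ N} =
        Set.range (fun p : ℤ × ℕ => (p.1 : ℝ) / 2 ^ p.2) := by
      ext x
      simp only [mem_ofPred_eq, mem_range, Prod.exists]
      constructor
      · rintro ⟨m, N, h⟩
        exact ⟨m, N, h.symm⟩
      · rintro ⟨m, N, h⟩
        exact ⟨m, N, h.symm⟩
    rw [this]
    exact Set.countable_range _
  · intro x hx
    have hfr : x = ⌊x⌋ + Int.fract x := (Int.floor_add_fract x).symm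
    obtain ⟨l, h1, h2, h3⟩ := T08_cov T hT k (Int.fract x) (Int.fract_nonneg x)
      (Int.fract_lt_one x) (by
        rintro ⟨m, N, h⟩
        apply hx
        refine ⟨⌊x⌋ * 2 ^ N + m, N, ?_⟩
        have hp : (2 : ℝ) ^ N ≠ 0 := by positivity
        rw [h] at hfr
        rw [eq_div_iff hp]
        calc x * 2 ^ N = (⌊x⌋ + (m : ℝ) / 2 ^ N) * 2 ^ N := by rw [← hfr]
          _ = _ := by
            push_cast
            field_simp)
    refine ⟨l, h1, h2, -⌊x⌋, ?_⟩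
    have h4 : x + ((-⌊x⌋ : ℤ) : ℝ) = Int.fract x := by
      push_cast
      unfold Int.fract
      ring
    rw [h4]
    exact h3

theorem coll_swI (T : Set (List ℕ)) (hT : ∃ β : ℕ → ℕ, ∀ m, (List.range m).map β ∈ T) :
    ∃ (H : ℕ → ℝ → ℝ) (M δ : ℕ → ℝ), CollT CI.kk CI.aL (fun l => CI.aL l + CI.dL l) (swI T) H M δ := by
  obtain ⟨β, hβ⟩ := hT
  obtain ⟨F, hF, h0, h1, mono, hc⟩ := exists_cantor β
  refine ⟨fun k x => h04_g F (2 ^ k * x), fun k => 2 ^ k, fun k => 2 * (1 / 2) ^ k, ?_, ?_, ?_, ?_, ?_⟩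
  · intro k
    exact (h04_g_cont hF h0 h1).comp (continuous_const.mul continuous_id)
  · intro k x
    have h := qh2_add_nat (F := F) (2 ^ k * x) (2 ^ k)
    push_cast at h
    rw [mul_add, mul_one, h]
  · intro k x y hxy
    have a := h04_g_close mono h0 h1 _ _ hxy
    have b := h04_g_close mono h0 h1 _ _ hxy.symm
    have hq : (0 : ℝ) < (1 / 2) ^ k := by positivity
    have e1 : x - y = (1 / 2) ^ k * (2 ^ k * x - 2 ^ k * y) := by
      rw [← mul_sub, ← mul_assoc, qh2_pow, one_mul]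
    rw [abs_le]
    constructor
    · rw [e1]
      nlinarith
    · rw [e1]
      nlinarith
  · have h := (tendsto_pow_atTop_nhds_zero_of_lt_one (by norm_num : (0 : ℝ) ≤ 1 / 2)
      (by norm_num)).const_mul (2 : ℝ)
    rwa [mul_zero] at h
  · intro l hl x hx x' hx'
    have hsw : CI.nm l < 2 ^ CI.lv l ∧ ∃ s : List ℕ, hf s ∉ T ∧ ∃ i : ℕ,
        (i : ℝ) + LL s ≤ 2 ^ CI.kk l * CI.aL l ∧
          2 ^ CI.kk l * (CI.aL l + CI.dL l) ≤ i + LL s + WW s := by
      classical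
      unfold swI at hl
      exact of_decide_eq_true hl
    obtain ⟨hm, s, hs, i, hi1, hi2⟩ := hsw
    have hne : hf s ≠ (List.range s.length).map β := fun h => hs (h ▸ hβ _)
    have hFe := hc s hne
    have hL := h04_LL_nonneg s
    have hW := h04_WW_nonneg s
    have hLW := h04_le_one s
    have hp : (0 : ℝ) < 2 ^ CI.kk l := by positivity
    have key : ∀ y ∈ Icc (CI.aL l) (CI.aL l + CI.dL l),
        h04_g F (2 ^ CI.kk l * y) = (i : ℝ) + F (LL s) := by
      intro y hy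
      have a1 : 2 ^ CI.kk l * CI.aL l ≤ 2 ^ CI.kk l * y :=
        mul_le_mul_of_nonneg_left hy.1 hp.le
      have a2 : 2 ^ CI.kk l * y ≤ 2 ^ CI.kk l * (CI.aL l + CI.dL l) :=
        mul_le_mul_of_nonneg_left hy.2 hp.le
      have b1 : LL s ≤ (2 : ℝ) ^ CI.kk l * y - i := by linarith
      have b2 : (2 : ℝ) ^ CI.kk l * y - i ≤ LL s + WW s := by linarith
      rw [h04_g_on h0 h1 i (2 ^ CI.kk l * y) (by linarith) (by linarith)]
      have c1 := mono b1
      have c2 := mono b2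
      rw [← hFe] at c2
      rw [le_antisymm c2 c1]
    rw [key x hx, key x' hx']

theorem swI_meas {α : Type*} [MeasurableSpace α] (T : α → Set (List ℕ))
    (hT : Measurable (fun a => sw (T a))) : Measurable (fun a => swI (T a)) := by
  rw [measurable_pi_iff]
  intro l
  apply measurable_to_bool
  have h3 : ((fun a => swI (T a) l) ⁻¹' {true}) = {_a | CI.nm l < 2 ^ CI.lv l} ∩
      ⋃ s : List ℕ, {a | hf s ∉ T a} ∩ {_a | ∃ i : ℕ,
        (i : ℝ) + LL s ≤ 2 ^ CI.kk l * CI.aL l ∧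
          2 ^ CI.kk l * (CI.aL l + CI.dL l) ≤ i + LL s + WW s} := by
    ext a
    simp only [swI, mem_preimage, mem_singleton_iff, decide_eq_true_eq, mem_inter_iff,
      mem_ofPred_eq, mem_iUnion]
  rw [h3]
  exact (MeasurableSet.const _).inter (MeasurableSet.iUnion fun s =>
    (qi1_meas T hT s).inter (MeasurableSet.const _))

end CI48
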