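import Pool.Agent.LibCI48.C02
import Pool.Agent.LibCI48.C10
import Pool.Agent.LibCI48.T08

/-! TASK C11 (MEDIUM, ~120 lines).  The data of the collapsing maps on the torus. -/

set_option autoImplicit false

namespace CI48

open CPE48 Set Function Filter Topology

theorem c11_pr3 (c : CI.E3) (w : CI.Z5) : pr3 (c + (CI.sh w).1) = pr3 c :=
  ((pr3_eq_iff c (c + (CI.sh w).1)).2 ⟨w.1.1.1, w.1.1.2, w.1.2, rfl⟩).symm

theorem arcL_R (P : CI.Par) (Φ : ℝ → X3 → X3) (hΦ : IsPhi P Φ) (l : ℕ) (c c' : CI.E3)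
    (h : CI.ArcL P l c c') :
    ArcR Φ (EL P) (CI.Ak P) (CI.Bk P) CI.kk CI.aL (fun l => CI.aL l + CI.dL l) l
      (pr3 c) (pr3 c') := by
  obtain ⟨h1, h2, h3, t, rfl, h4⟩ := h
  refine ⟨c.1.1, CI.eta P c, t, h2, h3, h4, ?_, (hΦ.2 t c).symm⟩
  unfold EL
  have h5 : c.1.2 = YY P c.1.1 0 := YY_eq P c.1.1 c.1.2 0 h1
  rw [← h5]
  have h6 : CI.eta P c + P.be * c.1.1 = c.2 := by
    unfold CI.eta; ring
  rw [h6]

theorem arcR_L (P : CI.Par) (Φ : ℝ → X3 → X3) (hΦ : IsPhi P Φ) (l : ℕ) (x x' : X3)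
    (h : ArcR Φ (EL P) (CI.Ak P) (CI.Bk P) CI.kk CI.aL (fun l => CI.aL l + CI.dL l) l x x') :
    ∃ c c' : CI.E3, x = pr3 c ∧ x' = pr3 c' ∧ CI.ArcL P l c c' := by
  obtain ⟨a, η, t, h1, h2, h3, h4, h5⟩ := h
  have he : CI.eta P ((a, YY P a 0), η + P.be * a) = η := by
    unfold CI.eta; ring
  refine ⟨((a, YY P a 0), η + P.be * a), CI.Phi P t ((a, YY P a 0), η + P.be * a), h4, ?_, ?_⟩
  · rw [h5, h4]
    exact hΦ.2 t _
  · refine ⟨YY_spec P a 0, h1, ?_, t, rfl, ?_⟩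
    · rw [he]; exact h2
    · rw [he]; exact h3

theorem exists_pdata (P : CI.Par) (ε : ℕ → ℝ) (h : QD P ε) (Φ : ℝ → X3 → X3) (hΦ : IsPhi P Φ) :
    ∃ p : (ℕ → Bool) → X3 × Y2 → ℝ, (∀ e z, p e (pr5 z) = CI.pe P ε e z) ∧
      PData Φ (fun l => {pr2 (0, CI.jL l)})
        (ArcR Φ (EL P) (CI.Ak P) (CI.Bk P) CI.kk CI.aL (fun l => CI.aL l + CI.dL l)) p := by
  obtain ⟨g, hg, hg2⟩ := desc5 (T := ℕ → Bool) (fun e z => CI.pe P ε e z)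
    (pe_cont h dL_tendsto) (fun e z v => pe_shift e z v)
  have hg3 : ∀ e (c : CI.E3) (y : ℝ × ℝ), g e (pr3 c, pr2 y) = CI.pe P ε e (c, y) :=
    fun e c y => hg2 e (c, y)
  refine ⟨g, hg2, hg, ⟨1, ?_⟩, ?_, ?_⟩
  · intro e x
    obtain ⟨z, rfl⟩ := pr5_open.surjective x
    rw [hg2]
    exact pe_bound h dL_le e z
  · intro e c y u v huv heq
    obtain ⟨c0, rfl⟩ := pr3_open.surjective c
    obtain ⟨y0, rfl⟩ := pr2_open.surjective y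
    rw [hΦ.2, hΦ.2] at heq ⊢
    rw [hg3, hg3] at heq
    rcases pe_cases h e y0 with h0 | ⟨l, hl, h1⟩
    · rw [h0, h0] at heq
      linarith
    · rw [h1, h1] at heq
      obtain ⟨w, hw1, hw2⟩ := h.eq l c0 y0 u v huv heq.symm.le
      refine ⟨l, hl, ?_, ?_⟩
      · exact (pr2_eq_iff y0 (0, CI.jL l)).2 ⟨w.2.1, w.2.2, hw1.symm⟩
      · have h2 := arcL_R P Φ hΦ l _ _ hw2
        rw [c11_pr3, c11_pr3] at h2
        exact h2
  · intro e l hl y hy c c' hR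
    obtain rfl : y = pr2 (0, CI.jL l) := hy
    obtain ⟨c0, c0', rfl, rfl, hA⟩ := arcR_L P Φ hΦ l _ _ hR
    rw [hg3, hg3, pe_at h dL_pos e l hl, pe_at h dL_pos e l hl, hΦ.2, hΦ.2, h.col l c0 c0' hA]

end CI48
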