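import Pool.Agent.LibCI48.C01
import Pool.Agent.LibCI48.C10

/-! TASK C12 (MEDIUM, ~100 lines).  The maps on the torus.  Use the imported statements.

* `exists_D2`: `desc2` for `y ↦ pr2 (CI.DD y)` (`DD_shift`; `CI.ff_sm`, `CI.hh_sm` give continuity).
* `exists_F`: `desc5` (`T = ℕ → Bool`) for `(e, z) ↦ pr3 (CI.Fl P ε e z).1`, where
  `(CI.Fl P ε e z).1 = CI.Phi P (1 + De e z) z.1`; continuity from `(CI.phi_isFl P).smooth.continuous`
  and `De_cont`; periodicity: `De_shift`, `CI.Phi_shift`.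
  The identity: for `z = (c, y)`: `p e (pr5 z) = pe e z =: t`, `Φ (-t) (pr3 c) = pr3 (Phi (-t) c)`, so the
  left side is `F e (pr5 (Tl e z)) = pr3 (Phi (1 + De e (Tl e z)) (Phi (-t) c))`
  `= pr3 (Phi (1 - pe e (Gl z)) c) = Φ (-(pe e (Gl z))) (Φ 1 (pr3 c))` by `hId`, `CI.Phi_add`; and
  `pe e (Gl z) = p e (pr5 (Gl z)) = p e (Φ 1 (pr3 c), D2 (pr2 y))`.
* `pdata_prod`: immediate.
-/

set_option autoImplicit false

namespace CI48

open CPE48 Set Function Filter Topology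

theorem C12_DD_cont : Continuous CI.DD := by
  have h1 : Continuous (fun y : ℝ × ℝ => y.1 + CI.ff y.2) :=
    continuous_fst.add (CI.ff_sm.continuous.comp continuous_snd)
  exact h1.prodMk (continuous_snd.add (CI.hh_sm.continuous.comp h1))

theorem exists_D2 : ∃ D2 : Y2 → Y2, Continuous D2 ∧ ∀ y, D2 (pr2 y) = pr2 (CI.DD y) := by
  refine desc2 (fun y => pr2 (CI.DD y)) (pr2_open.continuous.comp C12_DD_cont) fun y i j => ?_
  exact ((pr2_eq_iff (CI.DD y) (CI.DD (y.1 + i, y.2 + j))).2 ⟨i + j, i + 2 * j, DD_shift y i j⟩).symm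

theorem C12_Phi_cont (P : CI.Par) : Continuous (fun q : ℝ × CI.E3 => CI.Phi P q.1 q.2) := by
  have h0 : Continuous (fun q : ℝ × CI.E3 => CI.phi P q.1 q.2.1) :=
    (CI.phi_isFl P).smooth.continuous.comp
      (continuous_fst.prodMk (continuous_fst.comp continuous_snd))
  refine h0.prodMk ?_
  have h1 : Continuous (fun q : ℝ × CI.E3 => q.2.2) := continuous_snd.comp continuous_snd
  have h2 : Continuous (fun q : ℝ × CI.E3 => q.2.1.1) :=
    continuous_fst.comp (continuous_fst.comp continuous_snd)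
  have h3 : Continuous (fun q : ℝ × CI.E3 => (CI.phi P q.1 q.2.1).1) := continuous_fst.comp h0
  exact (h1.add continuous_fst).add (continuous_const.mul (h3.sub h2))

theorem C12_pr3_shift (c : CI.E3) (v : CI.Z5) : pr3 (c + (CI.sh v).1) = pr3 c :=
  ((pr3_eq_iff c (c + (CI.sh v).1)).2 ⟨v.1.1.1, v.1.1.2, v.1.2, rfl⟩).symm

theorem exists_F (P : CI.Par) (ε : ℕ → ℝ)
    (hc : ∀ l, Continuous (CI.per (CI.dlt P l (ε l))))
    (hb : ∀ l z, |CI.per (CI.dlt P l (ε l)) z| ≤ (1 / 2) ^ l)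
    (hId : ∀ e z, CI.De P ε e (CI.Tl P ε e z) = CI.pe P ε e z - CI.pe P ε e (CI.Gl P z))
    (Φ : ℝ → X3 → X3) (hΦ : IsPhi P Φ) (D2 : Y2 → Y2) (hD2 : ∀ y, D2 (pr2 y) = pr2 (CI.DD y))
    (p : (ℕ → Bool) → X3 × Y2 → ℝ) (hp : ∀ e z, p e (pr5 z) = CI.pe P ε e z) :
    ∃ F : (ℕ → Bool) → X3 × Y2 → X3,
      Continuous (fun q : (ℕ → Bool) × (X3 × Y2) => F q.1 q.2) ∧
      (∀ e z, F e (pr5 z) = pr3 (CI.Fl P ε e z).1) ∧
      ∀ e x y, F e (Φ (-(p e (x, y))) x, y) = Φ (-(p e (Φ 1 x, D2 y))) (Φ 1 x) := by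
  have hcont : Continuous (fun q : (ℕ → Bool) × CI.E5 => pr3 (CI.Fl P ε q.1 q.2).1) := by
    have h1 : Continuous (fun q : (ℕ → Bool) × CI.E5 => CI.De P ε q.1 q.2) := De_cont hc hb
    have h2 : Continuous (fun q : (ℕ → Bool) × CI.E5 =>
        CI.Phi P (1 + CI.De P ε q.1 q.2) q.2.1) :=
      (C12_Phi_cont P).comp
        ((continuous_const.add h1).prodMk (continuous_fst.comp continuous_snd))
    exact pr3_open.continuous.comp h2
  obtain ⟨F, hF1, hF2⟩ := desc5 (fun (e : ℕ → Bool) z => pr3 (CI.Fl P ε e z).1) hcont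
    (fun e z v => by
      show pr3 (CI.Phi P (1 + CI.De P ε e (z + CI.sh v)) (z.1 + (CI.sh v).1)) =
        pr3 (CI.Phi P (1 + CI.De P ε e z) z.1)
      rw [De_shift, CI.Phi_shift, C12_pr3_shift])
  refine ⟨F, hF1, hF2, fun e x y => ?_⟩
  obtain ⟨z, hz⟩ := pr5_open.surjective (x, y)
  have hx : x = pr3 z.1 := (congrArg Prod.fst hz).symm
  have hy : y = pr2 z.2 := (congrArg Prod.snd hz).symm
  have e1 : p e (x, y) = CI.pe P ε e z := by rw [← hz, hp]
  have e2 : (Φ (-(p e (x, y))) x, y) = pr5 (CI.Tl P ε e z) := by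
    rw [e1, hx, hy, hΦ.2]
    rfl
  have e3 : (Φ 1 x, D2 y) = pr5 (CI.Gl P z) := by
    rw [hx, hy, hΦ.2, hD2]
    rfl
  rw [e2, hF2, e3, hp, hx, hΦ.2, hΦ.2]
  have e4 : (CI.Fl P ε e (CI.Tl P ε e z)).1 =
      CI.Phi P (1 + CI.De P ε e (CI.Tl P ε e z)) (CI.Phi P (-(CI.pe P ε e z)) z.1) := rfl
  rw [e4, hId, ← CI.Phi_add, ← CI.Phi_add]
  congr 2
  ring

theorem pdata_prod {X Y W : Type*} [MetricSpace X] [MetricSpace Y] [MetricSpace W]
    {Φ : ℝ → X → X} {O : ℕ → Set Y} {R : ℕ → X → X → Prop} {p : (ℕ → Bool) → X × Y → ℝ}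
    (h : PData Φ O R p) :
    PData Φ (fun l => {y : Y × W | y.1 ∈ O l}) R (fun e x => p e (x.1, x.2.1)) := by
  obtain ⟨L, hL⟩ := h.bound
  refine ⟨?_, ⟨L, fun e x => hL e _⟩, fun e c y u v huv he => h.eq e c y.1 u v huv he,
    fun e l he y hy c c' hR => h.col e l he y.1 hy c c' hR⟩
  have h1 : Continuous (fun q : (ℕ → Bool) × (X × (Y × W)) => (q.1, (q.2.1, q.2.2.1))) :=
    continuous_fst.prodMk ((continuous_fst.comp continuous_snd).prodMk
      (continuous_fst.comp (continuous_snd.comp continuous_snd)))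
  exact h.cont.comp h1

end CI48
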