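import Pool.Agent.LibCI48.D7

/-! TASK D8 (MEDIUM, ~100 lines).  Independence of `D`.  Use `seed_step` (D7, stated).

Given `O b` open and nonempty in the torus: choose (reals) `z b` and `κ ∈ (0, 1/16]` such that every
point `(x, y)` with `|x - (z b).1| ≤ 2κ`, `|y - (z b).2| ≤ 2κ` has its class in `O b`, and such that `x`
is not an integer (the preimage of `O b` in the plane is open and nonempty, so it contains a point
whose first coordinate is not an integer, and a small box around it; take the minimum of the two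
`κ`).  The same then holds modulo integer vectors.  `m₀` from `seed_step`, but take `m₀' = m₀ + m₀`
or just `m₀` and start with a seed for the box `z true` at time `0`: the path
`γ₀ t = z true + (t, t)`, `t ∈ [0, κ]`, is a seed.  For the itinerary `s`, times `i`: the first time `i 0`
may be smaller than `m₀`, so use the times `i j + m₀`: by induction on `r` there are nested intervals
`[a_j, c_j]` with `Seed (z (s j)) κ (Dt^[i j + m₀] ∘ γ₀) a_j c_j` for `j < r` (first step from `γ₀` with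
`m = i 0 + m₀`, next steps with `m = i (j+1) - i j ≥ m₀`, `Function.iterate_add_apply`).  The point
`t = a_{r-1}` lies in all of them; `y = class of Dt^[m₀] (γ₀ t)` satisfies
`DD^[i j] y = class of Dt^[i j + m₀] (γ₀ t) ∈ O (s j)`.
`DD^[n] (class p) = class (Dt^[n] p)` by induction from `hDD`.
-/

set_option autoImplicit false

namespace CI48

open CPE48 Set Function Filter Topology

variable {f h : ℝ → ℝ}

theorem D8_cls (x : ℝ) (n : ℤ) : ((x + n : ℝ) : UnitAddCircle) = (x : UnitAddCircle) := by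
  have h : ((n : ℝ) : UnitAddCircle) = 0 := by
    rw [AddCircle.coe_eq_zero_iff]; exact ⟨n, by simp⟩
  rw [AddCircle.coe_add, h, add_zero]

/-- a small box in an open set of the torus, which does not meet the lines `x = integer` -/
theorem D8_box (O : Set (UnitAddCircle × UnitAddCircle)) (hO : IsOpen O) (hne : O.Nonempty) :
    ∃ (z : ℝ × ℝ) (κ : ℝ), 0 < κ ∧ κ ≤ 1 ∧ ∀ x y : ℝ, |x - z.1| ≤ 2 * κ → |y - z.2| ≤ 2 * κ →
      ((x : UnitAddCircle), (y : UnitAddCircle)) ∈ O ∧ ∀ k : ℤ, x ≠ k := by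
  have hcl : Continuous (fun p : ℝ × ℝ => ((p.1 : UnitAddCircle), (p.2 : UnitAddCircle))) :=
    ((AddCircle.continuous_mk' (p := (1:ℝ))).comp continuous_fst).prodMk
      ((AddCircle.continuous_mk' (p := (1:ℝ))).comp continuous_snd)
  obtain ⟨V, hV⟩ : ∃ V : Set (ℝ × ℝ), V = (fun p : ℝ × ℝ =>
    ((p.1 : UnitAddCircle), (p.2 : UnitAddCircle))) ⁻¹' O := ⟨_, rfl⟩
  have hVo : IsOpen V := by rw [hV]; exact hO.preimage hcl
  obtain ⟨⟨u, v⟩, huv⟩ := hne
  obtain ⟨a, ha⟩ : ∃ a : ℝ, (a : UnitAddCircle) = u := QuotientAddGroup.mk_surjective u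
  obtain ⟨b, hb⟩ : ∃ b : ℝ, (b : UnitAddCircle) = v := QuotientAddGroup.mk_surjective v
  have hab : (a, b) ∈ V := by
    rw [hV]
    show ((a : UnitAddCircle), (b : UnitAddCircle)) ∈ O
    rw [ha, hb]
    exact huv
  have hdense : Dense (range (fun n : ℤ => (n : ℝ)))ᶜ := (countable_range _).dense_compl ℝ
  have hslice : IsOpen {x : ℝ | (x, b) ∈ V} :=
    hVo.preimage (continuous_id.prodMk continuous_const)
  obtain ⟨x0, hx0V, hx0⟩ := hdense.inter_open_nonempty _ hslice ⟨a, hab⟩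
  have hWo : IsOpen (V ∩ {p : ℝ × ℝ | p.1 ∈ (range (fun n : ℤ => (n : ℝ)))ᶜ}) :=
    hVo.inter ((Int.isClosedEmbedding_coe_real.isClosed_range.isOpen_compl).preimage continuous_fst)
  obtain ⟨ε, hε, hball⟩ := Metric.isOpen_iff.1 hWo (x0, b) ⟨hx0V, hx0⟩
  refine ⟨(x0, b), min (ε / 4) 1, lt_min (by linarith) one_pos, min_le_right _ _,
    fun x y hx hy => ?_⟩
  have hm : min (ε / 4) 1 ≤ ε / 4 := min_le_left _ _
  have hmem : (x, y) ∈ Metric.ball (x0, b) ε := by
    rw [Metric.mem_ball, Prod.dist_eq]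
    refine max_lt ?_ ?_
    · rw [Real.dist_eq]; exact lt_of_le_of_lt hx (by linarith)
    · rw [Real.dist_eq]; exact lt_of_le_of_lt hy (by linarith)
  obtain ⟨h1, h2⟩ := hball hmem
  refine ⟨?_, fun k hk => h2 ⟨k, hk.symm⟩⟩
  rw [hV] at h1
  exact h1

theorem ind_DD (H : FH f h)
    (DD : UnitAddCircle × UnitAddCircle → UnitAddCircle × UnitAddCircle)
    (hDD : ∀ p : ℝ × ℝ, DD ((p.1 : UnitAddCircle), (p.2 : UnitAddCircle)) =
      (((Dt f h p).1 : UnitAddCircle), ((Dt f h p).2 : UnitAddCircle))) : IND DD := by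
  intro O hO hne
  choose z κ' hκ0 hκ1 hbox using fun b => D8_box (O b) (hO b) (hne b)
  obtain ⟨κ, hκ⟩ : ∃ κ : ℝ, κ = min (κ' true) (κ' false) := ⟨_, rfl⟩
  have hκle : ∀ b, κ ≤ κ' b := by
    intro b
    cases b
    · rw [hκ]; exact min_le_right _ _
    · rw [hκ]; exact min_le_left _ _
  have hκpos : 0 < κ := by rw [hκ]; exact lt_min (hκ0 true) (hκ0 false)
  have hbox' : ∀ b, ∀ x y : ℝ, |x - (z b).1| ≤ 2 * κ → |y - (z b).2| ≤ 2 * κ →
      ((x : UnitAddCircle), (y : UnitAddCircle)) ∈ O b ∧ ∀ k : ℤ, x ≠ k := by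
    intro b x y hx hy
    have := hκle b
    exact hbox b x y (by linarith) (by linarith)
  obtain ⟨m₀, hm₀⟩ := seed_step H z κ hκpos ((hκle true).trans (hκ1 true))
    (fun b x hx => (hbox' b x (z b).2 hx (by rw [sub_self, abs_zero]; linarith)).2)
  have hseed : ∀ b (γ : ℝ → ℝ × ℝ) a c, Seed (z b) κ γ a c → ∀ t ∈ Icc a c,
      (((γ t).1 : UnitAddCircle), ((γ t).2 : UnitAddCircle)) ∈ O b := by
    intro b γ a c hs t ht
    obtain ⟨-, ⟨i, j, hij⟩, -⟩ := hs
    obtain ⟨h1, h2⟩ := hij t ht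
    have h3 := (hbox' b ((γ t).1 - i) ((γ t).2 - j)
      (by rw [show (γ t).1 - i - (z b).1 = (γ t).1 - (z b).1 - i by ring]; exact h1)
      (by rw [show (γ t).2 - j - (z b).2 = (γ t).2 - (z b).2 - j by ring]; exact h2)).1
    have h4 : (((γ t).1 - i : ℝ) : UnitAddCircle) = ((γ t).1 : UnitAddCircle) := by
      have := D8_cls ((γ t).1 - i) i
      rw [sub_add_cancel] at this
      exact this.symm
    have h5 : (((γ t).2 - j : ℝ) : UnitAddCircle) = ((γ t).2 : UnitAddCircle) := by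
      have := D8_cls ((γ t).2 - j) j
      rw [sub_add_cancel] at this
      exact this.symm
    rw [h4, h5] at h3
    exact h3
  refine ⟨m₀, fun r i hi s => ?_⟩
  -- the starting path
  obtain ⟨γ₀, hγ₀⟩ : ∃ γ₀ : ℝ → ℝ × ℝ, γ₀ = fun t => ((z true).1 + t, (z true).2 + t) := ⟨_, rfl⟩
  have hγc : Continuous γ₀ := by
    rw [hγ₀]
    exact (continuous_const.add continuous_id).prodMk (continuous_const.add continuous_id)
  have hγm : Monotone γ₀ := by
    rw [hγ₀]
    intro a b hab
    exact ⟨by show (z true).1 + a ≤ (z true).1 + b; linarith,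
      by show (z true).2 + a ≤ (z true).2 + b; linarith⟩
  have hs0 : Seed (z true) κ γ₀ 0 κ := by
    refine ⟨hκpos.le, ⟨0, 0, fun t ht => ?_⟩, Or.inl ?_⟩
    · have h1 : (γ₀ t).1 = (z true).1 + t := by rw [hγ₀]
      have h2 : (γ₀ t).2 = (z true).2 + t := by rw [hγ₀]
      rw [h1, h2]
      push_cast
      constructor
      · rw [show (z true).1 + t - (z true).1 - 0 = t by ring, abs_of_nonneg ht.1]
        linarith [ht.2]
      · rw [show (z true).2 + t - (z true).2 - 0 = t by ring, abs_of_nonneg ht.1]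
        linarith [ht.2]
    · have h1 : (γ₀ κ).1 = (z true).1 + κ := by rw [hγ₀]
      have h2 : (γ₀ 0).1 = (z true).1 + 0 := by rw [hγ₀]
      rw [h1, h2]
      linarith
  have key : ∀ r : ℕ, ∃ a c, Seed (z (s r)) κ (fun t => (Dt f h)^[i r + m₀] (γ₀ t)) a c ∧
      ∀ j ≤ r, ∀ t ∈ Icc a c, ((((Dt f h)^[i j + m₀] (γ₀ t)).1 : UnitAddCircle),
        (((Dt f h)^[i j + m₀] (γ₀ t)).2 : UnitAddCircle)) ∈ O (s j) := by
    intro r
    induction r with
    | zero =>
      obtain ⟨a, c, -, -, hS⟩ := hm₀ γ₀ hγc hγm true (s 0) 0 κ hs0 (i 0 + m₀) (by omega)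
      refine ⟨a, c, hS, fun j hj t ht => ?_⟩
      obtain rfl : j = 0 := by omega
      exact hseed _ _ a c hS t ht
    | succ r ih =>
      obtain ⟨a, c, hS, hin⟩ := ih
      obtain ⟨a', c', haa, hcc, hS'⟩ := hm₀ (fun t => (Dt f h)^[i r + m₀] (γ₀ t))
        (((Dt_cont H).iterate _).comp hγc) (((Dt_mono H).iterate _).comp hγm) (s r) (s (r + 1)) a c hS
        (i (r + 1) - i r) (by have := hi r; omega)
      have he : (fun t => (Dt f h)^[i (r + 1) - i r] ((Dt f h)^[i r + m₀] (γ₀ t))) =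
          fun t => (Dt f h)^[i (r + 1) + m₀] (γ₀ t) := by
        funext t
        rw [← Function.iterate_add_apply]
        have : i (r + 1) - i r + (i r + m₀) = i (r + 1) + m₀ := by have := hi r; omega
        rw [this]
      have hS2 : Seed (z (s (r + 1))) κ (fun t => (Dt f h)^[i (r + 1) + m₀] (γ₀ t)) a' c' := by
        rw [← he]
        exact hS'
      refine ⟨a', c', hS2, fun j hj t ht => ?_⟩
      rcases Nat.lt_or_ge j (r + 1) with hlt | hge
      · exact hin j (by omega) t ⟨haa.trans ht.1, ht.2.trans hcc⟩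
      · obtain rfl : j = r + 1 := by omega
        exact hseed _ _ a' c' hS2 t ht
  have hDn : ∀ (n : ℕ) (p : ℝ × ℝ), DD^[n] ((p.1 : UnitAddCircle), (p.2 : UnitAddCircle)) =
      ((((Dt f h)^[n] p).1 : UnitAddCircle), (((Dt f h)^[n] p).2 : UnitAddCircle)) := by
    intro n
    induction n with
    | zero => intro p; rfl
    | succ n ih =>
      intro p
      rw [Function.iterate_succ_apply', Function.iterate_succ_apply', ih, hDD]
  obtain ⟨a, c, hS, hin⟩ := key r
  refine ⟨((((Dt f h)^[m₀] (γ₀ a)).1 : UnitAddCircle), (((Dt f h)^[m₀] (γ₀ a)).2 : UnitAddCircle)),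
    fun j hj => ?_⟩
  rw [hDn, ← Function.iterate_add_apply]
  exact hin j hj.le a ⟨le_rfl, hS.1⟩

end CI48
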