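import Pool.Agent.LibCI48.TDefs

/-! TASK T01.  Independence: consequences and examples. -/

set_option autoImplicit false

namespace CI48

open CPE48 Set Function Filter Topology

theorem IND.mixing {Y : Type*} [TopologicalSpace Y] {D : Y → Y} (h : IND D) : Mixing D := by
  intro U V hU hV hUn hVn
  obtain ⟨m₀, hm₀⟩ := h (fun b => if b = true then V else U)
    (fun b => by cases b <;> simpa) (fun b => by cases b <;> simpa)
  refine ⟨m₀, fun m hm => ?_⟩
  obtain ⟨y, hy⟩ := hm₀ 2 (fun j => j * m) (fun j => by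
    show j * m + m₀ ≤ (j + 1) * m
    rw [add_mul, one_mul]
    omega) (fun j => if j = 0 then true else false)
  have h0 := hy 0 (by norm_num)
  have h1 := hy 1 (by norm_num)
  simp at h0 h1
  exact ⟨y, h1, h0⟩

theorem IND.prod {Y Z : Type*} [TopologicalSpace Y] [TopologicalSpace Z] {D : Y → Y} {E : Z → Z}
    (h : IND D) (h' : IND E) : IND (Prod.map D E) := by
  intro O hO hne
  have hrect : ∀ b, ∃ U : Set Y, ∃ V : Set Z, IsOpen U ∧ IsOpen V ∧ U.Nonempty ∧ V.Nonempty ∧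
      U ×ˢ V ⊆ O b := by
    intro b
    obtain ⟨⟨y, z⟩, hyz⟩ := hne b
    obtain ⟨U, V, hU, hV, hyU, hzV, hUV⟩ := isOpen_prod_iff.1 (hO b) y z hyz
    exact ⟨U, V, hU, hV, ⟨y, hyU⟩, ⟨z, hzV⟩, hUV⟩
  choose U V hU hV hUn hVn hUV using hrect
  obtain ⟨m₁, hm₁⟩ := h U hU hUn
  obtain ⟨m₂, hm₂⟩ := h' V hV hVn
  refine ⟨max m₁ m₂, fun r i hi s => ?_⟩
  obtain ⟨y, hy⟩ := hm₁ r i (fun j => le_trans (by have := le_max_left m₁ m₂; omega) (hi j)) s
  obtain ⟨z, hz⟩ := hm₂ r i (fun j => le_trans (by have := le_max_right m₁ m₂; omega) (hi j)) s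
  refine ⟨(y, z), fun j hj => hUV (s j) ?_⟩
  rw [Prod.map_iterate]
  exact ⟨hy j hj, hz j hj⟩

theorem ind_of_exact {Y : Type*} [TopologicalSpace Y] [Nonempty Y] {D : Y → Y}
    (hs : Surjective D)
    (h : ∀ U : Set Y, IsOpen U → U.Nonempty → ∃ m : ℕ, D^[m] '' U = univ) : IND D := by
  intro O hO hne
  obtain ⟨m₁, hm₁⟩ := h (O true) (hO true) (hne true)
  obtain ⟨m₂, hm₂⟩ := h (O false) (hO false) (hne false)
  have hcomm : ∀ (U : Set Y) (a b : ℕ), D^[a] '' U = univ → D^[a + b] '' U = univ := by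
    intro U a b h
    rw [show a + b = b + a from add_comm a b, Function.iterate_add, Set.image_comp, h,
      Set.image_univ]
    exact (hs.iterate b).range_eq
  have hM₁ : D^[m₁ + m₂] '' (O true) = univ := hcomm _ _ _ hm₁
  have hM₂ : D^[m₁ + m₂] '' (O false) = univ := by rw [add_comm]; exact hcomm _ _ _ hm₂
  refine ⟨m₁ + m₂, fun r i hi s => ?_⟩
  exact exact_itinerary hs O (m₁ + m₂) (fun b => by cases b <;> assumption) r i hi s

end CI48
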