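import Pool.Agent.LibCI48.CDefs
import Pool.Agent.LibCI48.D8
import Pool.Agent.LibCI48.T01

/-! TASK C13 (EASY, ~90 lines).  Independence of the fibre map.

* `FH_ffhh`: `fstrict` from `CI.ff_mono` and `CI.ff_strict` (for `1/8 ≤ x < y ≤ 7/8` with `ff x = ff y` the
  integer `i` would satisfy `y - 1/8 ≤ i ≤ x + 1/8`, impossible); `fzero`: by definition
  (`CI.ff y = ⌊y⌋ + smoothTransition ((fract y - 1/8) * (4/3))`: for `0 ≤ y ≤ 1/8` floor `0` and
  `smoothTransition` of a nonpositive number; for `-1/8 ≤ y < 0` floor `-1` and a number `≥ 1`);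
  `hzero`: `CI.hh_odd 0`.
* `ind_D2`: `ind_DD` (D8), `Dt CI.ff CI.hh = CI.DD` by definition.
* `dbl_exact`: every nonempty open subset of `Fin m → UnitAddCircle` is mapped onto everything by a power
  of `w ↦ w + w` (see the files LibCPE48/G01-G03 for `Fin (m + 1)`; here `m = 0` is allowed: trivial);
  `ind_fib`: `ind_of_exact` and `IND.prod`.
-/

set_option autoImplicit false

namespace CI48

open CPE48 Set Function Filter Topology

theorem c13_ff_zero_nonneg {y : ℝ} (h0 : 0 ≤ y) (h1 : y ≤ 1 / 8) : CI.ff y = 0 := by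
  have hfl : ⌊y⌋ = 0 := Int.floor_eq_zero_iff.2 ⟨h0, by linarith⟩
  have hfr : Int.fract y = y := Int.fract_eq_self.2 ⟨h0, by linarith⟩
  unfold CI.ff
  rw [hfl, hfr, Real.smoothTransition.zero_of_nonpos (by linarith)]
  norm_num

theorem c13_hh_zero : CI.hh 0 = 0 := by
  have h := CI.hh_odd 0
  rw [neg_zero] at h
  linarith

theorem FH_ffhh : FH CI.ff CI.hh where
  fc := CI.ff_sm.continuous
  hc := CI.hh_sm.continuous
  fper := fun x => by
    have := CI.ff_add x 1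
    rwa [Int.cast_one] at this
  hper := fun x => by
    have := CI.hh_add x 1
    rwa [Int.cast_one] at this
  fmono := CI.ff_mono
  fzero := by
    rintro x ⟨h1, h2⟩
    rcases le_or_gt 0 x with h | h
    · exact c13_ff_zero_nonneg h h2
    · have h3 := CI.ff_odd (-x)
      rw [neg_neg] at h3
      rw [h3, c13_ff_zero_nonneg (y := -x) (by linarith) (by linarith), neg_zero]
  fstrict := by
    rintro x ⟨hx1, hx2⟩ y ⟨hy1, hy2⟩ hxy
    rcases (CI.ff_mono hxy.le).lt_or_eq with h | h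
    · exact h
    · exfalso
      obtain ⟨i, hi1, hi2, -⟩ := CI.ff_strict x y hxy h
      have h1 : (0 : ℝ) < i := by linarith
      have h2 : (i : ℝ) < 1 := by linarith
      have h1' : (0 : ℤ) < i := by exact_mod_cast h1
      have h2' : i < (1 : ℤ) := by exact_mod_cast h2
      omega
  hstrict := CI.hh_strictMono
  hzero := c13_hh_zero

theorem ind_D2 (D2 : Y2 → Y2) (hD2 : ∀ y, D2 (pr2 y) = pr2 (CI.DD y)) : IND D2 :=
  ind_DD FH_ffhh D2 (fun p => hD2 p)

/-- doubling -/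
def dbm (m : ℕ) (w : Fin m → UnitAddCircle) : Fin m → UnitAddCircle := w + w

theorem dbm_surj (m : ℕ) : Surjective (dbm m) := by
  intro y
  have h1 : ∀ i, ∃ x : UnitAddCircle, x + x = y i := by
    intro i
    obtain ⟨t, ht⟩ := QuotientAddGroup.mk_surjective (y i)
    refine ⟨((t / 2 : ℝ) : UnitAddCircle), ?_⟩
    rw [← AddCircle.coe_add, add_halves]
    exact ht
  choose x hx using h1
  exact ⟨x, funext hx⟩

theorem c13_iter (m n : ℕ) (y : Fin m → UnitAddCircle) : (dbm m)^[n] y = (2 ^ n) • y := by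
  induction n with
  | zero => simp
  | succ n ih =>
    rw [Function.iterate_succ_apply', ih]
    unfold dbm
    rw [← two_nsmul, smul_smul, pow_succ, mul_comm]

theorem dbm_exact (m : ℕ) (U : Set (Fin m → UnitAddCircle)) (hU : IsOpen U) (hn : U.Nonempty) :
    ∃ k : ℕ, (dbm m)^[k] '' U = univ := by
  obtain ⟨y₀, hy₀⟩ := hn
  obtain ⟨η, hη, hball⟩ := Metric.isOpen_iff.1 hU y₀ hy₀
  obtain ⟨n, hn⟩ := exists_pow_lt_of_lt_one hη (show (1 / 2 : ℝ) < 1 by norm_num)
  refine ⟨n, ?_⟩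
  rw [Set.eq_univ_iff_forall]
  intro y₁
  have h1 : ∀ i, ∃ t : ℝ, t ∈ Set.Ico (0 : ℝ) 1 ∧
      ((t : ℝ) : UnitAddCircle) = y₁ i - (2 ^ n) • y₀ i := by
    intro i
    obtain ⟨t, ht, ht2⟩ := (AddCircle.coe_image_Ico_eq (1 : ℝ) 0).symm ▸
      Set.mem_univ (y₁ i - (2 ^ n) • y₀ i)
    refine ⟨t, ?_, ht2⟩
    simpa using ht
  choose t ht ht2 using h1
  refine ⟨fun i => y₀ i + ((t i / 2 ^ n : ℝ) : UnitAddCircle), hball ?_, ?_⟩
  · rw [Metric.mem_ball, dist_pi_lt_iff hη]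
    intro i
    rw [dist_eq_norm, add_sub_cancel_left]
    have h2 : ‖((t i / 2 ^ n : ℝ) : UnitAddCircle)‖ ≤ ‖(t i / 2 ^ n : ℝ)‖ :=
      QuotientAddGroup.norm_mk_le_norm
    refine h2.trans_lt (lt_of_le_of_lt ?_ hn)
    rw [Real.norm_eq_abs, abs_of_nonneg (div_nonneg (ht i).1 (by positivity)), one_div, inv_pow,
      div_eq_mul_inv]
    have h3 : (0 : ℝ) ≤ (2 ^ n)⁻¹ := by positivity
    nlinarith [(ht i).2]
  · rw [c13_iter]
    funext i
    simp only [Pi.smul_apply, smul_add]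
    rw [← AddCircle.coe_nsmul, nsmul_eq_mul]
    have h4 : ((2 ^ n : ℕ) : ℝ) * (t i / 2 ^ n) = t i := by
      push_cast
      field_simp
    rw [h4, ht2]
    abel

theorem ind_fib (m : ℕ) (D2 : Y2 → Y2) (hD2 : ∀ y, D2 (pr2 y) = pr2 (CI.DD y)) :
    IND (Prod.map D2 (dbm m)) :=
  (ind_D2 D2 hD2).prod (ind_of_exact (dbm_surj m) (dbm_exact m))

end CI48
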