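import Pool.Agent.LibCI48.TDefs
import Pool.Agent.LibCI87.Interface

/-!
# CI48, block C: the base `X3 = T^3` and the descent from lifts: definitions

The objects `CI.*` are those of `LibCI87/Defs.lean`; their properties are in
`LibCI87/Interface.lean` (may be cited).
-/

set_option autoImplicit false

namespace CI48

open CPE48 Set Function Filter Topology

/-- the base -/
abbrev X3 : Type := (UnitAddCircle × UnitAddCircle) × UnitAddCircle

/-- the first part of the fibre -/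
abbrev Y2 : Type := UnitAddCircle × UnitAddCircle

/-- projections from the lifts -/
def pr2 (y : ℝ × ℝ) : Y2 := ((y.1 : UnitAddCircle), (y.2 : UnitAddCircle))

def pr3 (c : CI.E3) : X3 :=
  (((c.1.1 : UnitAddCircle), (c.1.2 : UnitAddCircle)), (c.2 : UnitAddCircle))

def pr5 (z : CI.E5) : X3 × Y2 := (pr3 z.1, pr2 z.2)

/-- integer vectors -/
def z3 (i j k : ℤ) : CI.E3 := (((i : ℝ), (j : ℝ)), (k : ℝ))

/-- `YY P x n` is the `y` with `NN (x, y) = n` -/
noncomputable def YY (P : CI.Par) (x n : ℝ) : ℝ := (CI.NN_surj P x n).choose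

/-- the linear flow on `X3` -/
noncomputable def rho (P : CI.Par) (u : ℝ) (c : X3) : X3 :=
  ((c.1.1 + (u : UnitAddCircle), c.1.2 + ((P.al * u : ℝ) : UnitAddCircle)),
    c.2 + ((P.be * u : ℝ) : UnitAddCircle))

/-- the leaf of `0` times the circle: position `x`, phase `η` -/
noncomputable def EL (P : CI.Par) (x η : ℝ) : X3 := pr3 ((x, YY P x 0), η + P.be * x)

/-- the motion on the leaf of `0` -/
noncomputable def fxL (P : CI.Par) (t x : ℝ) : ℝ := (CI.phi P t (x, YY P x 0)).1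

/-- `V` is the speed function in straightened coordinates -/
def IsV (P : CI.Par) (V : X3 → ℝ) : Prop :=
  ∀ c : CI.E3, V (pr3 c) = CI.VV P (c.1.1, YY P c.1.1 (c.1.2 - P.al * c.1.1))

/-- `Φ` is the flow on the torus -/
def IsPhi (P : CI.Par) (Φ : ℝ → X3 → X3) : Prop :=
  IsFlow Φ ∧ ∀ t c, Φ t (pr3 c) = pr3 (CI.Phi P t c)

/-- the interface for the displacement functions `q l = CI.per (CI.qf P l (ε l))` -/
structure QD (P : CI.Par) (ε : ℕ → ℝ) : Prop where
  cont : ∀ l, Continuous (CI.per (CI.qf P l (ε l)))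
  bound : ∀ l z, |CI.per (CI.qf P l (ε l)) z| ≤ 2 * CI.dL l
  disj : ∀ l l' c c' y, CI.per (CI.qf P l (ε l)) (c, y) ≠ 0 →
    CI.per (CI.qf P l' (ε l')) (c', y) ≠ 0 → l = l'
  eq : ∀ l c y u v, u < v →
    v - CI.per (CI.qf P l (ε l)) (CI.Phi P v c, y) ≤
      u - CI.per (CI.qf P l (ε l)) (CI.Phi P u c, y) →
    ∃ w : CI.Z5, y + (CI.sh w).2 = (0, CI.jL l) ∧
      CI.ArcL P l (CI.Phi P u c + (CI.sh w).1) (CI.Phi P v c + (CI.sh w).1)
  col : ∀ l c c', CI.ArcL P l c c' →
    CI.Phi P (-(CI.per (CI.qf P l (ε l)) (c, (0, CI.jL l)))) c =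
      CI.Phi P (-(CI.per (CI.qf P l (ε l)) (c', (0, CI.jL l)))) c'

end CI48
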