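import Pool.Agent.LibCI48.DDefs

/-! TASK D1.  Elementary facts on `Dt`, `Di`. -/

set_option autoImplicit false

namespace CI48

open CPE48 Set Function Filter Topology

variable {f h : ℝ → ℝ}

theorem d1_int {f : ℝ → ℝ} (hf : ∀ x, f (x + 1) = f x + 1) (x : ℝ) (n : ℤ) :
    f (x + n) = f x + n := by
  induction n using Int.induction_on with
  | zero => simp
  | succ n ih =>
    push_cast
    rw [← add_assoc, hf]
    push_cast at ih
    rw [ih]
    ring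
  | pred n ih =>
    have h1 := hf (x + ((-(n : ℤ) - 1 : ℤ) : ℝ))
    have h2 : x + ((-(n : ℤ) - 1 : ℤ) : ℝ) + 1 = x + ((-(n : ℤ) : ℤ) : ℝ) := by
      push_cast
      ring
    rw [h2, ih] at h1
    push_cast at h1 ⊢
    linarith

theorem FH.fint (H : FH f h) (x : ℝ) (n : ℤ) : f (x + n) = f x + n := d1_int H.fper x n

theorem FH.hint (H : FH f h) (x : ℝ) (n : ℤ) : h (x + n) = h x + n := d1_int H.hper x n

theorem Dt_cont (H : FH f h) : Continuous (Dt f h) := by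
  have h1 : Continuous (fun p : ℝ × ℝ => p.1 + f p.2) :=
    continuous_fst.add (H.fc.comp continuous_snd)
  exact h1.prodMk (continuous_snd.add (H.hc.comp h1))

theorem Di_cont (H : FH f h) : Continuous (Di f h) := by
  have h1 : Continuous (fun p : ℝ × ℝ => p.2 - h p.1) :=
    continuous_snd.sub (H.hc.comp continuous_fst)
  exact (continuous_fst.sub (H.fc.comp h1)).prodMk h1

theorem Dt_Di (f h : ℝ → ℝ) (p : ℝ × ℝ) : Dt f h (Di f h p) = p := by
  simp [Dt, Di]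

theorem Di_Dt (f h : ℝ → ℝ) (p : ℝ × ℝ) : Di f h (Dt f h p) = p := by
  simp [Dt, Di]

theorem Dt_mono (H : FH f h) : Monotone (Dt f h) := by
  intro p q hpq
  have h1 : f p.2 ≤ f q.2 := H.fmono hpq.2
  have h2 : p.1 + f p.2 ≤ q.1 + f q.2 := add_le_add hpq.1 h1
  exact ⟨h2, add_le_add hpq.2 (H.hstrict.monotone h2)⟩

theorem Dt_ext (H : FH f h) {p q : ℝ × ℝ} (hpq : p ≤ q) :
    q.1 - p.1 ≤ (Dt f h q).1 - (Dt f h p).1 ∧ q.2 - p.2 ≤ (Dt f h q).2 - (Dt f h p).2 := by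
  have h1 : f p.2 ≤ f q.2 := H.fmono hpq.2
  have h2 : p.1 + f p.2 ≤ q.1 + f q.2 := add_le_add hpq.1 h1
  have h3 : h (p.1 + f p.2) ≤ h (q.1 + f q.2) := H.hstrict.monotone h2
  constructor
  · show q.1 - p.1 ≤ (q.1 + f q.2) - (p.1 + f p.2)
    linarith
  · show q.2 - p.2 ≤ (q.2 + h (q.1 + f q.2)) - (p.2 + h (p.1 + f p.2))
    linarith

theorem Dt_iter_ext (H : FH f h) {p q : ℝ × ℝ} (hpq : p ≤ q) (n k : ℕ) :
    ((Dt f h)^[n] q).1 - ((Dt f h)^[n] p).1 ≤ ((Dt f h)^[n + k] q).1 - ((Dt f h)^[n + k] p).1 ∧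
    ((Dt f h)^[n] q).2 - ((Dt f h)^[n] p).2 ≤ ((Dt f h)^[n + k] q).2 - ((Dt f h)^[n + k] p).2 := by
  induction k with
  | zero => exact ⟨le_refl _, le_refl _⟩
  | succ k ih =>
    have h1 : (Dt f h)^[n + k] p ≤ (Dt f h)^[n + k] q := (Dt_mono H).iterate _ hpq
    have h2 := Dt_ext H h1
    rw [← add_assoc, Function.iterate_succ_apply', Function.iterate_succ_apply']
    exact ⟨ih.1.trans h2.1, ih.2.trans h2.2⟩

theorem Dt_add (H : FH f h) (p : ℝ × ℝ) (i j : ℤ) :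
    Dt f h (p + zz i j) = Dt f h p + zz (i + j) (i + 2 * j) := by
  have h1 : f (p.2 + j) = f p.2 + j := H.fint p.2 j
  have h2 : p.1 + i + f (p.2 + j) = p.1 + f p.2 + ((i + j : ℤ) : ℝ) := by
    rw [h1]
    push_cast
    ring
  refine Prod.ext ?_ ?_
  · show p.1 + i + f (p.2 + j) = p.1 + f p.2 + ((i + j : ℤ) : ℝ)
    exact h2
  · show p.2 + j + h (p.1 + i + f (p.2 + j)) = p.2 + h (p.1 + f p.2) + ((i + 2 * j : ℤ) : ℝ)
    rw [h2, H.hint]
    push_cast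
    ring

theorem Dt_iter_add (H : FH f h) (n : ℕ) (i j : ℤ) :
    ∃ i' j' : ℤ, ∀ p : ℝ × ℝ, (Dt f h)^[n] (p + zz i j) = (Dt f h)^[n] p + zz i' j' := by
  induction n with
  | zero => exact ⟨i, j, fun p => rfl⟩
  | succ n ih =>
    obtain ⟨i', j', h1⟩ := ih
    refine ⟨i' + j', i' + 2 * j', fun p => ?_⟩
    rw [Function.iterate_succ_apply', Function.iterate_succ_apply', h1, Dt_add H]

end CI48
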