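import Pool.Agent.LibCI48.D1

/-! TASK D2 (MEDIUM, ~90 lines).  Growth of increasing pairs with positive first extent, forwards;
and of decreasing pairs, backwards.

* `h_inc`: for `c > 0` there is `δ > 0` with `h (x + c') - h x ≥ δ` for all `x` and `c' ≥ c`:
  `x ↦ h (x + c) - h x` is continuous, 1-periodic and positive; its minimum on `[0, 1]`
  (`IsCompact.exists_isMinOn`), reduce to `Int.fract x` by `hint`; then monotonicity.
* `f_inc`: if `y - x ≥ n` then `f y - f x ≥ n` (`n : ℕ`): `f (x + n) = f x + n`, monotone.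
* `grow1`: let `c = q.1 - p.1 > 0`, `δ` from `h_inc`.  First extents are `≥ c` for all `n`
  (`Dt_iter_ext`), so the second extent grows by at least `δ` at each step
  (`(Dt q).2 - (Dt p).2 = (q.2 - p.2) + (h (Dt q).1 - h (Dt p).1)`).  So it is `≥ 1` for `n ≥ n₁`, and then
  the first extent grows by at least `1` at each step.  Choose `n` with both `≥ L`.
* `grow_back`: the same for `Di` and pairs `p.1 ≤ q.1`, `q.2 ≤ p.2`: `e₁ = q.1 - p.1`,
  `e₂ = p.2 - q.2`; `(Di p).2 - (Di q).2 = e₂ + (h q.1 - h p.1)`,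
  `(Di q).1 - (Di p).1 = e₁ + (f ((Di p).2) - f ((Di q).2))` (with `(Di p).2 = p.2 - h p.1`).
-/

set_option autoImplicit false

namespace CI48

open CPE48 Set Function Filter Topology

variable {f h : ℝ → ℝ}

theorem h_inc (H : FH f h) (c : ℝ) (hc : 0 < c) :
    ∃ δ : ℝ, 0 < δ ∧ ∀ x y, c ≤ y - x → δ ≤ h y - h x := by
  have hcont : ContinuousOn (fun x => h (x + c) - h x) (Icc (0:ℝ) 1) :=
    ((H.hc.comp (continuous_id.add continuous_const)).sub H.hc).continuousOn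
  obtain ⟨x0, -, hx0⟩ := isCompact_Icc.exists_isMinOn (nonempty_Icc.2 (zero_le_one' ℝ)) hcont
  refine ⟨h (x0 + c) - h x0, by linarith [H.hstrict (show x0 < x0 + c by linarith)], ?_⟩
  intro x y hxy
  have h1 : Int.fract x ∈ Icc (0:ℝ) 1 := ⟨Int.fract_nonneg x, (Int.fract_lt_one x).le⟩
  have h2 : h (x0 + c) - h x0 ≤ h (Int.fract x + c) - h (Int.fract x) := hx0 h1
  have h3 : h x = h (Int.fract x) + ⌊x⌋ := by
    have := H.hint (Int.fract x) ⌊x⌋
    rwa [Int.fract_add_floor] at this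
  have h4 : h (x + c) = h (Int.fract x + c) + ⌊x⌋ := by
    have h5 := H.hint (Int.fract x + c) ⌊x⌋
    have h6 : Int.fract x + c + ⌊x⌋ = x + c := by
      have := Int.fract_add_floor x
      linarith
    rwa [h6] at h5
  have h5 : h (x + c) ≤ h y := H.hstrict.monotone (by linarith)
  linarith

theorem f_inc (H : FH f h) (n : ℕ) (x y : ℝ) (hxy : (n : ℝ) ≤ y - x) : (n : ℝ) ≤ f y - f x := by
  have h1 := H.fint x (n : ℤ)
  have h2 : f (x + ((n : ℤ) : ℝ)) ≤ f y := H.fmono (by push_cast; linarith)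
  push_cast at h1 h2
  linarith

/-- abstract growth of two sequences -/
theorem D2_seq (a b : ℕ → ℝ) (δ : ℝ) (hδ : 0 < δ) (ha0 : 0 ≤ a 0) (hb0 : 0 ≤ b 0)
    (hb : ∀ n, b n + δ ≤ b (n + 1)) (ha : ∀ n, a n ≤ a (n + 1))
    (ha1 : ∀ n, 1 ≤ b n → a n + 1 ≤ a (n + 1)) (L : ℝ) :
    ∃ n₀ : ℕ, ∀ n, n₀ ≤ n → L ≤ a n ∧ L ≤ b n := by
  have hbn : ∀ n : ℕ, (n : ℝ) * δ ≤ b n := by
    intro n
    induction n with
    | zero => simpa using hb0
    | succ n ih =>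
      have := hb n
      push_cast
      linarith
  have ham : Monotone a := monotone_nat_of_le_succ ha
  obtain ⟨n1, hn1⟩ := exists_nat_ge (1 / δ)
  have hn1' : 1 ≤ (n1 : ℝ) * δ := by
    rw [div_le_iff₀ hδ] at hn1
    exact hn1
  have hb1 : ∀ n, n1 ≤ n → 1 ≤ b n := by
    intro n hn
    have h1 := hbn n
    have h2 : (n1 : ℝ) ≤ n := by exact_mod_cast hn
    nlinarith
  have han : ∀ k : ℕ, (k : ℝ) ≤ a (n1 + k) := by
    intro k
    induction k with
    | zero =>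
      have := ham (Nat.zero_le (n1 + 0))
      push_cast
      linarith
    | succ k ih =>
      have h1 := ha1 (n1 + k) (hb1 _ (by omega))
      have h2 : n1 + (k + 1) = n1 + k + 1 := by omega
      rw [h2]
      push_cast
      linarith
  obtain ⟨k, hk⟩ := exists_nat_ge L
  obtain ⟨n2, hn2⟩ := exists_nat_ge (L / δ)
  refine ⟨n1 + k + n2, fun n hn => ⟨?_, ?_⟩⟩
  · have h1 := han k
    have h2 : a (n1 + k) ≤ a n := ham (by omega)
    linarith
  · have h1 := hbn n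
    rw [div_le_iff₀ hδ] at hn2
    have h2 : (n2 : ℝ) ≤ n := by exact_mod_cast (by omega : n2 ≤ n)
    nlinarith

theorem grow1 (H : FH f h) (p q : ℝ × ℝ) (hpq : p ≤ q) (h1 : p.1 < q.1) (L : ℝ) :
    ∃ n : ℕ, L ≤ ((Dt f h)^[n] q).1 - ((Dt f h)^[n] p).1 ∧
      L ≤ ((Dt f h)^[n] q).2 - ((Dt f h)^[n] p).2 := by
  obtain ⟨δ, hδ, hδ'⟩ := h_inc H (q.1 - p.1) (by linarith)
  have hle : ∀ n, (Dt f h)^[n] p ≤ (Dt f h)^[n] q := fun n => (Dt_mono H).iterate n hpq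
  have he1 : ∀ n, q.1 - p.1 ≤ ((Dt f h)^[n] q).1 - ((Dt f h)^[n] p).1 := by
    intro n
    have := (Dt_iter_ext H hpq 0 n).1
    rw [Nat.zero_add] at this
    exact this
  have hq : ∀ (n : ℕ) (r : ℝ × ℝ), (Dt f h)^[n + 1] r = Dt f h ((Dt f h)^[n] r) :=
    fun n r => Function.iterate_succ_apply' _ _ _
  obtain ⟨n₀, hn₀⟩ := D2_seq (fun n => ((Dt f h)^[n] q).1 - ((Dt f h)^[n] p).1)
    (fun n => ((Dt f h)^[n] q).2 - ((Dt f h)^[n] p).2) δ hδ
    (by show 0 ≤ q.1 - p.1; linarith) (by show 0 ≤ q.2 - p.2; linarith [hpq.2])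
    (fun n => by
      have h2 := hδ' _ _ (he1 (n + 1))
      have h3 : ((Dt f h)^[n + 1] q).2 = ((Dt f h)^[n] q).2 + h ((Dt f h)^[n + 1] q).1 := by
        rw [hq]; rfl
      have h4 : ((Dt f h)^[n + 1] p).2 = ((Dt f h)^[n] p).2 + h ((Dt f h)^[n + 1] p).1 := by
        rw [hq]; rfl
      show ((Dt f h)^[n] q).2 - ((Dt f h)^[n] p).2 + δ ≤
        ((Dt f h)^[n + 1] q).2 - ((Dt f h)^[n + 1] p).2
      rw [h3, h4]
      linarith)
    (fun n => (Dt_iter_ext H hpq n 1).1)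
    (fun n hn => by
      have h2 := f_inc H 1 ((Dt f h)^[n] p).2 ((Dt f h)^[n] q).2 (by push_cast; exact hn)
      have h3 : ((Dt f h)^[n + 1] q).1 = ((Dt f h)^[n] q).1 + f ((Dt f h)^[n] q).2 := by
        rw [hq]; rfl
      have h4 : ((Dt f h)^[n + 1] p).1 = ((Dt f h)^[n] p).1 + f ((Dt f h)^[n] p).2 := by
        rw [hq]; rfl
      show ((Dt f h)^[n] q).1 - ((Dt f h)^[n] p).1 + 1 ≤
        ((Dt f h)^[n + 1] q).1 - ((Dt f h)^[n + 1] p).1
      rw [h3, h4]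
      push_cast at h2
      linarith) L
  exact ⟨n₀, hn₀ n₀ le_rfl⟩

theorem grow_back (H : FH f h) (p q : ℝ × ℝ) (h1 : p.1 < q.1) (h2 : q.2 ≤ p.2) (L : ℝ) :
    ∃ n₀ : ℕ, ∀ n, n₀ ≤ n → L ≤ ((Di f h)^[n] q).1 - ((Di f h)^[n] p).1 ∧
      L ≤ ((Di f h)^[n] p).2 - ((Di f h)^[n] q).2 := by
  obtain ⟨δ, hδ, hδ'⟩ := h_inc H (q.1 - p.1) (by linarith)
  have hq : ∀ (n : ℕ) (r : ℝ × ℝ), (Di f h)^[n + 1] r = Di f h ((Di f h)^[n] r) :=
    fun n r => Function.iterate_succ_apply' _ _ _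
  have s2 : ∀ (n : ℕ) (r : ℝ × ℝ), ((Di f h)^[n + 1] r).2 =
      ((Di f h)^[n] r).2 - h ((Di f h)^[n] r).1 := fun n r => by rw [hq]; rfl
  have s1 : ∀ (n : ℕ) (r : ℝ × ℝ), ((Di f h)^[n + 1] r).1 =
      ((Di f h)^[n] r).1 - f ((Di f h)^[n + 1] r).2 := fun n r => by rw [s2, hq]; rfl
  have hinv : ∀ n, q.1 - p.1 ≤ ((Di f h)^[n] q).1 - ((Di f h)^[n] p).1 ∧
      ((Di f h)^[n] q).2 ≤ ((Di f h)^[n] p).2 := by
    intro n
    induction n with
    | zero => exact ⟨le_rfl, h2⟩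
    | succ n ih =>
      have h3 := hδ' _ _ ih.1
      have h4 : ((Di f h)^[n + 1] q).2 ≤ ((Di f h)^[n + 1] p).2 := by
        rw [s2, s2]
        linarith [ih.2]
      refine ⟨?_, h4⟩
      have h5 := H.fmono h4
      rw [s1 n q, s1 n p]
      linarith [ih.1]
  exact D2_seq (fun n => ((Di f h)^[n] q).1 - ((Di f h)^[n] p).1)
    (fun n => ((Di f h)^[n] p).2 - ((Di f h)^[n] q).2) δ hδ
    (by show 0 ≤ q.1 - p.1; linarith) (by show 0 ≤ p.2 - q.2; linarith)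
    (fun n => by
      have h3 := hδ' _ _ (hinv n).1
      show ((Di f h)^[n] p).2 - ((Di f h)^[n] q).2 + δ ≤
        ((Di f h)^[n + 1] p).2 - ((Di f h)^[n + 1] q).2
      rw [s2, s2]
      linarith)
    (fun n => by
      have h5 := H.fmono (hinv (n + 1)).2
      show ((Di f h)^[n] q).1 - ((Di f h)^[n] p).1 ≤
        ((Di f h)^[n + 1] q).1 - ((Di f h)^[n + 1] p).1
      rw [s1 n q, s1 n p]
      linarith)
    (fun n hn => by
      have h3 := hδ' _ _ (hinv n).1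
      have h4 : ((1 : ℕ) : ℝ) ≤ ((Di f h)^[n + 1] p).2 - ((Di f h)^[n + 1] q).2 := by
        rw [s2, s2]
        push_cast
        have hn' : 1 ≤ ((Di f h)^[n] p).2 - ((Di f h)^[n] q).2 := hn
        linarith
      have h5 := f_inc H 1 _ _ h4
      push_cast at h5
      show ((Di f h)^[n] q).1 - ((Di f h)^[n] p).1 + 1 ≤
        ((Di f h)^[n + 1] q).1 - ((Di f h)^[n + 1] p).1
      rw [s1 n q, s1 n p]
      linarith) L

end CI48
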