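import Pool.Agent.LibCI48.D2

/-! TASK D3 (MEDIUM, ~90 lines).  Growth of all increasing pairs which do not lie on a line
`y₁ = integer`.

`grow`: if the first extent is positive for some `n`, use `grow1` for the pair
`(Dt^[n] p, Dt^[n] q)` (they are ordered by `Dt_mono`) and `Function.iterate_add_apply`.  Otherwise
`(Dt^[n] p).1 = (Dt^[n] q).1 =: x n` for all `n`; then `p.2 < q.2` and the second extent is constant
`= q.2 - p.2 > 0`, and `f ((Dt^[n] p).2) = f ((Dt^[n] q).2)` for all `n` (as the first extent stays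
`0`).  By `fstrict`, `fper`, monotonicity: a nondegenerate interval `[s, t]` with `f s = f t` lies in
`[k - 1/8, k + 1/8]` for the integer `k = f s` (`f_flat`; if `s` or `t` is outside all these intervals,
i.e. in the interior `(k + 1/8, k + 7/8)`, strict monotonicity near it gives `f s < f t`).
So with `s n = (Dt^[n] p).2`: `|s n - k n| ≤ 1/8`, `k n = f (s n)` an integer, `x (n+1) = x n + k n`, so
`x n = x 0 + integer`, `s (n + 1) = s n + h (x (n + 1)) = s n + ρ + integer` with `ρ = h (x 0)`.  `ρ` is not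
an integer (if `h (x 0) = m = h m` then `x 0 = m` by `hstrict`; excluded by hypothesis).  Put
`a n = s n - k n ∈ [-1/8, 1/8]`: `a (n + 1) - a n = ρ + integer ∈ [-1/4, 1/4]`, so this difference is
always the same number `σ = ρ + integer ≠ 0` (two such numbers differ by an integer of absolute value
`≤ 1/2`), `a n = a 0 + n σ` is unbounded: contradiction.
-/

set_option autoImplicit false

namespace CI48

open CPE48 Set Function Filter Topology

variable {f h : ℝ → ℝ}

theorem f_flat (H : FH f h) (s t : ℝ) (hst : s < t) (he : f s = f t) :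
    ∃ k : ℤ, f s = k ∧ |s - k| ≤ 1 / 8 ∧ |t - k| ≤ 1 / 8 := by
  obtain ⟨k, hk⟩ : ∃ k : ℤ, k = ⌊s + 1 / 8⌋ := ⟨_, rfl⟩
  have hk1 : (k : ℝ) ≤ s + 1 / 8 := by rw [hk]; exact Int.floor_le _
  have hk2 : s + 1 / 8 < k + 1 := by rw [hk]; exact Int.lt_floor_add_one _
  have hfs : f s = f (s - k) + k := by
    have := H.fint (s - k) k
    rwa [sub_add_cancel] at this
  have hft : f t = f (t - k) + k := by
    have := H.fint (t - k) k
    rwa [sub_add_cancel] at this
  have hss : s - k < 1 / 8 := by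
    by_contra hcon
    have hcon' : 1 / 8 ≤ s - k := not_lt.1 hcon
    have h1 : f (s - k) < f (min (t - k) (7 / 8)) :=
      H.fstrict ⟨hcon', by linarith⟩
        ⟨le_min (by linarith) (by norm_num), min_le_right _ _⟩
        (lt_min (by linarith) (by linarith))
    have h2 : f (min (t - k) (7 / 8)) ≤ f (t - k) := H.fmono (min_le_left _ _)
    linarith
  have htt : t - k ≤ 1 / 8 := by
    by_contra hcon
    have hcon' : 1 / 8 < t - k := not_le.1 hcon
    have h1 : f (1 / 8) < f (min (t - k) (7 / 8)) :=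
      H.fstrict ⟨le_rfl, by norm_num⟩
        ⟨le_min hcon'.le (by norm_num), min_le_right _ _⟩
        (lt_min hcon' (by norm_num))
    have h2 : f (min (t - k) (7 / 8)) ≤ f (t - k) := H.fmono (min_le_left _ _)
    have h3 : f (s - k) ≤ f (1 / 8) := H.fmono hss.le
    linarith
  have hz : f (s - k) = 0 := H.fzero _ ⟨by linarith, hss.le⟩
  refine ⟨k, by rw [hfs, hz, zero_add], ?_, ?_⟩
  · rw [abs_le]; constructor <;> linarith
  · rw [abs_le]; constructor <;> linarith

theorem grow (H : FH f h) (p q : ℝ × ℝ) (hpq : p ≤ q) (hne : p ≠ q)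
    (hz : ¬ (p.1 = q.1 ∧ ∃ k : ℤ, p.1 = k)) (L : ℝ) :
    ∃ n : ℕ, L ≤ ((Dt f h)^[n] q).1 - ((Dt f h)^[n] p).1 ∧
      L ≤ ((Dt f h)^[n] q).2 - ((Dt f h)^[n] p).2 := by
  have hle : ∀ n, (Dt f h)^[n] p ≤ (Dt f h)^[n] q := fun n => (Dt_mono H).iterate n hpq
  by_cases hA : ∃ n, ((Dt f h)^[n] p).1 < ((Dt f h)^[n] q).1
  · obtain ⟨n, hn⟩ := hA
    obtain ⟨m, hm⟩ := grow1 H _ _ (hle n) hn L
    refine ⟨m + n, ?_⟩
    rw [Function.iterate_add_apply, Function.iterate_add_apply]
    exact hm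
  exfalso
  have hB : ∀ n, ((Dt f h)^[n] p).1 = ((Dt f h)^[n] q).1 := by
    intro n
    refine le_antisymm (hle n).1 (not_lt.1 fun hn => hA ⟨n, hn⟩)
  have hit : ∀ (n : ℕ) (r : ℝ × ℝ), (Dt f h)^[n + 1] r = Dt f h ((Dt f h)^[n] r) :=
    fun n r => Function.iterate_succ_apply' _ _ _
  have s1 : ∀ (n : ℕ) (r : ℝ × ℝ), ((Dt f h)^[n + 1] r).1 =
      ((Dt f h)^[n] r).1 + f ((Dt f h)^[n] r).2 := fun n r => by rw [hit]; rfl
  have s2 : ∀ (n : ℕ) (r : ℝ × ℝ), ((Dt f h)^[n + 1] r).2 =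
      ((Dt f h)^[n] r).2 + h ((Dt f h)^[n + 1] r).1 := fun n r => by rw [hit]; rfl
  have h00 : p.1 = q.1 := hB 0
  have hp2 : p.2 < q.2 := by
    refine lt_of_le_of_ne hpq.2 fun h2 => hne (Prod.ext h00 h2)
  have hst : ∀ n, ((Dt f h)^[n] p).2 < ((Dt f h)^[n] q).2 := by
    intro n
    have := (Dt_iter_ext H hpq 0 n).2
    rw [Nat.zero_add] at this
    have h3 : q.2 - p.2 ≤ ((Dt f h)^[n] q).2 - ((Dt f h)^[n] p).2 := this
    linarith
  have hff : ∀ n, f ((Dt f h)^[n] p).2 = f ((Dt f h)^[n] q).2 := by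
    intro n
    have h1 := hB (n + 1)
    rw [s1, s1, hB n] at h1
    linarith
  have hk : ∀ n, ∃ k : ℤ, f ((Dt f h)^[n] p).2 = k ∧ |((Dt f h)^[n] p).2 - k| ≤ 1 / 8 := by
    intro n
    obtain ⟨k, h1, h2, -⟩ := f_flat H _ _ (hst n) (hff n)
    exact ⟨k, h1, h2⟩
  choose k hk1 hk2 using hk
  -- positions
  have hx : ∀ n, ∃ N : ℤ, ((Dt f h)^[n] p).1 = p.1 + N := by
    intro n
    induction n with
    | zero => exact ⟨0, by simp⟩
    | succ n ih =>
      obtain ⟨N, hN⟩ := ih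
      refine ⟨N + k n, ?_⟩
      rw [s1, hk1, hN]
      push_cast
      ring
  choose N hN using hx
  -- increments
  have hM : ∀ n, ∃ M : ℤ, (((Dt f h)^[n + 1] p).2 - k (n + 1)) - (((Dt f h)^[n] p).2 - k n) =
      h p.1 + M := by
    intro n
    refine ⟨N (n + 1) - k (n + 1) + k n, ?_⟩
    rw [s2 n p, hN (n + 1), H.hint]
    push_cast
    ring
  choose M hM' using hM
  have hb : ∀ n, |h p.1 + M n| ≤ 1 / 4 := by
    intro n
    rw [← hM' n]
    have h1 := abs_le.1 (hk2 (n + 1))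
    have h2 := abs_le.1 (hk2 n)
    rw [abs_le]
    constructor <;> linarith
  have hMeq : ∀ n, M n = M 0 := by
    intro n
    have h1 := abs_le.1 (hb n)
    have h2 := abs_le.1 (hb 0)
    have h3 : ((M n - M 0 : ℤ) : ℝ) < 1 := by push_cast; linarith
    have h4 : (-1 : ℝ) < ((M n - M 0 : ℤ) : ℝ) := by push_cast; linarith
    have h5 : M n - M 0 < 1 := by exact_mod_cast h3
    have h6 : -1 < M n - M 0 := by exact_mod_cast h4
    omega
  have hσ : h p.1 + M 0 ≠ 0 := by
    intro h0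
    have h1 : h ((-(M 0) : ℤ) : ℝ) = ((-(M 0) : ℤ) : ℝ) := by
      have := H.hint 0 (-(M 0))
      rwa [zero_add, H.hzero, zero_add] at this
    have h2 : h p.1 = h ((-(M 0) : ℤ) : ℝ) := by
      rw [h1]; push_cast; linarith
    exact hz ⟨h00, -(M 0), H.hstrict.injective h2⟩
  have han : ∀ n : ℕ, ((Dt f h)^[n] p).2 - k n = (p.2 - k 0) + n * (h p.1 + M 0) := by
    intro n
    induction n with
    | zero => simp
    | succ n ih =>
      have h1 := hM' n
      rw [hMeq n] at h1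
      push_cast
      linarith
  obtain ⟨n, hn⟩ := exists_nat_gt ((1 / 4) / |h p.1 + M 0|)
  have hpos : 0 < |h p.1 + M 0| := abs_pos.2 hσ
  rw [div_lt_iff₀ hpos] at hn
  have h1 : |(n : ℝ) * (h p.1 + M 0)| ≤ 1 / 4 := by
    have h2 := han n
    have h3 := abs_le.1 (hk2 n)
    have h4 : |p.2 - k 0| ≤ 1 / 8 := hk2 0
    have h5 := abs_le.1 h4
    rw [abs_le]
    constructor <;> linarith
  rw [abs_mul, Nat.abs_cast] at h1
  linarith

end CI48
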