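import Pool.Agent.LibCI48.D3

/-! TASK D4.  Uniform growth on a compact set of pairs. -/

set_option autoImplicit false

namespace CI48

open CPE48 Set Function Filter Topology

variable {f h : ℝ → ℝ}

theorem grow_unif (H : FH f h) (K : Set ((ℝ × ℝ) × (ℝ × ℝ))) (hK : IsCompact K)
    (hle : ∀ x ∈ K, x.1 ≤ x.2) (hne : ∀ x ∈ K, x.1 ≠ x.2)
    (hz : ∀ x ∈ K, ¬ (x.1.1 = x.2.1 ∧ ∃ k : ℤ, x.1.1 = k)) (L : ℝ) :
    ∃ n₀ : ℕ, ∀ n, n₀ ≤ n → ∀ x ∈ K, L ≤ ((Dt f h)^[n] x.2).1 - ((Dt f h)^[n] x.1).1 ∧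
      L ≤ ((Dt f h)^[n] x.2).2 - ((Dt f h)^[n] x.1).2 := by
  classical
  have hc : ∀ n : ℕ, Continuous ((Dt f h)^[n]) := fun n => (Dt_cont H).iterate n
  -- one time for every pair
  have hone : ∀ x ∈ K, ∃ n : ℕ, L < ((Dt f h)^[n] x.2).1 - ((Dt f h)^[n] x.1).1 ∧
      L < ((Dt f h)^[n] x.2).2 - ((Dt f h)^[n] x.1).2 := by
    intro x hx
    obtain ⟨n, h1, h2⟩ := grow H x.1 x.2 (hle x hx) (hne x hx) (hz x hx) (L + 1)
    exact ⟨n, by linarith, by linarith⟩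
  choose! N hN using hone
  let V : ((ℝ × ℝ) × (ℝ × ℝ)) → Set ((ℝ × ℝ) × (ℝ × ℝ)) := fun x =>
    {y | L < ((Dt f h)^[N x] y.2).1 - ((Dt f h)^[N x] y.1).1 ∧
      L < ((Dt f h)^[N x] y.2).2 - ((Dt f h)^[N x] y.1).2}
  have hVo : ∀ x, IsOpen (V x) := by
    intro x
    have h1 : Continuous (fun y : (ℝ × ℝ) × (ℝ × ℝ) =>
        ((Dt f h)^[N x] y.2).1 - ((Dt f h)^[N x] y.1).1) :=
      (continuous_fst.comp ((hc (N x)).comp continuous_snd)).sub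
        (continuous_fst.comp ((hc (N x)).comp continuous_fst))
    have h2 : Continuous (fun y : (ℝ × ℝ) × (ℝ × ℝ) =>
        ((Dt f h)^[N x] y.2).2 - ((Dt f h)^[N x] y.1).2) :=
      (continuous_snd.comp ((hc (N x)).comp continuous_snd)).sub
        (continuous_snd.comp ((hc (N x)).comp continuous_fst))
    exact (isOpen_lt continuous_const h1).inter (isOpen_lt continuous_const h2)
  obtain ⟨t, htK, htc⟩ := hK.elim_nhds_subcover V (fun x hx => (hVo x).mem_nhds (hN x hx))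
  refine ⟨t.sup N, fun n hn x hx => ?_⟩
  obtain ⟨z, hz1, hz2⟩ := mem_iUnion₂.1 (htc hx)
  have h3 : N z ≤ n := (Finset.le_sup hz1).trans hn
  obtain ⟨k, rfl⟩ := Nat.exists_eq_add_of_le h3
  have h4 := Dt_iter_ext H (hle x hx) (N z) k
  exact ⟨hz2.1.le.trans h4.1, hz2.2.le.trans h4.2⟩

end CI48
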