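import Pool.Agent.LibCI48.DDefs

/-! TASK D5.  An increasing path crosses a decreasing path.

Proof: the fibre product `R = {(s, t) | P₁ s = Q₁ t}` in the rectangle is compact; the first projection
`R → [a, b]` is a closed surjection with connected fibres, so `R` is connected, and the intermediate
value theorem applies to `P₂ s - Q₂ t` on `R`.
-/

set_option autoImplicit false

namespace CI48

open CPE48 Set Function Filter Topology

theorem cross (P Q : ℝ → ℝ × ℝ) (hP : Continuous P) (hQ : Continuous Q) (hPm : Monotone P)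
    (hQ1 : Monotone (fun t => (Q t).1)) (hQ2 : Antitone (fun t => (Q t).2))
    (a b c d : ℝ) (hab : a ≤ b) (hcd : c ≤ d) (h1 : (P a).1 = (Q c).1) (h2 : (P b).1 = (Q d).1)
    (h3 : (P a).2 ≤ (Q c).2) (h4 : (Q d).2 ≤ (P b).2) :
    ∃ s ∈ Icc a b, ∃ t ∈ Icc c d, P s = Q t := by
  have hP1m : Monotone (fun s => (P s).1) := fun x y hxy => (hPm hxy).1
  have hQ1c : Continuous (fun t => (Q t).1) := continuous_fst.comp hQ
  have hP1c : Continuous (fun s => (P s).1) := continuous_fst.comp hP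
  let R : Set (ℝ × ℝ) := {x | x.1 ∈ Icc a b ∧ x.2 ∈ Icc c d ∧ (P x.1).1 = (Q x.2).1}
  have hRcl : IsClosed {x : ℝ × ℝ | (P x.1).1 = (Q x.2).1} :=
    isClosed_eq (hP1c.comp continuous_fst) (hQ1c.comp continuous_snd)
  have hReq : R = (Icc a b ×ˢ Icc c d) ∩ {x : ℝ × ℝ | (P x.1).1 = (Q x.2).1} := by
    ext x
    simp only [R, mem_setOf_eq, mem_inter_iff, mem_prod]
    tauto
  have hRc : IsCompact R := by
    rw [hReq]
    exact (isCompact_Icc.prod isCompact_Icc).inter_right hRcl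
  have : CompactSpace R := isCompact_iff_compactSpace.1 hRc
  let f : R → Icc a b := fun x => ⟨x.1.1, x.2.1⟩
  have hfc : Continuous f := by
    exact Continuous.subtype_mk (continuous_fst.comp continuous_subtype_val) _
  have hne : ∀ s ∈ Icc a b, ∃ t ∈ Icc c d, (P s).1 = (Q t).1 := by
    intro s hs
    have h5 : (P s).1 ∈ Icc (Q c).1 (Q d).1 :=
      ⟨h1 ▸ hP1m hs.1, h2 ▸ hP1m hs.2⟩
    obtain ⟨t, ht, hte⟩ := intermediate_value_Icc hcd hQ1c.continuousOn h5
    exact ⟨t, ht, hte.symm⟩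
  have hfs : Surjective f := by
    rintro ⟨s, hs⟩
    obtain ⟨t, ht, hte⟩ := hne s hs
    exact ⟨⟨(s, t), hs, ht, hte⟩, rfl⟩
  have hfq : IsQuotientMap f := hfc.isClosedMap.isQuotientMap hfc hfs
  have hfib : ∀ s : Icc a b, IsConnected (f ⁻¹' {s}) := by
    rintro ⟨s, hs⟩
    refine ⟨?_, ?_⟩
    · obtain ⟨x, hx⟩ := hfs ⟨s, hs⟩
      exact ⟨x, hx⟩
    · rw [← IsInducing.subtypeVal.isPreconnected_image]
      have h6 : (Subtype.val '' (f ⁻¹' {(⟨s, hs⟩ : Icc a b)}) : Set (ℝ × ℝ))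
          = (fun t => (s, t)) '' {t | t ∈ Icc c d ∧ (P s).1 = (Q t).1} := by
        ext x
        constructor
        · rintro ⟨y, hy, rfl⟩
          have h7 : y.1.1 = s := congrArg Subtype.val hy
          refine ⟨y.1.2, ⟨y.2.2.1, ?_⟩, ?_⟩
          · rw [← h7]
            exact y.2.2.2
          · rw [← h7]
        · rintro ⟨t, ⟨ht, hte⟩, rfl⟩
          exact ⟨⟨(s, t), hs, ht, hte⟩, rfl, rfl⟩
      rw [h6]
      refine IsPreconnected.image ?_ _ (by fun_prop)
      refine Set.OrdConnected.isPreconnected ⟨?_⟩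
      rintro x ⟨hx, hxe⟩ y ⟨hy, hye⟩ z ⟨hz1, hz2⟩
      refine ⟨⟨hx.1.trans hz1, hz2.trans hy.2⟩, ?_⟩
      have h8 : (Q x).1 ≤ (Q z).1 := hQ1 hz1
      have h9 : (Q z).1 ≤ (Q y).1 := hQ1 hz2
      rw [← hxe] at h8
      rw [← hye] at h9
      exact le_antisymm h8 h9
  have : PreconnectedSpace (Icc a b) := isPreconnected_iff_preconnectedSpace.1 isPreconnected_Icc
  have hconn : IsPreconnected (univ : Set R) := by
    have h10 := IsCoinducing.isConnected_preimage_of_isClosed hfib hfq.isCoinducing isClosed_univ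
      (⟨⟨⟨a, le_refl a, hab⟩, mem_univ _⟩, isPreconnected_univ⟩ : IsConnected (univ : Set (Icc a b)))
    rw [preimage_univ] at h10
    exact h10.isPreconnected
  have hgc : Continuous (fun x : R => (P x.1.1).2 - (Q x.1.2).2) := by
    fun_prop
  have ha : (⟨(a, c), ⟨le_refl a, hab⟩, ⟨le_refl c, hcd⟩, h1⟩ : R) ∈ (univ : Set R) := mem_univ _
  have hb : (⟨(b, d), ⟨hab, le_refl b⟩, ⟨hcd, le_refl d⟩, h2⟩ : R) ∈ (univ : Set R) := mem_univ _
  have h11 := hconn.intermediate_value ha hb hgc.continuousOn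
  have h12 : (0 : ℝ) ∈ Icc ((P a).2 - (Q c).2) ((P b).2 - (Q d).2) := ⟨by linarith, by linarith⟩
  obtain ⟨x, -, hx⟩ := h11 h12
  refine ⟨x.1.1, x.2.1, x.1.2, x.2.2.1, Prod.ext x.2.2.2 ?_⟩
  have h13 : (P x.1.1).2 - (Q x.1.2).2 = 0 := hx
  linarith

end CI48
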