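import Pool.Agent.LibCI48.D5

/-! TASK D6 (MEDIUM, ~110 lines).  Crossing modulo integer vectors.  Use `cross` (D5, stated).

Let `X = (Q d).1 - (Q c).1 ≥ 1` and `K = ⌊X⌋₊ ≥ 1`, so `K ≤ X < K + 1 ≤ 2 K`.  By the intermediate value
theorem there are `c = c 0 ≤ c 1 ≤ … ≤ c K ≤ d` with `(Q (c k)).1 = (Q c).1 + k` and
`d = d 0 ≥ d 1 ≥ … ≥ d K ≥ c` with `(Q (d k)).1 = (Q d).1 - k`.  As `(Q (d K)).1 < (Q (c K)).1`
(`X < 2K`), `d K < c K`, so the two drops `(Q c).2 - (Q (c K)).2` and `(Q (d K)).2 - (Q d).2` have sum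
`≥ (Q c).2 - (Q d).2 ≥ 2`: one of them is `≥ 1`.

So it suffices to prove (`cross_units`): if `C 0 ≤ C 1 ≤ … ≤ C K` with `(Q (C k)).1 = (Q (C 0)).1 + k` for
`k ≤ K`, `K ≥ 1`, and `(Q (C 0)).2 - (Q (C K)).2 ≥ 1` and `(P b).1 - (P a).1 ≥ 2`, then the conclusion holds
[in the second case `C k = d (K - k)`].  Proof: `i : ℤ` with `(P a).1 ≤ (Q (C 0)).1 + i < (P a).1 + 1`
(`Int.ceil`), `a' ∈ [a, b]` with `(P a').1 = (Q (C 0)).1 + i`, `b' ∈ [a', b]` with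
`(P b').1 = (P a').1 + 1`.  The interval from `(P a').2 - (Q (C 0)).2` to `(P b').2 - (Q (C K)).2` has
length `≥ 1`, so it contains an integer `j`.  Let `k < K` be the smallest with
`j ≤ (P b').2 - (Q (C (k + 1))).2` (`Nat.find`; `k = K - 1` works).  Then
`(P a').2 - (Q (C k)).2 ≤ j`: for `k = 0` by the choice of `j`, for `k > 0` since
`j > (P b').2 - (Q (C k)).2 ≥ (P a').2 - (Q (C k)).2`.  Apply `cross` to `P` on `[a', b']` and to
`Q + (i - k, j)` on `[C k, C (k + 1)]`.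
-/

set_option autoImplicit false

namespace CI48

open CPE48 Set Function Filter Topology

private theorem d6_ivt {g : ℝ → ℝ} (hg : Continuous g) {a b y : ℝ} (hab : a ≤ b) (h1 : g a ≤ y)
    (h2 : y ≤ g b) : ∃ x ∈ Icc a b, g x = y := by
  obtain ⟨x, hx, hy⟩ := intermediate_value_Icc hab hg.continuousOn ⟨h1, h2⟩
  exact ⟨x, hx, hy⟩

theorem cross_units (P Q : ℝ → ℝ × ℝ) (hP : Continuous P) (hQ : Continuous Q) (hPm : Monotone P)
    (hQ1 : Monotone (fun t => (Q t).1)) (hQ2 : Antitone (fun t => (Q t).2))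
    (a b : ℝ) (hab : a ≤ b) (hX : 2 ≤ (P b).1 - (P a).1) (K : ℕ) (hK : 1 ≤ K) (C : ℕ → ℝ)
    (hC : ∀ k < K, C k ≤ C (k + 1)) (hC1 : ∀ k ≤ K, (Q (C k)).1 = (Q (C 0)).1 + k)
    (hdrop : 1 ≤ (Q (C 0)).2 - (Q (C K)).2) :
    ∃ s ∈ Icc a b, ∃ t ∈ Icc (C 0) (C K), ∃ i j : ℤ, P s = Q t + zz i j := by
  have hP1c : Continuous fun t => (P t).1 := hP.fst
  obtain ⟨i, hi⟩ : ∃ i : ℤ, i = ⌈(P a).1 - (Q (C 0)).1⌉ := ⟨_, rfl⟩
  have hi1 : (P a).1 - (Q (C 0)).1 ≤ i := by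
    rw [hi]
    exact Int.le_ceil _
  have hi2 : (i : ℝ) < (P a).1 - (Q (C 0)).1 + 1 := by
    rw [hi]
    exact Int.ceil_lt_add_one _
  obtain ⟨a', ha', hPa'⟩ := d6_ivt hP1c hab (y := (Q (C 0)).1 + i) (by linarith) (by linarith)
  have hPa1 : (P a').1 = (Q (C 0)).1 + i := hPa'
  obtain ⟨b', hb', hPb'⟩ := d6_ivt hP1c ha'.2 (y := (P a').1 + 1) (by linarith)
    (by linarith)
  have hPb1 : (P b').1 = (P a').1 + 1 := hPb'
  have hP2 : (P a').2 ≤ (P b').2 := (hPm hb'.1).2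
  obtain ⟨j, hj⟩ : ∃ j : ℤ, j = ⌈(P a').2 - (Q (C 0)).2⌉ := ⟨_, rfl⟩
  have hj1 : (P a').2 - (Q (C 0)).2 ≤ j := by
    rw [hj]
    exact Int.le_ceil _
  have hj2 : (j : ℝ) < (P a').2 - (Q (C 0)).2 + 1 := by
    rw [hj]
    exact Int.ceil_lt_add_one _
  have hex : ∃ k : ℕ, (j : ℝ) ≤ (P b').2 - (Q (C (k + 1))).2 := by
    refine ⟨K - 1, ?_⟩
    rw [Nat.sub_add_cancel hK]
    linarith
  classical
  obtain ⟨k, hkK, hk1, hk2⟩ : ∃ k : ℕ, k < K ∧ (j : ℝ) ≤ (P b').2 - (Q (C (k + 1))).2 ∧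
      (P a').2 - (Q (C k)).2 ≤ j := by
    refine ⟨Nat.find hex, ?_, Nat.find_spec hex, ?_⟩
    · have h1 : Nat.find hex ≤ K - 1 := Nat.find_min' hex (by
        rw [Nat.sub_add_cancel hK]
        linarith)
      omega
    · rcases Nat.eq_zero_or_pos (Nat.find hex) with h0 | h0
      · rw [h0]
        exact hj1
      · have h1 := Nat.find_min hex (m := Nat.find hex - 1) (by omega)
        rw [Nat.sub_add_cancel h0, not_le] at h1
        linarith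
  have hm : ∀ n, n ≤ K → ∀ m, m ≤ n → C m ≤ C n := by
    intro n
    induction n with
    | zero =>
      intro _ m hm
      rw [Nat.le_zero.1 hm]
    | succ n ih =>
      intro hn m hm
      rcases Nat.lt_or_ge m (n + 1) with h1 | h1
      · exact le_trans (ih (by omega) m (by omega)) (hC n (by omega))
      · rw [le_antisymm hm h1]
  have hk : (Q (C k)).1 = (Q (C 0)).1 + k := hC1 k hkK.le
  have hk' : (Q (C (k + 1))).1 = (Q (C 0)).1 + k + 1 := by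
    rw [hC1 (k + 1) hkK]
    push_cast
    ring
  obtain ⟨s, hs, t, ht, hst⟩ := cross P (fun t => Q t + zz (i - k) j) hP
    (hQ.add continuous_const) hPm
    (fun x y hxy => by
      have h1 : (Q x).1 ≤ (Q y).1 := hQ1 hxy
      change (Q x).1 + _ ≤ (Q y).1 + _
      linarith)
    (fun x y hxy => by
      have h1 : (Q y).2 ≤ (Q x).2 := hQ2 hxy
      change (Q y).2 + _ ≤ (Q x).2 + _
      linarith) a' b' (C k) (C (k + 1)) hb'.1 (hC k hkK)
    (by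
      change (P a').1 = (Q (C k)).1 + ((i - k : ℤ) : ℝ)
      push_cast
      linarith)
    (by
      change (P b').1 = (Q (C (k + 1))).1 + ((i - k : ℤ) : ℝ)
      push_cast
      linarith)
    (by
      change (P a').2 ≤ (Q (C k)).2 + (j : ℝ)
      linarith)
    (by
      change (Q (C (k + 1))).2 + (j : ℝ) ≤ (P b').2
      linarith)
  exact ⟨s, ⟨le_trans ha'.1 hs.1, le_trans hs.2 hb'.2⟩, t,
    ⟨le_trans (hm k hkK.le 0 (Nat.zero_le _)) ht.1, le_trans ht.2 (hm K le_rfl (k + 1) hkK)⟩,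
    i - k, j, hst⟩

theorem cross_mod (P Q : ℝ → ℝ × ℝ) (hP : Continuous P) (hQ : Continuous Q) (hPm : Monotone P)
    (hQ1 : Monotone (fun t => (Q t).1)) (hQ2 : Antitone (fun t => (Q t).2))
    (a b c d : ℝ) (hab : a ≤ b) (hcd : c ≤ d) (hX : 2 ≤ (P b).1 - (P a).1)
    (hQX : 1 ≤ (Q d).1 - (Q c).1) (hQY : 2 ≤ (Q c).2 - (Q d).2) :
    ∃ s ∈ Icc a b, ∃ t ∈ Icc c d, ∃ i j : ℤ, P s = Q t + zz i j := by
  have hQ1c : Continuous fun t => (Q t).1 := hQ.fst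
  obtain ⟨K, hK⟩ : ∃ K : ℕ, K = ⌊(Q d).1 - (Q c).1⌋₊ := ⟨_, rfl⟩
  have hK1 : (K : ℝ) ≤ (Q d).1 - (Q c).1 := by
    rw [hK]
    exact Nat.floor_le (by linarith)
  have hK2 : (Q d).1 - (Q c).1 < K + 1 := by
    rw [hK]
    exact Nat.lt_floor_add_one _
  have hK3 : 1 ≤ K := by
    rw [hK]
    exact Nat.le_floor (by exact_mod_cast hQX)
  have hK4 : (1 : ℝ) ≤ K := by exact_mod_cast hK3
  -- the points on the left
  have hl : ∀ k : ℕ, ∃ x, k ≤ K → (x ∈ Icc c d ∧ (Q x).1 = (Q c).1 + k ∧ (k = 0 → x = c)) := by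
    intro k
    by_cases hk : k ≤ K
    · have hk' : (k : ℝ) ≤ K := by exact_mod_cast hk
      rcases Nat.eq_zero_or_pos k with rfl | h0
      · exact ⟨c, fun _ => ⟨⟨le_rfl, hcd⟩, by simp, fun _ => rfl⟩⟩
      · obtain ⟨x, hx, hx1⟩ := d6_ivt hQ1c hcd (y := (Q c).1 + k)
          (by
            have : (0 : ℝ) ≤ k := Nat.cast_nonneg k
            linarith) (by linarith)
        exact ⟨x, fun _ => ⟨hx, hx1, fun h => absurd h h0.ne'⟩⟩
    · exact ⟨0, fun h => absurd h hk⟩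
  have hr : ∀ k : ℕ, ∃ x, k ≤ K → (x ∈ Icc c d ∧ (Q x).1 = (Q d).1 - k ∧ (k = 0 → x = d)) := by
    intro k
    by_cases hk : k ≤ K
    · have hk' : (k : ℝ) ≤ K := by exact_mod_cast hk
      rcases Nat.eq_zero_or_pos k with rfl | h0
      · exact ⟨d, fun _ => ⟨⟨hcd, le_rfl⟩, by simp, fun _ => rfl⟩⟩
      · obtain ⟨x, hx, hx1⟩ := d6_ivt hQ1c hcd (y := (Q d).1 - k) (by linarith)
          (by
            have : (0 : ℝ) ≤ k := Nat.cast_nonneg k
            linarith)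
        exact ⟨x, fun _ => ⟨hx, hx1, fun h => absurd h h0.ne'⟩⟩
    · exact ⟨0, fun h => absurd h hk⟩
  choose C hC using hl
  choose D hD using hr
  have hC0 : C 0 = c := (hC 0 (Nat.zero_le _)).2.2 rfl
  have hD0 : D 0 = d := (hD 0 (Nat.zero_le _)).2.2 rfl
  have hlt : ∀ {x y : ℝ}, (Q x).1 < (Q y).1 → x ≤ y := fun {x y} h => by
    by_contra hc
    have h1 : (Q y).1 ≤ (Q x).1 := hQ1 (le_of_lt (not_le.1 hc))
    linarith
  have hDC : D K ≤ C K := by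
    refine hlt ?_
    rw [(hC K le_rfl).2.1, (hD K le_rfl).2.1]
    linarith
  have hQDC : (Q (C K)).2 ≤ (Q (D K)).2 := hQ2 hDC
  rcases le_or_gt 1 ((Q c).2 - (Q (C K)).2) with h1 | h1
  · obtain ⟨s, hs, t, ht, i, j, h⟩ := cross_units P Q hP hQ hPm hQ1 hQ2 a b hab hX K hK3 C
      (fun k hk => hlt (by
        rw [(hC k hk.le).2.1, (hC (k + 1) hk).2.1]
        push_cast
        linarith))
      (fun k hk => by rw [(hC k hk).2.1, hC0])
      (by rwa [hC0])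
    exact ⟨s, hs, t, ⟨by rw [← hC0]; exact ht.1, le_trans ht.2 (hC K le_rfl).1.2⟩, i, j, h⟩
  · have h2 : 1 ≤ (Q (D K)).2 - (Q d).2 := by linarith
    obtain ⟨s, hs, t, ht, i, j, h⟩ := cross_units P Q hP hQ hPm hQ1 hQ2 a b hab hX K hK3
      (fun k => D (K - k))
      (fun k hk => hlt (by
        rw [(hD (K - k) (Nat.sub_le _ _)).2.1, (hD (K - (k + 1)) (Nat.sub_le _ _)).2.1,
          Nat.cast_sub hk.le, Nat.cast_sub (by omega : k + 1 ≤ K)]
        push_cast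
        linarith))
      (fun k hk => by
        rw [(hD (K - k) (Nat.sub_le _ _)).2.1, (hD (K - 0) (Nat.sub_le _ _)).2.1,
          Nat.cast_sub hk, Nat.sub_zero]
        ring)
      (by
        change 1 ≤ (Q (D (K - 0))).2 - (Q (D (K - K))).2
        rwa [Nat.sub_zero, Nat.sub_self, hD0])
    have ht1 : D (K - 0) ≤ t := ht.1
    have ht2 : t ≤ D (K - K) := ht.2
    rw [Nat.sub_zero] at ht1
    rw [Nat.sub_self, hD0] at ht2
    exact ⟨s, hs, t, ⟨le_trans (hD K le_rfl).1.1 ht1, ht2⟩, i, j, h⟩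

end CI48
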