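import Pool.Agent.LibCI48.D4
import Pool.Agent.LibCI48.D6

/-! TASK D7 (MEDIUM, ~120 lines).  The step of the itinerary.  Use the imported statements.

Let `z b` be the centers and `κ` the size; the boxes of half size `2κ` do not meet the lines
`y₁ = integer` (`hz`).

* `n₁`: the set `K` of all pairs `(p, q)` in a closed box of half size `2κ` around `z true` or
  `z false`, with `p ≤ q` and `κ ≤ q.1 - p.1 ∨ κ ≤ q.2 - p.2` is compact, and `grow_unif` (with `L = 2`)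
  gives `n₁` (no pair has `p.1 = q.1` an integer, by `hz`; `p ≠ q` since `κ > 0`).
* `n₂`: `grow_back` for `p = z b + (-κ, κ)`, `q = z b + (κ, -κ)`, `L = 2` (both `b`).
* `m₀ = n₁ + n₂`.  Let `γ` be continuous and monotone with `Seed (z b) κ γ a c`, `m ≥ m₀`.  With
  `i, j` from `Seed`, `Dt_iter_add` shows that the extents of `Dt^[n] ∘ γ` on `[a, c]` are those of the
  pair `(γ a - (i, j), γ c - (i, j)) ∈ K`; so they are `≥ 2` for all `n ≥ n₁`.
  `cross_mod` for `P = Dt^[m - n₂] ∘ γ` and `Q t = Di^[n₂] (z b' + (t, -t))`, `t ∈ [-κ, κ]`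
  (`Q.1` nondecreasing, `Q.2` nonincreasing: induction on `n₂`) gives
  `Dt^[m - n₂] (γ s) = Q t + integer`; apply `Dt^[n₂]` (`Dt_iter_add`, `Dt (Di x) = x`):
  `Dt^[m] (γ s) = z b' + (t, -t) + (i', j')`.
* `δ = Dt^[m] ∘ γ` is continuous and monotone, and `δ c - δ a` has first coordinate `≥ 2`; so
  `(δ c).1 - (δ s).1 ≥ 1` or `(δ s).1 - (δ a).1 ≥ 1`.  In the first case the continuous function
  `u ↦ max ((δ u).1 - (δ s).1) ((δ u).2 - (δ s).2)` goes from `0` to `≥ 1 ≥ κ` on `[s, c]`; take `u`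
  with value `κ`: `[s, u]` is the new seed (on `[s, u]` both coordinates of `δ - δ s` are in
  `[0, κ]`).  The second case is symmetric.
-/

set_option autoImplicit false

namespace CI48

open CPE48 Set Function Filter Topology

variable {f h : ℝ → ℝ}

private theorem d7_pre (H : FH f h) {p q : ℝ × ℝ} (h1 : p.1 ≤ q.1) (h2 : q.2 ≤ p.2) (n : ℕ) :
    ((Di f h)^[n] p).1 ≤ ((Di f h)^[n] q).1 ∧ ((Di f h)^[n] q).2 ≤ ((Di f h)^[n] p).2 := by
  induction n generalizing p q with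
  | zero => exact ⟨h1, h2⟩
  | succ n ih =>
    rw [iterate_succ_apply, iterate_succ_apply]
    have h3 : (Di f h q).2 ≤ (Di f h p).2 := by
      change q.2 - h q.1 ≤ p.2 - h p.1
      have h4 : h p.1 ≤ h q.1 := H.hstrict.monotone h1
      linarith
    refine ih ?_ h3
    change p.1 - f (Di f h p).2 ≤ q.1 - f (Di f h q).2
    have h4 := H.fmono h3
    linarith

/-- the compact set of pairs in the box `b` -/
private def d7K (z : ℝ × ℝ) (κ : ℝ) : Set ((ℝ × ℝ) × (ℝ × ℝ)) :=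
  ((Metric.closedBall z (2 * κ) ×ˢ Metric.closedBall z (2 * κ)) ∩ {x | x.1 ≤ x.2}) ∩
    {x | κ ≤ x.2.1 - x.1.1 ∨ κ ≤ x.2.2 - x.1.2}

private theorem d7K_compact (z : ℝ × ℝ) (κ : ℝ) : IsCompact (d7K z κ) := by
  refine ((((isCompact_closedBall z (2 * κ)).prod (isCompact_closedBall z (2 * κ))).inter_right
    (isClosed_le continuous_fst continuous_snd)).inter_right ?_)
  refine IsClosed.union ?_ ?_
  · exact isClosed_le continuous_const (continuous_snd.fst.sub continuous_fst.fst)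
  · exact isClosed_le continuous_const (continuous_snd.snd.sub continuous_fst.snd)

private theorem d7_ball {x z : ℝ × ℝ} {r : ℝ} (h1 : |x.1 - z.1| ≤ r) (h2 : |x.2 - z.2| ≤ r) :
    x ∈ Metric.closedBall z r := by
  rw [Metric.mem_closedBall, Prod.dist_eq, Real.dist_eq, Real.dist_eq]
  exact max_le h1 h2

private theorem d7_ball' {x z : ℝ × ℝ} {r : ℝ} (h : x ∈ Metric.closedBall z r) :
    |x.1 - z.1| ≤ r := by
  rw [Metric.mem_closedBall, Prod.dist_eq, Real.dist_eq, Real.dist_eq] at h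
  exact le_trans (le_max_left _ _) h

private theorem d7_n1 (H : FH f h) (z : ℝ × ℝ) (κ : ℝ) (hκ : 0 < κ)
    (hz : ∀ x : ℝ, |x - z.1| ≤ 2 * κ → ∀ k : ℤ, x ≠ k) :
    ∃ n₁ : ℕ, ∀ n, n₁ ≤ n → ∀ γ : ℝ → ℝ × ℝ, Monotone γ → ∀ a c, Seed z κ γ a c →
      2 ≤ ((Dt f h)^[n] (γ c)).1 - ((Dt f h)^[n] (γ a)).1 := by
  obtain ⟨n₁, hn₁⟩ := grow_unif H (d7K z κ) (d7K_compact z κ) (fun x hx => hx.1.2)
    (fun x hx he => by
      have h1 : κ ≤ x.2.1 - x.1.1 ∨ κ ≤ x.2.2 - x.1.2 := hx.2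
      rw [he, sub_self, sub_self] at h1
      rcases h1 with h1 | h1 <;> linarith)
    (fun x hx he => by
      obtain ⟨-, k, hk⟩ := he
      exact hz x.1.1 (d7_ball' hx.1.1.1) k hk) 2
  refine ⟨n₁, fun n hn γ hγ a c hs => ?_⟩
  obtain ⟨hac, ⟨i, j, hij⟩, hext⟩ := hs
  have hx : (γ a - zz i j, γ c - zz i j) ∈ d7K z κ := by
    refine ⟨⟨⟨?_, ?_⟩, ?_⟩, ?_⟩
    · obtain ⟨h1, h2⟩ := hij a ⟨le_rfl, hac⟩
      refine d7_ball ?_ ?_
      · change |(γ a).1 - i - z.1| ≤ 2 * κ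
        rwa [sub_right_comm]
      · change |(γ a).2 - j - z.2| ≤ 2 * κ
        rwa [sub_right_comm]
    · obtain ⟨h1, h2⟩ := hij c ⟨hac, le_rfl⟩
      refine d7_ball ?_ ?_
      · change |(γ c).1 - i - z.1| ≤ 2 * κ
        rwa [sub_right_comm]
      · change |(γ c).2 - j - z.2| ≤ 2 * κ
        rwa [sub_right_comm]
    · change γ a - zz i j ≤ γ c - zz i j
      exact sub_le_sub_right (hγ hac) _
    · change κ ≤ ((γ c).1 - i) - ((γ a).1 - i) ∨ κ ≤ ((γ c).2 - j) - ((γ a).2 - j)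
      rw [sub_sub_sub_cancel_right, sub_sub_sub_cancel_right]
      exact hext
  have h1 := (hn₁ n hn _ hx).1
  obtain ⟨i', j', hadd⟩ := Dt_iter_add H n i j
  have h2 := hadd (γ a - zz i j)
  have h3 := hadd (γ c - zz i j)
  rw [sub_add_cancel] at h2 h3
  rw [h2, h3]
  change 2 ≤ (((Dt f h)^[n] (γ c - zz i j)).1 + i') - (((Dt f h)^[n] (γ a - zz i j)).1 + i')
  rw [add_sub_add_right_eq_sub]
  exact h1

/-- the new seed, on the right of `s` -/
private theorem d7_seed (z : ℝ × ℝ) (κ : ℝ) (hκ : 0 < κ) (hκ1 : κ ≤ 1) (δ : ℝ → ℝ × ℝ)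
    (hδ : Continuous δ) (hδm : Monotone δ) (a c s : ℝ) (hs : s ∈ Icc a c)
    (i j : ℤ) (h1 : |(δ s).1 - z.1 - i| ≤ κ) (h2 : |(δ s).2 - z.2 - j| ≤ κ)
    (hc : 1 ≤ (δ c).1 - (δ s).1 ∨ 1 ≤ (δ s).1 - (δ a).1) :
    ∃ a' c', a ≤ a' ∧ c' ≤ c ∧ Seed z κ δ a' c' := by
  rw [abs_le] at h1 h2
  rcases hc with hc | hc
  · have hg : Continuous fun u => max ((δ u).1 - (δ s).1) ((δ u).2 - (δ s).2) := by fun_prop
    obtain ⟨u, hu, hgu⟩ := intermediate_value_Icc hs.2 hg.continuousOn (show κ ∈ _ from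
      ⟨by rw [sub_self, sub_self, max_self]; exact hκ.le,
        le_trans (le_trans hκ1 hc) (le_max_left _ _)⟩)
    have hgu' : max ((δ u).1 - (δ s).1) ((δ u).2 - (δ s).2) = κ := hgu
    refine ⟨s, u, hs.1, hu.2, hu.1, ⟨i, j, fun v hv => ?_⟩, ?_⟩
    · have h3 := hδm hv.1
      have h4 := hδm hv.2
      have h5 := le_max_left ((δ u).1 - (δ s).1) ((δ u).2 - (δ s).2)
      have h6 := le_max_right ((δ u).1 - (δ s).1) ((δ u).2 - (δ s).2)
      rw [hgu'] at h5 h6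
      have h7 := h3.1
      have h8 := h3.2
      have h9 := h4.1
      have h10 := h4.2
      constructor <;> rw [abs_le] <;> constructor <;> linarith
    · rcases max_choice ((δ u).1 - (δ s).1) ((δ u).2 - (δ s).2) with h3 | h3
      · left
        rw [← h3, hgu']
      · right
        rw [← h3, hgu']
  · have hg : Continuous fun u => max ((δ s).1 - (δ u).1) ((δ s).2 - (δ u).2) := by fun_prop
    obtain ⟨u, hu, hgu⟩ := intermediate_value_Icc' hs.1 hg.continuousOn (show κ ∈ _ from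
      ⟨by rw [sub_self, sub_self, max_self]; exact hκ.le,
        le_trans (le_trans hκ1 hc) (le_max_left _ _)⟩)
    have hgu' : max ((δ s).1 - (δ u).1) ((δ s).2 - (δ u).2) = κ := hgu
    refine ⟨u, s, hu.1, hs.2, hu.2, ⟨i, j, fun v hv => ?_⟩, ?_⟩
    · have h3 := hδm hv.1
      have h4 := hδm hv.2
      have h5 := le_max_left ((δ s).1 - (δ u).1) ((δ s).2 - (δ u).2)
      have h6 := le_max_right ((δ s).1 - (δ u).1) ((δ s).2 - (δ u).2)
      rw [hgu'] at h5 h6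
      have h7 := h3.1
      have h8 := h3.2
      have h9 := h4.1
      have h10 := h4.2
      constructor <;> rw [abs_le] <;> constructor <;> linarith
    · rcases max_choice ((δ s).1 - (δ u).1) ((δ s).2 - (δ u).2) with h3 | h3
      · left
        rw [← h3, hgu']
      · right
        rw [← h3, hgu']

theorem seed_step (H : FH f h) (z : Bool → ℝ × ℝ) (κ : ℝ) (hκ : 0 < κ) (hκ1 : κ ≤ 1)
    (hz : ∀ b, ∀ x : ℝ, |x - (z b).1| ≤ 2 * κ → ∀ k : ℤ, x ≠ k) :
    ∃ m₀ : ℕ, ∀ (γ : ℝ → ℝ × ℝ), Continuous γ → Monotone γ → ∀ b b' : Bool, ∀ a c : ℝ,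
      Seed (z b) κ γ a c → ∀ m, m₀ ≤ m → ∃ a' c', a ≤ a' ∧ c' ≤ c ∧
        Seed (z b') κ (fun t => (Dt f h)^[m] (γ t)) a' c' := by
  choose n1 hn1 using fun b => d7_n1 H (z b) κ hκ (hz b)
  choose n2 hn2 using fun b => grow_back H (z b + (-κ, κ)) (z b + (κ, -κ))
    (by
      change (z b).1 + -κ < (z b).1 + κ
      linarith)
    (by
      change (z b).2 + -κ ≤ (z b).2 + κ
      linarith) 2
  obtain ⟨N1, hN1⟩ : ∃ N1, ∀ b, n1 b ≤ N1 := ⟨max (n1 true) (n1 false), fun b => by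
    cases b
    · exact le_max_right _ _
    · exact le_max_left _ _⟩
  obtain ⟨N2, hN2⟩ : ∃ N2, ∀ b, n2 b ≤ N2 := ⟨max (n2 true) (n2 false), fun b => by
    cases b
    · exact le_max_right _ _
    · exact le_max_left _ _⟩
  refine ⟨N1 + N2, fun γ hγc hγm b b' a c hs m hm => ?_⟩
  have hac := hs.1
  have hDm : ∀ n, Monotone ((Dt f h)^[n]) := fun n => (Dt_mono H).iterate n
  have hDc : ∀ n, Continuous ((Dt f h)^[n]) := fun n => (Dt_cont H).iterate n
  have hIc : ∀ n, Continuous ((Di f h)^[n]) := fun n => (Di_cont H).iterate n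
  have hinv : ∀ x, (Dt f h)^[N2] ((Di f h)^[N2] x) = x :=
    (show LeftInverse (Dt f h) (Di f h) from Dt_Di f h).iterate N2
  have hpc : Continuous fun t : ℝ => z b' + (t, -t) := by fun_prop
  obtain ⟨hb1, hb2⟩ := hn2 b' N2 (hN2 b')
  obtain ⟨s, hs1, t, ht, i, j, hst⟩ := cross_mod (fun t => (Dt f h)^[m - N2] (γ t))
    (fun t => (Di f h)^[N2] (z b' + (t, -t))) ((hDc _).comp hγc) ((hIc _).comp hpc)
    ((hDm _).comp hγm)
    (fun x y hxy => (d7_pre H (p := z b' + (x, -x)) (q := z b' + (y, -y))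
      (add_le_add_right hxy _) (add_le_add_right (neg_le_neg hxy) _) N2).1)
    (fun x y hxy => (d7_pre H (p := z b' + (x, -x)) (q := z b' + (y, -y))
      (add_le_add_right hxy _) (add_le_add_right (neg_le_neg hxy) _) N2).2)
    a c (-κ) κ hac (by linarith)
    (hn1 b (m - N2) (le_trans (hN1 b) (by omega)) γ hγm a c hs)
    (by
      change 1 ≤ ((Di f h)^[N2] (z b' + (κ, -κ))).1 - ((Di f h)^[N2] (z b' + (-κ, - -κ))).1
      rw [neg_neg]
      linarith)
    (by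
      change 2 ≤ ((Di f h)^[N2] (z b' + (-κ, - -κ))).2 - ((Di f h)^[N2] (z b' + (κ, -κ))).2
      rw [neg_neg]
      exact hb2)
  obtain ⟨i', j', hadd⟩ := Dt_iter_add H N2 i j
  have hkey : (Dt f h)^[m] (γ s) = z b' + (t, -t) + zz i' j' := by
    have h1 : m = N2 + (m - N2) := by omega
    have h2 : (Dt f h)^[m] (γ s) = (Dt f h)^[N2] ((Dt f h)^[m - N2] (γ s)) := by
      conv_lhs => rw [h1]
      rw [iterate_add_apply]
    have h3 : (Dt f h)^[m - N2] (γ s) = (Di f h)^[N2] (z b' + (t, -t)) + zz i j := hst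
    rw [h2, h3, hadd, hinv]
  refine d7_seed (z b') κ hκ hκ1 (fun t => (Dt f h)^[m] (γ t)) ((hDc m).comp hγc)
    ((hDm m).comp hγm) a c s hs1 i' j' ?_ ?_ ?_
  · change |((Dt f h)^[m] (γ s)).1 - (z b').1 - i'| ≤ κ
    rw [hkey]
    change |(z b').1 + t + i' - (z b').1 - i'| ≤ κ
    rw [show (z b').1 + t + i' - (z b').1 - i' = t by ring, abs_le]
    exact ⟨ht.1, ht.2⟩
  · change |((Dt f h)^[m] (γ s)).2 - (z b').2 - j'| ≤ κ
    rw [hkey]
    change |(z b').2 + -t + j' - (z b').2 - j'| ≤ κ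
    rw [show (z b').2 + -t + j' - (z b').2 - j' = -t by ring, abs_neg, abs_le]
    exact ⟨ht.1, ht.2⟩
  · have h1 := hn1 b m (le_trans (hN1 b) (by omega)) γ hγm a c hs
    change 1 ≤ ((Dt f h)^[m] (γ c)).1 - ((Dt f h)^[m] (γ s)).1 ∨
      1 ≤ ((Dt f h)^[m] (γ s)).1 - ((Dt f h)^[m] (γ a)).1
    by_contra hcon
    rw [not_or, not_le, not_le] at hcon
    linarith [hcon.1, hcon.2]

end CI48
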