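import Pool.Agent.LibCI48.TDefs

/-!
# CI48, block D: the fibre diffeomorphism of the two-torus: definitions
-/

set_option autoImplicit false

namespace CI48

open CPE48 Set Function Filter Topology

/-- the hypotheses on the two circle maps (on lifts) -/
structure FH (f h : ℝ → ℝ) : Prop where
  fc : Continuous f
  hc : Continuous h
  fper : ∀ x, f (x + 1) = f x + 1
  hper : ∀ x, h (x + 1) = h x + 1
  fmono : Monotone f
  fzero : ∀ x ∈ Icc (-(1 / 8) : ℝ) (1 / 8), f x = 0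
  fstrict : StrictMonoOn f (Icc (1 / 8) (7 / 8))
  hstrict : StrictMono h
  hzero : h 0 = 0

/-- the lift of `D` to the plane -/
def Dt (f h : ℝ → ℝ) (p : ℝ × ℝ) : ℝ × ℝ := (p.1 + f p.2, p.2 + h (p.1 + f p.2))

/-- the inverse of `Dt` -/
def Di (f h : ℝ → ℝ) (p : ℝ × ℝ) : ℝ × ℝ := (p.1 - f (p.2 - h p.1), p.2 - h p.1)

/-- integer vectors -/
def zz (i j : ℤ) : ℝ × ℝ := ((i : ℝ), (j : ℝ))

/-- `γ` on `[a, b]` is a seed for the box of center `z` and size `κ` (modulo integer vectors) -/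
def Seed (z : ℝ × ℝ) (κ : ℝ) (γ : ℝ → ℝ × ℝ) (a b : ℝ) : Prop :=
  a ≤ b ∧ (∃ i j : ℤ, ∀ t ∈ Icc a b, |(γ t).1 - z.1 - i| ≤ 2 * κ ∧ |(γ t).2 - z.2 - j| ≤ 2 * κ) ∧
    (κ ≤ (γ b).1 - (γ a).1 ∨ κ ≤ (γ b).2 - (γ a).2)

end CI48
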