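import Mathlib

/-! TASK G1 (MEDIUM, only Mathlib, ~90 lines).  Density of closed orbits with slopes `P / 2^s`,
`R / 3^t`.

Given `x, y, z`: let `x₀ = Int.fract x`; look for `u = x₀ + i`, `0 ≤ i < 2^s * 3^t` an integer, so
`u - x` is an integer.  `(P/2^s) u = (P/2^s) x₀ + i P / 2^s`.  Choose an integer `a` with
`|(P/2^s) x₀ + a / 2^s - y| ≤ 1 / 2^s` (round), and an integer `b` with
`|(R/3^t) x₀ + b / 3^t - z| ≤ 1 / 3^t`.  As `P` is a unit mod `2^s` and `R` a unit mod `3^t`, and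
`2^s`, `3^t` are coprime, the Chinese remainder theorem gives `i` with `i P ≡ a mod 2^s`,
`i R ≡ b mod 3^t` (`Nat.chineseRemainder` or `Int`/`ZMod` version; first `i₁ ≡ a P⁻¹`,
`i₂ ≡ b R⁻¹`).  Then `i P / 2^s - a / 2^s` and `i R / 3^t - b / 3^t` are integers.
-/

set_option autoImplicit false

namespace CI48

open Set

/-- the Chinese remainder theorem with two linear congruences -/
theorem G1_crt (A B P R a b : ℤ) (hA : 0 < A) (hB : 0 < B) (hAB : IsCoprime A B)
    (hP : IsCoprime P A) (hR : IsCoprime R B) :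
    ∃ m j k : ℤ, 0 ≤ m ∧ m + 1 ≤ A * B ∧ m * P = a + A * j ∧ m * R = b + B * k := by
  obtain ⟨u, v, huv⟩ := hP
  obtain ⟨u', v', huv'⟩ := hR
  obtain ⟨c, d, hcd⟩ := hAB
  obtain ⟨m, hm⟩ : ∃ m : ℤ, m = a * u * (d * B) + b * u' * (c * A) := ⟨_, rfl⟩
  have hAB0 : 0 < A * B := mul_pos hA hB
  have hdm := Int.emod_add_mul_ediv m (A * B)
  have h0 := Int.emod_nonneg m hAB0.ne'
  have h1 := Int.emod_lt_of_pos m hAB0
  have e1 : m = a * u + A * (c * (b * u' - a * u)) := by
    rw [hm]; linear_combination (a * u) * hcd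
  have e2 : m = b * u' + B * (d * (a * u - b * u')) := by
    rw [hm]; linear_combination (b * u') * hcd
  refine ⟨m % (A * B), -(a * v) + c * (b * u' - a * u) * P - B * (m / (A * B)) * P,
    -(b * v') + d * (a * u - b * u') * R - A * (m / (A * B)) * R, h0, by omega, ?_, ?_⟩
  · have e3 : m % (A * B) = m - A * B * (m / (A * B)) := by linarith
    rw [e3]
    linear_combination P * e1 + a * huv
  · have e3 : m % (A * B) = m - A * B * (m / (A * B)) := by linarith
    rw [e3]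
    linear_combination R * e2 + b * huv'

theorem orbit_dense (s t : ℕ) (P R : ℤ) (hP : IsCoprime P 2) (hR : IsCoprime R 3) (x y z : ℝ) :
    ∃ u ∈ Icc (0:ℝ) (2 ^ s * 3 ^ t), ∃ i j k : ℤ, u - x - i = 0 ∧
      |(P / 2 ^ s : ℝ) * u - y - j| ≤ 1 / 2 ^ s ∧ |(R / 3 ^ t : ℝ) * u - z - k| ≤ 1 / 3 ^ t := by
  obtain ⟨m, j, k, h0, h1, h2, h3⟩ := G1_crt (2 ^ s) (3 ^ t) P R
    (round ((2:ℝ) ^ s * y - P * Int.fract x)) (round ((3:ℝ) ^ t * z - R * Int.fract x))
    (by positivity) (by positivity) (IsCoprime.pow (by norm_num)) hP.pow_right hR.pow_right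
  have hf0 := Int.fract_nonneg x
  have hf1 := Int.fract_lt_one x
  have hm0 : (0:ℝ) ≤ m := by exact_mod_cast h0
  have hm1 : (m:ℝ) + 1 ≤ 2 ^ s * 3 ^ t := by exact_mod_cast h1
  have h2' : (m:ℝ) * P = round ((2:ℝ) ^ s * y - P * Int.fract x) + 2 ^ s * j := by exact_mod_cast h2
  have h3' : (m:ℝ) * R = round ((3:ℝ) ^ t * z - R * Int.fract x) + 3 ^ t * k := by exact_mod_cast h3
  refine ⟨Int.fract x + m, ⟨by linarith, by linarith⟩, m - ⌊x⌋, j, k, ?_, ?_, ?_⟩
  · have := Int.floor_add_fract x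
    push_cast
    linarith
  · have hA : (0:ℝ) < 2 ^ s := by positivity
    have e : (P / 2 ^ s : ℝ) * (Int.fract x + m) - y - j =
        -(((2:ℝ) ^ s * y - P * Int.fract x) - round ((2:ℝ) ^ s * y - P * Int.fract x)) / 2 ^ s := by
      field_simp
      linear_combination h2'
    rw [e, abs_div, abs_neg, abs_of_pos hA]
    refine div_le_div_of_nonneg_right ?_ hA.le
    exact (abs_sub_round _).trans (by norm_num)
  · have hA : (0:ℝ) < 3 ^ t := by positivity
    have e : (R / 3 ^ t : ℝ) * (Int.fract x + m) - z - k =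
        -(((3:ℝ) ^ t * z - R * Int.fract x) - round ((3:ℝ) ^ t * z - R * Int.fract x)) / 3 ^ t := by
      field_simp
      linear_combination h3'
    rw [e, abs_div, abs_neg, abs_of_pos hA]
    refine div_le_div_of_nonneg_right ?_ hA.le
    exact (abs_sub_round _).trans (by norm_num)

end CI48
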