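import Pool.Agent.LibCI48.G1

/-! TASK G2 (MEDIUM, ~100 lines).  Existence of a uniformly dense linear flow, by the Baire category
theorem.  Use `orbit_dense` (G1, stated).

For `k : ℕ` let `U k ⊆ ℝ × ℝ` be the set of `(al, be)` such that for some `M ≥ 0`, for all `x, y, z`
there are `u ∈ [0, M]` and integers with the three numbers `< 1 / (k + 1)`.  Claim: `interior (U k)` is
dense.  Given `(a₀, b₀)` and `ε > 0` choose `s, t` large (`1/2^s`, `1/3^t < min ε (1/(2(k+1)))`), an odd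
`P` with `|P / 2^s - a₀| ≤ 1/2^s` and an `R` prime to `3` with `|R / 3^t - b₀| ≤ 1 / 3^t`; let
`M = 2^s * 3^t`.  If `|al - P/2^s| * M` and `|be - R/3^t| * M` are `< 1/(2(k+1))` then `(al, be) ∈ U k`
(`|al * u - (P/2^s) * u| ≤ |al - P/2^s| * M`).  So a ball around `(P/2^s, R/3^t)` lies in `U k`.
`dense_iInter_of_isOpen_nat`, and the open set `(0,1) × (0,1)`.
-/

set_option autoImplicit false

namespace CI48

open Set

/-- the good parameters at scale `1 / (k + 1)` -/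
def G2U (k : ℕ) : Set (ℝ × ℝ) :=
  {p | ∃ M : ℝ, 0 ≤ M ∧ ∀ x y z : ℝ, ∃ u ∈ Icc 0 M, ∃ i j l : ℤ,
    |u - x - i| < 1 / ((k:ℝ) + 1) ∧ |p.1 * u - y - j| < 1 / ((k:ℝ) + 1) ∧
      |p.2 * u - z - l| < 1 / ((k:ℝ) + 1)}

theorem G2_odd (a : ℝ) : ∃ P : ℤ, IsCoprime P 2 ∧ |(P:ℝ) - a| ≤ 1 := by
  have h1 := Int.floor_le a
  have h2 := Int.lt_floor_add_one a
  rcases Int.even_or_odd ⌊a⌋ with h | h
  · refine ⟨⌊a⌋ + 1, ?_, ?_⟩
    · have h3 : Odd (⌊a⌋ + 1) := h.add_one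
      rw [Int.isCoprime_iff_gcd_eq_one]
      obtain ⟨c, hc⟩ := h3
      rw [← Int.isCoprime_iff_gcd_eq_one]
      exact ⟨1, -c, by linarith⟩
    · push_cast
      rw [abs_le]
      constructor <;> linarith
  · refine ⟨⌊a⌋, ?_, ?_⟩
    · obtain ⟨c, hc⟩ := h
      exact ⟨1, -c, by linarith⟩
    · rw [abs_le]
      constructor <;> linarith

theorem G2_three (a : ℝ) : ∃ R : ℤ, IsCoprime R 3 ∧ |(R:ℝ) - a| ≤ 1 := by
  have h1 := Int.floor_le a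
  have h2 := Int.lt_floor_add_one a
  have hm := Int.emod_add_mul_ediv ⌊a⌋ 3
  have hn := Int.emod_nonneg ⌊a⌋ (by norm_num : (3:ℤ) ≠ 0)
  have hl := Int.emod_lt_of_pos ⌊a⌋ (by norm_num : (0:ℤ) < 3)
  rcases (by omega : ⌊a⌋ % 3 = 0 ∨ ⌊a⌋ % 3 = 1 ∨ ⌊a⌋ % 3 = 2) with h | h | h
  · refine ⟨⌊a⌋ + 1, ⟨1, -(⌊a⌋ / 3), by linarith⟩, ?_⟩
    push_cast
    rw [abs_le]
    constructor <;> linarith
  · refine ⟨⌊a⌋, ⟨1, -(⌊a⌋ / 3), by linarith⟩, ?_⟩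
    rw [abs_le]
    constructor <;> linarith
  · refine ⟨⌊a⌋, ⟨-1, ⌊a⌋ / 3 + 1, by linarith⟩, ?_⟩
    rw [abs_le]
    constructor <;> linarith

theorem G2_dense (k : ℕ) : Dense (interior (G2U k)) := by
  rw [Metric.dense_iff]
  rintro ⟨a, b⟩ ε hε
  have hk : (0:ℝ) < 1 / (2 * ((k:ℝ) + 1)) := by positivity
  obtain ⟨n, hn⟩ := exists_pow_lt_of_lt_one (lt_min hε hk) (by norm_num : (1:ℝ) / 2 < 1)
  have hn1 : (1:ℝ) / 2 ^ n < ε := by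
    have := lt_of_lt_of_le hn (min_le_left _ _)
    rwa [one_div_pow] at this
  have hn2 : (1:ℝ) / 2 ^ n < 1 / (2 * ((k:ℝ) + 1)) := by
    have := lt_of_lt_of_le hn (min_le_right _ _)
    rwa [one_div_pow] at this
  have h23 : (1:ℝ) / 3 ^ n ≤ 1 / 2 ^ n :=
    one_div_le_one_div_of_le (by positivity) (pow_le_pow_left₀ (by norm_num) (by norm_num) n)
  obtain ⟨P, hP, hPa⟩ := G2_odd (a * 2 ^ n)
  obtain ⟨R, hR, hRb⟩ := G2_three (b * 3 ^ n)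
  have h2n : (0:ℝ) < 2 ^ n := by positivity
  have h3n : (0:ℝ) < 3 ^ n := by positivity
  have hPa' : |(P:ℝ) / 2 ^ n - a| ≤ 1 / 2 ^ n := by
    have e : (P:ℝ) / 2 ^ n - a = (P - a * 2 ^ n) / 2 ^ n := by field_simp
    rw [e, abs_div, abs_of_pos h2n]
    exact div_le_div_of_nonneg_right hPa h2n.le
  have hRb' : |(R:ℝ) / 3 ^ n - b| ≤ 1 / 3 ^ n := by
    have e : (R:ℝ) / 3 ^ n - b = (R - b * 3 ^ n) / 3 ^ n := by field_simp
    rw [e, abs_div, abs_of_pos h3n]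
    exact div_le_div_of_nonneg_right hRb h3n.le
  refine ⟨((P:ℝ) / 2 ^ n, (R:ℝ) / 3 ^ n), ?_, ?_⟩
  · rw [Metric.mem_ball, Prod.dist_eq]
    refine max_lt ?_ ?_
    · rw [Real.dist_eq]
      exact lt_of_le_of_lt hPa' hn1
    · rw [Real.dist_eq]
      exact lt_of_le_of_lt (hRb'.trans h23) hn1
  · rw [mem_interior_iff_mem_nhds, Metric.mem_nhds_iff]
    have hM : (0:ℝ) < 2 ^ n * 3 ^ n := by positivity
    refine ⟨1 / (2 * ((k:ℝ) + 1)) / (2 ^ n * 3 ^ n), by positivity, ?_⟩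
    intro p hp
    rw [Metric.mem_ball, Prod.dist_eq, max_lt_iff, Real.dist_eq, Real.dist_eq] at hp
    obtain ⟨hp1, hp2⟩ := hp
    refine ⟨2 ^ n * 3 ^ n, hM.le, fun x y z => ?_⟩
    obtain ⟨u, hu, i, j, l, h1, h2, h3⟩ := orbit_dense n n P R hP hR x y z
    have hsum : 1 / (2 * ((k:ℝ) + 1)) + 1 / (2 * ((k:ℝ) + 1)) = 1 / ((k:ℝ) + 1) := by
      field_simp
      norm_num
    have key : ∀ (α q w : ℝ) (c : ℤ), |α - q| < 1 / (2 * ((k:ℝ) + 1)) / (2 ^ n * 3 ^ n) →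
        |q * u - w - c| ≤ 1 / 2 ^ n → |α * u - w - c| < 1 / ((k:ℝ) + 1) := by
      intro α q w c hα hq
      have e : α * u - w - c = (α - q) * u + (q * u - w - c) := by ring
      rw [e]
      refine lt_of_le_of_lt (abs_add_le _ _) ?_
      have h5 : |(α - q) * u| ≤ 1 / (2 * ((k:ℝ) + 1)) := by
        rw [abs_mul, abs_of_nonneg hu.1]
        calc |α - q| * u ≤ 1 / (2 * ((k:ℝ) + 1)) / (2 ^ n * 3 ^ n) * (2 ^ n * 3 ^ n) :=
              mul_le_mul hα.le hu.2 hu.1 (by positivity)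
          _ = 1 / (2 * ((k:ℝ) + 1)) := div_mul_cancel₀ _ hM.ne'
      linarith
    refine ⟨u, hu, i, j, l, ?_, key p.1 _ y j hp1 h2, key p.2 _ z l hp2 (h3.trans h23)⟩
    rw [h1, abs_zero]
    positivity

theorem exists_dense_flow : ∃ al be : ℝ, 0 < al ∧ al < 1 ∧ 0 < be ∧ be < 1 ∧
    ∀ δ : ℝ, 0 < δ → ∃ M : ℝ, 0 ≤ M ∧ ∀ x y z : ℝ, ∃ u ∈ Icc 0 M, ∃ i j k : ℤ,
      |u - x - i| < δ ∧ |al * u - y - j| < δ ∧ |be * u - z - k| < δ := by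
  have hd : Dense (⋂ k, interior (G2U k)) :=
    dense_iInter_of_isOpen_nat (fun _ => isOpen_interior) G2_dense
  have ho : IsOpen (Ioo (0:ℝ) 1 ×ˢ Ioo (0:ℝ) 1) := isOpen_Ioo.prod isOpen_Ioo
  obtain ⟨⟨al, be⟩, hab, hin⟩ := hd.inter_open_nonempty _ ho
    ⟨(1 / 2, 1 / 2), ⟨by norm_num, by norm_num⟩, ⟨by norm_num, by norm_num⟩⟩
  refine ⟨al, be, hab.1.1, hab.1.2, hab.2.1, hab.2.2, fun δ hδ => ?_⟩
  obtain ⟨k, hk⟩ := exists_nat_one_div_lt hδ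
  obtain ⟨M, hM, h⟩ := interior_subset (mem_iInter.1 hin k)
  refine ⟨M, hM, fun x y z => ?_⟩
  obtain ⟨u, hu, i, j, l, h1, h2, h3⟩ := h x y z
  exact ⟨u, hu, i, j, l, h1.trans hk, h2.trans hk, h3.trans hk⟩

end CI48
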