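import Pool.Agent.LibCI48.G2
import Pool.Agent.LibCI87.Defs

/-! TASK G3 (MEDIUM, ~100 lines).  Existence of the parameters `CI.Par`.  Use `exists_dense_flow`.

* `small_frac`: for `δ > 0` and `B` there are `J : ℕ`, `J ≥ B` and `q : ℤ` with `0 < al * J - q < δ`.
  From the density with the target `(0, al * B' .. )`: e.g. apply it with `δ' = δ / 8` (`≤ 1/8`) to
  `x = -B₁`, `y = δ / 2 - al * B₁`, `z = 0`, where `B₁ = B + 1`: `u ≥ 0` with `|u + B₁ - i| < δ'`,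
  `|al * u - δ/2 + al * B₁ - j| < δ'`; put `J = i` (`≥ u + B₁ - δ' ≥ B`): `|al * J - δ/2 - j| < 2 δ'`
  (as `0 < al < 1`), so `0 < al * J - j < δ`.
* Build the sequences recursively (e.g. a recursion on triples `(J, q)` with the property
  `0 < al * J - q ≤ 1/16`, or `exists_seq_strictMono`-like choice): `J 0 = 0`, `q 0 = 0`, then
  `J (i + 1) ≥ J i + i + 1` and `al J (i+1) - q (i+1) ≤ 1/16` (`i = 0`), `≤ (al J i - q i) / 2`
  (`i ≥ 1`).
-/

set_option autoImplicit false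

namespace CI48

open Set

theorem small_frac (al be : ℝ) (h0 : 0 < al) (h1 : al < 1)
    (hd : ∀ δ : ℝ, 0 < δ → ∃ M : ℝ, 0 ≤ M ∧ ∀ x y z : ℝ, ∃ u ∈ Icc 0 M, ∃ i j k : ℤ,
      |u - x - i| < δ ∧ |al * u - y - j| < δ ∧ |be * u - z - k| < δ) (δ : ℝ) (hδ : 0 < δ)
    (B : ℕ) : ∃ (J : ℕ) (q : ℤ), B ≤ J ∧ 0 < al * J - q ∧ al * J - q < δ := by
  have hδ' : 0 < min δ 1 / 8 := by positivity
  have hδ1 : min δ 1 ≤ δ := min_le_left _ _
  have hδ2 : min δ 1 ≤ 1 := min_le_right _ _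
  obtain ⟨M, hM, hMd⟩ := hd (min δ 1 / 8) hδ'
  obtain ⟨u, hu, i, j, k, h2, h3, -⟩ := hMd (-((B:ℝ) + 1)) (δ / 2 - al * ((B:ℝ) + 1)) 0
  have h2' := abs_lt.1 h2
  have h3' := abs_lt.1 h3
  have hu0 := hu.1
  have hi : (B:ℝ) < i := by linarith
  have hi' : (B:ℤ) < i := by exact_mod_cast hi
  obtain ⟨J, hJ⟩ : ∃ J : ℕ, (J : ℤ) = i := ⟨i.toNat, Int.toNat_of_nonneg (by omega)⟩
  have hJr : (J:ℝ) = i := by exact_mod_cast hJ
  refine ⟨J, j, by omega, ?_, ?_⟩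
  · rw [hJr]
    have e1 : al * (i:ℝ) - j = δ / 2 + (al * u - (δ / 2 - al * ((B:ℝ) + 1)) - j) -
        al * (u - -((B:ℝ) + 1) - i) := by ring
    rw [e1]
    have e2 : al * (u - -((B:ℝ) + 1) - i) < min δ 1 / 8 := by
      nlinarith
    linarith
  · rw [hJr]
    have e1 : al * (i:ℝ) - j = δ / 2 + (al * u - (δ / 2 - al * ((B:ℝ) + 1)) - j) -
        al * (u - -((B:ℝ) + 1) - i) := by ring
    rw [e1]
    have e2 : -(min δ 1 / 8) < al * (u - -((B:ℝ) + 1) - i) := by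
      nlinarith
    linarith

theorem exists_par : Nonempty CI.Par := by
  obtain ⟨al, be, h0, h1, h2, h3, hd⟩ := exists_dense_flow
  obtain ⟨D, hD⟩ : ∃ D : ℕ × ℤ → ℝ, D = fun p => if 0 < al * p.1 - p.2 then
    min (1 / 16) ((al * p.1 - p.2) / 2) else 1 / 16 := ⟨_, rfl⟩
  have hDpos : ∀ p, 0 < D p := by
    intro p
    rw [hD]
    dsimp only
    split_ifs with h
    · exact lt_min (by norm_num) (by linarith)
    · norm_num
  have hDle : ∀ p, D p ≤ 1 / 16 := by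
    intro p
    rw [hD]
    dsimp only
    split_ifs with h
    · exact min_le_left _ _
    · exact le_rfl
  have hDhalf : ∀ p : ℕ × ℤ, 0 < al * p.1 - p.2 → D p ≤ (al * p.1 - p.2) / 2 := by
    intro p h
    rw [hD]
    dsimp only
    rw [if_pos h]
    exact min_le_right _ _
  have hch : ∀ (i : ℕ) (p : ℕ × ℤ), ∃ r : ℕ × ℤ, p.1 + i + 1 ≤ r.1 ∧ 0 < al * r.1 - r.2 ∧
      al * r.1 - r.2 < D p := by
    intro i p
    obtain ⟨J, q, hJ, hq1, hq2⟩ := small_frac al be h0 h1 hd (D p) (hDpos p) (p.1 + i + 1)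
    exact ⟨(J, q), hJ, hq1, hq2⟩
  choose nx hnx1 hnx2 hnx3 using hch
  obtain ⟨st, hst0, hst⟩ : ∃ st : ℕ → ℕ × ℤ, st 0 = (0, 0) ∧ ∀ i, st (i + 1) = nx i (st i) :=
    ⟨fun n => Nat.rec (0, 0) (fun i p => nx i p) n, rfl, fun i => rfl⟩
  refine ⟨⟨al, be, fun i => (st i).1, fun i => (st i).2, h0, h1, h2, h3, hd, ?_, ?_, ?_, ?_, ?_,
    ?_⟩⟩
  · rw [hst0]
  · rw [hst0]
  · intro i
    rw [hst i]
    exact hnx1 i (st i)
  · intro i
    rw [hst i]
    exact hnx2 i (st i)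
  · have h := hst 0
    rw [zero_add] at h
    rw [h]
    exact (hnx3 0 (st 0)).le.trans (hDle _)
  · intro i
    have hpos : 0 < al * (st (i + 1)).1 - (st (i + 1)).2 := by
      rw [hst i]
      exact hnx2 i (st i)
    rw [hst (i + 1)]
    exact (hnx3 (i + 1) (st (i + 1))).le.trans (hDhalf _ hpos)

end CI48
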