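import Pool.Agent.LibCI48.C13

/-! TASK H1 (MEDIUM, ~110 lines).  The homeomorphism with `T^(m+5)`, and smooth lifts.

`h (x, (y, w)) = Fin.cons x.1.1 (Fin.cons x.1.2 (Fin.cons x.2 (Fin.cons y.1 (Fin.cons y.2 w))))`, inverse
by evaluation at `0, 1, 2, 3, 4` and `i ↦ v i.succ.succ.succ.succ.succ`; continuity coordinatewise
(`continuous_pi`, `Fin.cases`).  The same formulas `hr`, `hri` for real coordinates
`CI.E5 × (Fin m → ℝ)`, `Fin (m + 5) → ℝ`; the lift of `h ∘ F ∘ h.symm` is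
`v ↦ hr (Ft (z v), w v + w v)` where `(z v, w v) = hri v`: `ContDiff` by `contDiff_pi` and composition.
-/

set_option autoImplicit false

namespace CI48

open CPE48 Set Function Filter Topology

/-- the projection -/
def prn (n : ℕ) (x : Fin n → ℝ) : Fin n → UnitAddCircle := fun i => (x i : UnitAddCircle)

/-- a map of the torus is of class `C^k` if it has a lift of class `C^k` -/
def IsCk (n : ℕ) (k : ℕ∞) (f : (Fin n → UnitAddCircle) → (Fin n → UnitAddCircle)) : Prop :=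
  ∃ F : (Fin n → ℝ) → (Fin n → ℝ), ContDiff ℝ k F ∧ ∀ x, f (prn n x) = prn n (F x)

/-- the coordinates `0, …, 4` and the others -/
private def h1F {m : ℕ} {α : Type} (x : ((α × α) × α) × ((α × α) × (Fin m → α))) :
    Fin (m + 5) → α :=
  Fin.cons (α := fun _ => α) x.1.1.1 (Fin.cons (α := fun _ => α) x.1.1.2
    (Fin.cons (α := fun _ => α) x.1.2 (Fin.cons (α := fun _ => α) x.2.1.1
      (Fin.cons (α := fun _ => α) x.2.1.2 x.2.2))))

private def h1G {m : ℕ} {α : Type} (v : Fin (m + 5) → α) :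
    ((α × α) × α) × ((α × α) × (Fin m → α)) :=
  (((v 0, v (Fin.succ 0)), v (Fin.succ (Fin.succ 0))),
    ((v (Fin.succ (Fin.succ (Fin.succ 0))), v (Fin.succ (Fin.succ (Fin.succ (Fin.succ 0))))),
      fun i => v i.succ.succ.succ.succ.succ))

private theorem h1_ind {m : ℕ} {p : Fin (m + 5) → Prop} (h0 : p 0) (h1 : p (Fin.succ 0))
    (h2 : p (Fin.succ (Fin.succ 0))) (h3 : p (Fin.succ (Fin.succ (Fin.succ 0))))
    (h4 : p (Fin.succ (Fin.succ (Fin.succ (Fin.succ 0)))))
    (h5 : ∀ i : Fin m, p i.succ.succ.succ.succ.succ) (i : Fin (m + 5)) : p i := by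
  refine Fin.cases h0 (fun i => ?_) i
  refine Fin.cases h1 (fun i => ?_) i
  refine Fin.cases h2 (fun i => ?_) i
  refine Fin.cases h3 (fun i => ?_) i
  refine Fin.cases h4 (fun i => ?_) i
  exact h5 i

private theorem h1_FG {m : ℕ} {α : Type} (v : Fin (m + 5) → α) : h1F (h1G v) = v := by
  funext i
  exact h1_ind (p := fun i => h1F (h1G v) i = v i) rfl rfl rfl rfl rfl (fun _ => rfl) i

/-- the homeomorphism -/
private def h1H (m : ℕ) :
    X3 × (Y2 × (Fin m → UnitAddCircle)) ≃ₜ (Fin (m + 5) → UnitAddCircle) where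
  toFun := h1F
  invFun := h1G
  left_inv := fun _ => rfl
  right_inv := h1_FG
  continuous_toFun := by
    refine continuous_pi fun i => ?_
    refine h1_ind (p := fun i => Continuous fun x : X3 × (Y2 × (Fin m → UnitAddCircle)) =>
      h1F x i) ?_ ?_ ?_ ?_ ?_ (fun i => ?_) i
    · exact continuous_fst.fst.fst
    · exact continuous_fst.fst.snd
    · exact continuous_fst.snd
    · exact continuous_snd.fst.fst
    · exact continuous_snd.fst.snd
    · exact (continuous_apply i).comp continuous_snd.snd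
  continuous_invFun :=
    (((continuous_apply _).prodMk (continuous_apply _)).prodMk (continuous_apply _)).prodMk
      (((continuous_apply _).prodMk (continuous_apply _)).prodMk
        (continuous_pi fun _ => continuous_apply _))

private theorem h1_prn (m : ℕ) (x : CI.E3 × ((ℝ × ℝ) × (Fin m → ℝ))) :
    h1F (m := m) (α := UnitAddCircle) (pr3 x.1, (pr2 x.2.1, prn m x.2.2)) =
      prn (m + 5) (h1F (m := m) (α := ℝ) x) := by
  funext i
  exact h1_ind (p := fun i => h1F (m := m) (α := UnitAddCircle)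
    (pr3 x.1, (pr2 x.2.1, prn m x.2.2)) i = prn (m + 5) (h1F (m := m) (α := ℝ) x) i)
    rfl rfl rfl rfl rfl (fun _ => rfl) i

/-- the first five coordinates -/
private def h1z {m : ℕ} (v : Fin (m + 5) → ℝ) : CI.E5 := ((h1G v).1, (h1G v).2.1)

private theorem h1z_sm (m : ℕ) : CI.Sm (h1z (m := m)) :=
  (((contDiff_apply ℝ ℝ _).prodMk (contDiff_apply ℝ ℝ _)).prodMk (contDiff_apply ℝ ℝ _)).prodMk
    ((contDiff_apply ℝ ℝ _).prodMk (contDiff_apply ℝ ℝ _))

theorem exists_hm (m : ℕ) :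
    ∃ h : X3 × (Y2 × (Fin m → UnitAddCircle)) ≃ₜ (Fin (m + 5) → UnitAddCircle),
      ∀ F : X3 × (Y2 × (Fin m → UnitAddCircle)) → X3 × (Y2 × (Fin m → UnitAddCircle)),
      ∀ Ft : CI.E5 → CI.E5, CI.Sm Ft →
      (∀ (z : CI.E5) (w : Fin m → ℝ), F (pr3 z.1, (pr2 z.2, prn m w)) =
        (pr3 (Ft z).1, (pr2 (Ft z).2, prn m (w + w)))) →
      IsCk (m + 5) ⊤ (fun v => h (F (h.symm v))) := by
  refine ⟨h1H m, fun F Ft hFt hF => ⟨fun v => h1F (m := m) (α := ℝ)
    ((Ft (h1z v)).1, ((Ft (h1z v)).2, (h1G v).2.2 + (h1G v).2.2)), ?_, fun v => ?_⟩⟩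
  · have h1 : CI.Sm fun v : Fin (m + 5) → ℝ => Ft (h1z v) := hFt.comp (h1z_sm m)
    have h2 : CI.Sm fun v : Fin (m + 5) → ℝ => (Ft (h1z v)).1 := contDiff_fst.comp h1
    have h3 : CI.Sm fun v : Fin (m + 5) → ℝ => (Ft (h1z v)).2 := contDiff_snd.comp h1
    have h4 : CI.Sm fun v : Fin (m + 5) → ℝ => (Ft (h1z v)).1.1 := contDiff_fst.comp h2
    refine contDiff_pi.2 fun i => ?_
    refine h1_ind (p := fun i => ContDiff ℝ ((⊤ : ℕ∞) : WithTop ℕ∞) fun v : Fin (m + 5) → ℝ =>
      h1F (m := m) (α := ℝ) ((Ft (h1z v)).1, ((Ft (h1z v)).2, (h1G v).2.2 + (h1G v).2.2)) i)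
      ?_ ?_ ?_ ?_ ?_ (fun i => ?_) i
    · exact contDiff_fst.comp h4
    · exact contDiff_snd.comp h4
    · exact contDiff_snd.comp h2
    · exact contDiff_fst.comp h3
    · exact contDiff_snd.comp h3
    · exact (contDiff_apply ℝ ℝ i.succ.succ.succ.succ.succ).add
        (contDiff_apply ℝ ℝ i.succ.succ.succ.succ.succ)
  · change h1F (F (h1G (prn (m + 5) v))) = _
    have h1 : h1G (m := m) (prn (m + 5) v) =
        (pr3 (h1z v).1, (pr2 (h1z v).2, prn m (h1G v).2.2)) := rfl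
    rw [h1, hF, ← h1_prn]

end CI48
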