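import Pool.Agent.LibCI48.T02

/-! TASK T03.  Covering implies CPE, with `IND`. -/

set_option autoImplicit false

namespace CI48

open CPE48 Set Function Filter Topology

theorem cpe_of {X Y : Type} [MetricSpace X] [MetricSpace Y] [Nonempty X] [Nonempty Y]
    {g : X → X} {D : Y → Y} (hvis : Vis g) (hD : IND D) {O : ℕ → Set Y}
    (hO : ∀ l, (O l).Nonempty) {R : ℕ → X → X → Prop} (e : ℕ → Bool)
    (P Fe : X × Y → X × Y) (hpc : Continuous P) (hps : Surjective P)
    (hF : ∀ x, Fe (P x) = P (Prod.map g D x))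
    (hcol : ∀ l, e l = true → ∀ y ∈ O l, ∀ c c', R l c c' → P (c, y) = P (c', y))
    (htriv : ∀ (Z : Type) [MetricSpace Z] (κ : X → Z), Continuous κ →
      (∀ l, e l = true → ∀ c c', R l c c' → κ c = κ c') → ∀ c c', κ c = κ c') : CPE Fe := by
  intro Z _ _ k π hk hπ hπs hπF hnt
  by_contra hz
  obtain ⟨y₀⟩ := (inferInstance : Nonempty Y)
  have hind : ∀ c y y', π (P (c, y)) = π (P (c, y')) := by
    intro c y y'
    refine indep_of_ind (g := g) (D := D) hD hvis k (fun x => π (P x))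
      (hπ.comp hpc) ?_ hz c y y'
    intro c y
    have h1 : π (Fe (P (c, y))) = k (π (P (c, y))) := hπF _
    rw [hF] at h1
    exact h1
  have hκc : Continuous fun c => π (P (c, y₀)) :=
    (hπ.comp hpc).comp (continuous_id.prodMk continuous_const)
  have hκ : ∀ c c', π (P (c, y₀)) = π (P (c', y₀)) := by
    refine htriv Z (fun c => π (P (c, y₀))) hκc ?_
    intro l hl c c' hc
    obtain ⟨y, hy⟩ := hO l
    show π (P (c, y₀)) = π (P (c', y₀))
    rw [hind c y₀ y, hind c' y₀ y, hcol l hl y hy c c' hc]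
  obtain ⟨u, v, huv⟩ := hnt
  apply huv
  obtain ⟨x, rfl⟩ := hπs u
  obtain ⟨x', rfl⟩ := hπs v
  obtain ⟨⟨c, y⟩, rfl⟩ := hps x
  obtain ⟨⟨c', y'⟩, rfl⟩ := hps x'
  calc π (P (c, y)) = π (P (c, y₀)) := hind _ _ _
    _ = π (P (c', y₀)) := hκ _ _
    _ = π (P (c', y')) := hind _ _ _

end CI48
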