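import Pool.Agent.LibCI48.TDefs

/-! TASK T04.  Collapse implies not CPE. -/

set_option autoImplicit false

namespace CI48

open CPE48 Set Function Filter Topology

theorem not_cpe_of {X Y : Type} [MetricSpace X] [CompactSpace X]
    [MetricSpace Y] [CompactSpace Y] [Nonempty Y]
    {g : X → X} {D : Y → Y} {O : ℕ → Set Y} {R : ℕ → X → X → Prop}
    (hg : Continuous g) (hze : ZE g) (e : ℕ → Bool)
    (P Fe : X × Y → X × Y) (hpc : Continuous P) (hps : Surjective P)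
    (hF : ∀ x, Fe (P x) = P (Prod.map g D x))
    (hker : ∀ x x', P x = P x' → RelT O R e x x')
    (Q : X → X → Prop) (hQ : Equivalence Q) (hQc : IsClosed {p : X × X | Q p.1 p.2})
    (hQg : ∀ c c', Q c c' → Q (g c) (g c'))
    (hQR : ∀ l, e l = true → ∀ c c', R l c c' → Q c c')
    (hQn : ∃ c c', ¬ Q c c') : ¬ CPE Fe := by
  intro hcpe
  have hrel : ∀ x x' : X × Y, RelT O R e x x' → Q x.1 x'.1 := by
    rintro x x' (rfl | ⟨-, l, hl, -, h1 | h1⟩)
    · exact hQ.refl _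
    · exact hQR l hl _ _ h1
    · exact hQ.symm (hQR l hl _ _ h1)
  obtain ⟨Z, mZ, cZ, q, hq, hqs, hqR⟩ := exists_quotient_metric Q hQ hQc
  obtain ⟨g', hg', hg'q⟩ := lift_of_ker hq hqs (hq.comp hg)
    (fun x x' hx => (hqR _ _).2 (hQg _ _ ((hqR _ _).1 hx)))
  have hze' : ZE g' := ZE.factor hq hqs (fun x => (hg'q x).symm) hze
  have hnt : Nontrivial Z := by
    obtain ⟨c, c', hcc⟩ := hQn
    exact ⟨q c, q c', fun hqe => hcc ((hqR _ _).1 hqe)⟩
  obtain ⟨π, hπ, hπp⟩ := lift_of_ker hpc hps (f := fun x : X × Y => q x.1)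
    (hq.comp continuous_fst)
    (fun x x' hx => (hqR _ _).2 (hrel x x' (hker x x' hx)))
  have hπs : Surjective π := by
    intro w
    obtain ⟨c, rfl⟩ := hqs w
    obtain ⟨y⟩ := (inferInstance : Nonempty Y)
    exact ⟨P (c, y), hπp (c, y)⟩
  refine ZE.not_pos_entropy hze' (hcpe Z g' π hg' hπ hπs ?_ hnt)
  intro w
  obtain ⟨x, rfl⟩ := hps w
  rw [hF, hπp, hπp]
  exact (hg'q x.1).symm

end CI48
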