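import Pool.Agent.LibCI48.TDefs

/-! TASK T05.  The collapsing map `PP`. -/

set_option autoImplicit false

namespace CI48

open CPE48 Set Function Filter Topology

variable {X Y : Type*} [MetricSpace X] [MetricSpace Y] {Φ : ℝ → X → X} {O : ℕ → Set Y}
  {R : ℕ → X → X → Prop} {p : (ℕ → Bool) → X × Y → ℝ}

theorem PP_cont (hΦ : IsFlow Φ) (h : PData Φ O R p) :
    Continuous (fun q : (ℕ → Bool) × (X × Y) => PP Φ p q.1 q.2) := by
  have h1 : Continuous (fun q : (ℕ → Bool) × (X × Y) => (-(p q.1 q.2), q.2.1)) :=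
    h.cont.neg.prodMk (continuous_fst.comp continuous_snd)
  exact (hΦ.cont.comp h1).prodMk (continuous_snd.comp continuous_snd)

theorem t05_line (hΦ : IsFlow Φ) (h : PData Φ O R p) (e : ℕ → Bool) (c : X) (y : Y) :
    Continuous (fun u : ℝ => u - p e (Φ u c, y)) := by
  have h1 : Continuous (fun u : ℝ => Φ u c) := by
    have := hΦ.cont.comp (continuous_id.prodMk (continuous_const (y := c)) :
      Continuous (fun u : ℝ => (u, c)))
    exact this
  have h2 : Continuous (fun u : ℝ => ((e, (Φ u c, y)) : (ℕ → Bool) × (X × Y))) :=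
    continuous_const.prodMk (h1.prodMk continuous_const)
  exact continuous_id.sub (h.cont.comp h2)

theorem PP_surj (hΦ : IsFlow Φ) (h : PData Φ O R p) (e : ℕ → Bool) : Surjective (PP Φ p e) := by
  rintro ⟨c, y⟩
  obtain ⟨L, hL⟩ := h.bound
  have hc := t05_line hΦ h e c y
  have hr1 : (0:ℝ) ∈ Set.range (fun u : ℝ => u - p e (Φ u c, y)) := by
    apply mem_range_of_exists_le_of_exists_ge hc
    · refine ⟨-L, ?_⟩
      have := hL e (Φ (-L) c, y)
      have := (abs_le.1 this).1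
      linarith
    · refine ⟨L, ?_⟩
      have := hL e (Φ L c, y)
      have := (abs_le.1 this).2
      linarith
  obtain ⟨u, hu⟩ := hr1
  refine ⟨(Φ u c, y), ?_⟩
  have hu' : -(p e (Φ u c, y)) + u = 0 := by
    simp only at hu
    linarith
  show (Φ (-(p e (Φ u c, y))) (Φ u c), y) = (c, y)
  rw [← hΦ.add, hu', hΦ.zero]

theorem PP_ker (hΦ : IsFlow Φ) (h : PData Φ O R p) (e : ℕ → Bool) (x x' : X × Y)
    (hx : PP Φ p e x = PP Φ p e x') : RelT O R e x x' := by
  obtain ⟨c, y⟩ := x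
  obtain ⟨c', y'⟩ := x'
  simp only [PP, Prod.mk.injEq] at hx
  obtain ⟨h1, rfl⟩ := hx
  set u := p e (c, y) with hu
  set u' := p e (c', y) with hu'
  have hv : c' = Φ (u' - u) c := by
    have h2 : Φ u' (Φ (-u') c') = c' := by
      rw [← hΦ.add, add_neg_cancel, hΦ.zero]
    rw [← h2, ← h1, ← hΦ.add]
    congr 1
  have hw0 : Φ 0 c = c := hΦ.zero c
  have e1 : 0 - p e (Φ 0 c, y) = (u' - u) - p e (Φ (u' - u) c, y) := by
    rw [hw0, ← hv, ← hu, ← hu']
    ring
  rcases lt_trichotomy (u' - u) 0 with hlt | heq | hgt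
  · obtain ⟨l, hl, hy, hR⟩ := h.eq e c y _ _ hlt e1.symm
    rw [hw0, ← hv] at hR
    exact Or.inr ⟨rfl, l, hl, hy, Or.inr hR⟩
  · left
    rw [hv, heq, hw0]
  · obtain ⟨l, hl, hy, hR⟩ := h.eq e c y _ _ hgt e1
    rw [hw0, ← hv] at hR
    exact Or.inr ⟨rfl, l, hl, hy, Or.inl hR⟩

theorem PP_col (h : PData Φ O R p) (e : ℕ → Bool) (l : ℕ) (hl : e l = true)
    (y : Y) (hy : y ∈ O l) (c c' : X) (hc : R l c c') : PP Φ p e (c, y) = PP Φ p e (c', y) := by
  simp only [PP]
  rw [h.col e l hl y hy c c' hc]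

end CI48
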