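import Pool.Agent.LibCI48.TDefs

/-! TASK T06 (MEDIUM, ~120 lines).  If the arcs which are on cover all phases of all cylinders (up to
countably many) then every continuous map constant on these arcs is constant.

* `const_of_count`: a continuous `f : ℝ → Z` with countable range is constant (compose with the distance
  to a value: a countable preconnected subset of `ℝ` is a subsingleton; see `const_of_coverQ` in
  LibCPE48/QE1).
* `cyl_orbit`: for `x ∈ [A k, B k]` and `η`: `t ↦ κ (Φ t (E x η))` has countable range, hence is constant.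
  Let `Dx` be the exceptional set of `hcov k`.  Its values are among: the values at those `t` with
  `η + t ∈ Dx` (countable), and for each pair `(l, n)` with `e l = true`, `kk l = k`, `n : ℤ`, one value: if
  `η + t + n ∈ [a l, b l]` and `η + t' + n ∈ [a l, b l]` then with `x' = fx t x ∈ [A k, B k]`,
  `Φ t (E x η) = E x' (η + t) = E x' (η + t + n)` (`per`), and `Φ t' (E x η) = Φ (t' - t) (Φ t (E x η))`,
  so `ArcR .. l (Φ t (E x η)) (Φ t' (E x η))` and `hc` applies.
* `cyl_end`: for `x ∈ (A' k, B' k)` and all `η`, `η'`: `κ (E x η) = κ (E (B' k) η')`: take the times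
  `t n = η' - η + n → ∞`: `Φ (t n) (E x η) = E (fx (t n) x) (η' + n) = E (fx (t n) x) η' → E (B' k) η'`.
  By continuity in `x` the same for `x = A' k` (`A' k < B' k`; closure of `Ioo`), and so for all
  `x ∈ [A' k, B' k]` (for `x = B' k` use a point `x ∈ (A', B')` and both phases).
* `cyl_const`: let `c, c'` with `κ c ≠ κ c'`, `ε = dist (κ c) (κ c') / 3`, `δ` from continuity of `κ` at
  `c` and at `c'`; `k` from `hE.dense δ`: points `E x η`, `E x' η'` near `c`, `c'` with the same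
  value of `κ`.
-/

set_option autoImplicit false

namespace CI48

open CPE48 Set Function Filter Topology

theorem const_of_count {Z : Type*} [MetricSpace Z] (f : ℝ → Z) (hf : Continuous f)
    (hc : (range f).Countable) (s t : ℝ) : f s = f t := by
  by_contra hne
  have hg : Continuous fun u : ℝ => dist (f u) (f t) := hf.dist continuous_const
  have hpre : IsPreconnected (range fun u : ℝ => dist (f u) (f t)) := isPreconnected_range hg
  have hcount : (range fun u : ℝ => dist (f u) (f t)).Countable := by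
    have h1 : (range fun u : ℝ => dist (f u) (f t)) = (fun z => dist z (f t)) '' range f := by
      rw [← range_comp]
      rfl
    rw [h1]
    exact hc.image _
  have hpos : 0 < dist (f s) (f t) := dist_pos.2 hne
  have hIcc : Icc 0 (dist (f s) (f t)) ⊆ range fun u : ℝ => dist (f u) (f t) :=
    hpre.Icc_subset ⟨t, dist_self _⟩ ⟨s, rfl⟩
  exact absurd (hcount.mono hIcc)
    (fun hh => absurd (Cardinal.Real.Icc_countable_iff.1 hh) (not_le.2 hpos))

theorem Cyl.per_int {X : Type*} [MetricSpace X] {Φ : ℝ → X → X} {E : ℝ → ℝ → X}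
    {fx : ℝ → ℝ → ℝ} {A A' B' B : ℕ → ℝ} (hE : Cyl Φ E fx A A' B' B) (x η : ℝ) (n : ℤ) :
    E x (η + n) = E x η := by
  have h : Function.Periodic (E x) 1 := fun y => hE.per x y
  have h2 := (h.int_mul n) η
  rwa [mul_one] at h2

theorem cyl_orbit {X : Type*} [MetricSpace X] {Φ : ℝ → X → X} {E : ℝ → ℝ → X}
    {fx : ℝ → ℝ → ℝ} {A A' B' B : ℕ → ℝ} (hΦ : IsFlow Φ) (hE : Cyl Φ E fx A A' B' B)
    {kk : ℕ → ℕ} {a b : ℕ → ℝ} {e : ℕ → Bool} (hcov : CovT kk a b e)
    {Z : Type*} [MetricSpace Z] (κ : X → Z) (hκ : Continuous κ)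
    (hc : ∀ l, e l = true → ∀ c c', ArcR Φ E A B kk a b l c c' → κ c = κ c')
    (k : ℕ) (x : ℝ) (hx : x ∈ Icc (A k) (B k)) (η s t : ℝ) :
    κ (Φ s (E x η)) = κ (Φ t (E x η)) := by
  classical
  refine const_of_count (fun t => κ (Φ t (E x η))) ?_ ?_ s t
  · exact hκ.comp (hΦ.cont.comp (continuous_id.prodMk continuous_const))
  obtain ⟨Dx, hDx, hD⟩ := hcov k
  set f : ℝ → Z := fun t => κ (Φ t (E x η)) with hf
  let P : ℕ × ℤ → ℝ → Prop := fun q t =>
    e q.1 = true ∧ kk q.1 = k ∧ η + t + q.2 ∈ Icc (a q.1) (b q.1)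
  have key : ∀ q : ℕ × ℤ, ∀ t t', P q t → P q t' → f t = f t' := by
    rintro ⟨l, n⟩ t t' ⟨h1, h2, h3⟩ ⟨-, -, h4⟩
    refine hc l h1 _ _ ⟨fx t x, η + t + n, t' - t, ?_, h3, ?_, ?_, ?_⟩
    · show fx t x ∈ Icc (A (kk l)) (B (kk l))
      have h2' : kk l = k := h2
      rw [h2']
      exact hE.maps k t x hx
    · have h5 : η + t + (n : ℝ) + (t' - t) = η + t' + n := by ring
      rw [h5]
      exact h4
    · rw [hE.per_int, hE.flow]
    · rw [← hΦ.add, sub_add_cancel]
  let v : ℕ × ℤ → Z := fun q => if h : ∃ t, P q t then f h.choose else f 0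
  have hsub : range f ⊆ (f '' ((fun w => w - η) '' Dx)) ∪ range v := by
    rintro _ ⟨t, rfl⟩
    by_cases ht : η + t ∈ Dx
    · left
      exact ⟨t, ⟨η + t, ht, by ring⟩, rfl⟩
    · right
      obtain ⟨l, h1, h2, n, h3⟩ := hD _ ht
      have hP : P (l, n) t := ⟨h1, h2, h3⟩
      refine ⟨(l, n), ?_⟩
      have hex : ∃ t, P (l, n) t := ⟨t, hP⟩
      show (if h : ∃ t, P (l, n) t then f h.choose else f 0) = f t
      rw [dif_pos hex]
      exact key _ _ _ hex.choose_spec hP
  exact (((hDx.image _).image _).union (countable_range _)).mono hsub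

theorem cyl_end {X : Type*} [MetricSpace X] {Φ : ℝ → X → X} {E : ℝ → ℝ → X}
    {fx : ℝ → ℝ → ℝ} {A A' B' B : ℕ → ℝ} (hΦ : IsFlow Φ) (hE : Cyl Φ E fx A A' B' B)
    {kk : ℕ → ℕ} {a b : ℕ → ℝ} {e : ℕ → Bool} (hcov : CovT kk a b e)
    {Z : Type*} [MetricSpace Z] (κ : X → Z) (hκ : Continuous κ)
    (hc : ∀ l, e l = true → ∀ c c', ArcR Φ E A B kk a b l c c' → κ c = κ c')
    (k : ℕ) (x : ℝ) (hx : x ∈ Icc (A' k) (B' k)) (η η' : ℝ) :
    κ (E x η) = κ (E (B' k) η') := by
  have hcl : ∀ y ∈ Ioo (A' k) (B' k), κ (E y η) = κ (E (B' k) η') := by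
    intro y hy
    have hy' : y ∈ Icc (A k) (B k) :=
      ⟨(hE.le1 k).trans hy.1.le, hy.2.le.trans (hE.le2 k)⟩
    have h1 : ∀ n : ℕ, κ (E (fx (η' - η + n) y) η') = κ (E y η) := by
      intro n
      have h2 := cyl_orbit hΦ hE hcov κ hκ hc k y hy' η (η' - η + n) 0
      rw [hΦ.zero, hE.flow] at h2
      have h3 : η + (η' - η + (n : ℝ)) = η' + ((n : ℤ) : ℝ) := by
        push_cast
        ring
      rw [h3, hE.per_int] at h2
      exact h2
    have ht : Tendsto (fun n : ℕ => η' - η + (n : ℝ)) atTop atTop :=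
      tendsto_atTop_add_const_left _ _ tendsto_natCast_atTop_atTop
    have hl : Tendsto (fun n : ℕ => fx (η' - η + n) y) atTop (𝓝 (B' k)) :=
      (hE.lim k y hy).comp ht
    have hcE : Continuous fun z : ℝ => κ (E z η') :=
      hκ.comp (hE.cont.comp (continuous_id.prodMk continuous_const))
    have hl2 : Tendsto (fun n : ℕ => κ (E (fx (η' - η + n) y) η')) atTop
        (𝓝 (κ (E (B' k) η'))) := (hcE.tendsto (B' k)).comp hl
    have hl3 : Tendsto (fun n : ℕ => κ (E (fx (η' - η + n) y) η')) atTop (𝓝 (κ (E y η))) := by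
      simp only [h1]
      exact tendsto_const_nhds
    exact tendsto_nhds_unique hl3 hl2
  have hclosed : IsClosed {y : ℝ | κ (E y η) = κ (E (B' k) η')} :=
    isClosed_eq (hκ.comp (hE.cont.comp (continuous_id.prodMk continuous_const)))
      continuous_const
  have hsub : closure (Ioo (A' k) (B' k)) ⊆ {y : ℝ | κ (E y η) = κ (E (B' k) η')} :=
    closure_minimal hcl hclosed
  rw [closure_Ioo (hE.lt k).ne] at hsub
  exact hsub hx

theorem cyl_const {X : Type*} [MetricSpace X] {Φ : ℝ → X → X} {E : ℝ → ℝ → X}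
    {fx : ℝ → ℝ → ℝ} {A A' B' B : ℕ → ℝ} (hΦ : IsFlow Φ) (hE : Cyl Φ E fx A A' B' B)
    {kk : ℕ → ℕ} {a b : ℕ → ℝ} {e : ℕ → Bool} (hcov : CovT kk a b e)
    {Z : Type*} [MetricSpace Z] (κ : X → Z) (hκ : Continuous κ)
    (hc : ∀ l, e l = true → ∀ c c', ArcR Φ E A B kk a b l c c' → κ c = κ c') (c c' : X) :
    κ c = κ c' := by
  by_contra hne
  have hpos : 0 < dist (κ c) (κ c') := dist_pos.2 hne
  obtain ⟨δ₁, hδ₁, h1⟩ := Metric.continuous_iff.1 hκ c (dist (κ c) (κ c') / 3) (by positivity)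
  obtain ⟨δ₂, hδ₂, h2⟩ := Metric.continuous_iff.1 hκ c' (dist (κ c) (κ c') / 3) (by positivity)
  obtain ⟨k, hk⟩ := hE.dense (min δ₁ δ₂) (lt_min hδ₁ hδ₂)
  obtain ⟨x, hx, η, hd⟩ := hk c
  obtain ⟨x', hx', η', hd'⟩ := hk c'
  have e1 := cyl_end hΦ hE hcov κ hκ hc k x hx η 0
  have e2 := cyl_end hΦ hE hcov κ hκ hc k x' hx' η' 0
  have g1 := h1 (E x η) (by rw [dist_comm]; exact hd.trans_le (min_le_left _ _))
  have g2 := h2 (E x' η') (by rw [dist_comm]; exact hd'.trans_le (min_le_right _ _))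
  rw [e1] at g1
  rw [e2] at g2
  have g3 := dist_triangle_right (κ c) (κ c') (κ (E (B' k) 0))
  rw [dist_comm] at g1 g2
  linarith

end CI48
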