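import Pool.Agent.LibCI48.TDefs

/-! TASK T07 (MEDIUM, ~140 lines).  The relation `RC` on `X`.

Facts used all the time: if `c = E x η = E x' η'` then `x = x'`, `η' = η + n` (`hE.inj`); the intervals
`[A k, B k]` are disjoint (`lt`, `gap`), so `k` is determined by `c`; `H k (η + n) = H k η + n * M k` for
integers `n` (induction from `per`), so `H k (η + t) = H k η` does not depend on the lift `η` of the
phase; `Φ t (E x η) = E (fx t x) (η + t)`, `fx t x ∈ [A k, B k]`.

* `RC_equiv`: symmetry: `c = Φ (-t) c'`, `c' = E (fx t x) (η + t)`.  Transitivity: `t + t'`.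
* `RC_map`: `Φ s c = E (fx s x) (η + s)`, `Φ s (Φ t c) = Φ t (Φ s c)`; and
  for all times `s` only if `s` is an integer: state for `s = 1`: `H k (η + 1 + t) = H k (η + 1)`.
* `RC_arc`: from `const`.
* `RC_nontriv`: `c = E (A 0) 0`, `c' = E (A 1) 0` (`A 1 > B 0`).
* `RC_closed`: sequences (metric space): `c_n → c`, `c'_n → c'`, `RC c_n c'_n`.  If `c_n = c'_n` for
  infinitely many `n` then `c = c'`.  Otherwise `k_n, x_n, η_n, t_n` with `|t_n| ≤ δ (k_n)` (`fib`); one can take
  `η_n ∈ [0, 1]` (`per`).  If `k_n` is unbounded, a subsequence has `t_n → 0` and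
  `dist c'_n c_n → 0`: `Φ t c → c` uniformly in `c` as `t → 0` (compactness: the continuous function
  `(t, c) ↦ dist (Φ t c) c` on `ℝ × X`), so `c = c'`.  If `k_n` is bounded, a subsequence has constant
  `k`, and `x_n → x ∈ [A k, B k]`, `η_n → η`, `t_n → t` (bounded by `δ k`): the limit is in the relation.
  [Alternative without sequences: `RC = diagonal ∪ ⋃ k, R_k` with `R_k` the image of a compact set under
  a continuous map, so closed, and for every `ε` all but finitely many `R_k` lie in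
  `{dist ≤ ε}`; a point of the closure at distance `> 0` from the diagonal is in the closure of a finite
  union.]
-/

set_option autoImplicit false

namespace CI48

open CPE48 Set Function Filter Topology

variable {X : Type*} [MetricSpace X] {Φ : ℝ → X → X} {E : ℝ → ℝ → X} {fx : ℝ → ℝ → ℝ}
  {A A' B' B : ℕ → ℝ} {kk : ℕ → ℕ} {a b : ℕ → ℝ} {e : ℕ → Bool} {H : ℕ → ℝ → ℝ} {M δ : ℕ → ℝ}

theorem t07_per (hE : Cyl Φ E fx A A' B' B) (x η : ℝ) (n : ℤ) : E x (η + n) = E x η := by
  have h : Function.Periodic (E x) 1 := fun y => hE.per x y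
  have h2 := (h.int_mul n) η
  rwa [mul_one] at h2

theorem t07_H (hH : CollT kk a b e H M δ) (k : ℕ) (x : ℝ) (n : ℤ) :
    H k (x + n) = H k x + n * M k := by
  have h : Function.Periodic (fun y => H k y - M k * y) 1 := by
    intro y
    show H k (y + 1) - M k * (y + 1) = H k y - M k * y
    rw [hH.per]
    ring
  have h2 : H k (x + (n : ℝ) * 1) - M k * (x + (n : ℝ) * 1) = H k x - M k * x := (h.int_mul n) x
  rw [mul_one] at h2
  linarith

theorem t07_lt (hE : Cyl Φ E fx A A' B' B) (k l : ℕ) (h : k < l) : B k < A l := by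
  induction l with
  | zero => omega
  | succ l ih =>
    rcases Nat.lt_succ_iff_lt_or_eq.1 h with h1 | h1
    · exact (ih h1).trans_le ((hE.le1 l).trans ((hE.lt l).le.trans ((hE.le2 l).trans
        (hE.gap l).le)))
    · rw [h1]
      exact hE.gap l

theorem t07_eq (hE : Cyl Φ E fx A A' B' B) (k l : ℕ) (x : ℝ) (h : x ∈ Icc (A k) (B k))
    (h' : x ∈ Icc (A l) (B l)) : k = l := by
  rcases lt_trichotomy k l with h1 | h1 | h1
  · have := t07_lt hE k l h1
    linarith [h.2, h'.1]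
  · exact h1
  · have := t07_lt hE l k h1
    linarith [h'.2, h.1]

theorem RC_equiv (hΦ : IsFlow Φ) (hE : Cyl Φ E fx A A' B' B) (hH : CollT kk a b e H M δ) :
    Equivalence (RC Φ E A B H) := by
  refine ⟨fun c => Or.inl rfl, ?_, ?_⟩
  · rintro c c' (h | ⟨k, x, η, t, hx, hc, hc', hh⟩)
    · exact Or.inl h.symm
    · right
      refine ⟨k, fx t x, η + t, -t, hE.maps k t x hx, ?_, ?_, ?_⟩
      · rw [hc', hc, hE.flow]
      · rw [hc', ← hΦ.add, neg_add_cancel, hΦ.zero]
      · rw [add_neg_cancel_right, hh]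
  · rintro c c' c'' (h | ⟨k, x, η, t, hx, hc, hc', hh⟩) (h' | ⟨k', x', η', t', hx', hd, hd', hh'⟩)
    · exact Or.inl (h.trans h')
    · rw [h]
      exact Or.inr ⟨k', x', η', t', hx', hd, hd', hh'⟩
    · rw [← h']
      exact Or.inr ⟨k, x, η, t, hx, hc, hc', hh⟩
    · right
      have h1 : E (fx t x) (η + t) = E x' η' := by rw [← hE.flow, ← hc, ← hc', hd]
      obtain ⟨h2, n, h3⟩ := hE.inj _ _ _ _ h1
      have hk : k = k' := t07_eq hE k k' x' (by rw [← h2]; exact hE.maps k t x hx) hx'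
      subst hk
      refine ⟨k, x, η, t' + t, hx, hc, ?_, ?_⟩
      · rw [hd', hc', ← hΦ.add]
      · have h4 : η' + t' = (η + (t' + t)) + n := by rw [h3]; ring
        rw [h4, t07_H hH, h3, t07_H hH] at hh'
        linarith

theorem RC_map (hΦ : IsFlow Φ) (hE : Cyl Φ E fx A A' B' B) (hH : CollT kk a b e H M δ)
    (c c' : X) (h : RC Φ E A B H c c') : RC Φ E A B H (Φ 1 c) (Φ 1 c') := by
  rcases h with h | ⟨k, x, η, t, hx, hc, hc', hh⟩
  · exact Or.inl (by rw [h])
  · right
    refine ⟨k, fx 1 x, η + 1, t, hE.maps k 1 x hx, ?_, ?_, ?_⟩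
    · rw [hc, hE.flow]
    · rw [hc', ← hΦ.add, ← hΦ.add, add_comm]
    · have h1 : η + 1 + t = η + t + 1 := by ring
      rw [h1, hH.per, hH.per, hh]

theorem RC_arc (hH : CollT kk a b e H M δ) (l : ℕ) (hl : e l = true) (c c' : X)
    (h : ArcR Φ E A B kk a b l c c') : RC Φ E A B H c c' := by
  obtain ⟨x, η, t, hx, h1, h2, hc, hc'⟩ := h
  exact Or.inr ⟨kk l, x, η, t, hx, hc, hc', hH.const l hl _ h2 _ h1⟩

theorem RC_nontriv (hE : Cyl Φ E fx A A' B' B) : ∃ c c', ¬ RC Φ E A B H c c' := by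
  have hA : ∀ k, A k ≤ B k := fun k => (hE.le1 k).trans ((hE.lt k).le.trans (hE.le2 k))
  refine ⟨E (A 0) 0, E (A 1) 0, ?_⟩
  rintro (h | ⟨k, x, η, t, hx, hc, hc', -⟩)
  · have h1 := (hE.inj _ _ _ _ h).1
    have h2 := hE.gap 0
    have h3 := hA 0
    norm_num at h2
    linarith
  · have h1 := (hE.inj _ _ _ _ hc).1
    rw [hc, hE.flow] at hc'
    have h2 := (hE.inj _ _ _ _ hc').1
    have h3 : A 1 ∈ Icc (A k) (B k) := by
      rw [h2]
      exact hE.maps k t x hx
    have h4 : A 0 ∈ Icc (A k) (B k) := by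
      rw [h1]
      exact hx
    have h5 := t07_eq hE k 0 (A 0) h4 ⟨le_rfl, hA 0⟩
    have h6 := t07_eq hE k 1 (A 1) h3 ⟨le_rfl, hA 1⟩
    omega

/-- the part of the relation on the cylinder number `k` -/
theorem t07_compact (hΦ : IsFlow Φ) (hE : Cyl Φ E fx A A' B' B)
    (hH : CollT kk a b e H M δ) (k : ℕ) :
    IsCompact {p : X × X | ∃ x η t, x ∈ Icc (A k) (B k) ∧ p.1 = E x η ∧ p.2 = Φ t p.1 ∧
      H k (η + t) = H k η} := by
  have hK : IsCompact ((Icc (A k) (B k) ×ˢ (Icc (0 : ℝ) 1 ×ˢ Icc (-δ k) (δ k))) ∩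
      {q : ℝ × (ℝ × ℝ) | H k (q.2.1 + q.2.2) = H k q.2.1}) := by
    refine (isCompact_Icc.prod (isCompact_Icc.prod isCompact_Icc)).inter_right ?_
    exact isClosed_eq ((hH.cont k).comp (by fun_prop)) ((hH.cont k).comp (by fun_prop))
  have hcE : Continuous fun q : ℝ × (ℝ × ℝ) => E q.1 q.2.1 :=
    hE.cont.comp (continuous_fst.prodMk (continuous_fst.comp continuous_snd))
  have hcΦ : Continuous fun q : ℝ × (ℝ × ℝ) => Φ q.2.2 (E q.1 q.2.1) :=
    hΦ.cont.comp ((continuous_snd.comp continuous_snd).prodMk hcE)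
  have himg := hK.image (hcE.prodMk hcΦ)
  convert himg using 1
  ext ⟨c, c'⟩
  constructor
  · rintro ⟨x, η, t, hx, hc, hc', hh⟩
    change c = E x η at hc
    change c' = Φ t c at hc'
    have hfl : Int.fract η + (⌊η⌋ : ℝ) = η := Int.fract_add_floor η
    have hEf : E x (Int.fract η) = E x η := by
      rw [← t07_per hE x (Int.fract η) ⌊η⌋, hfl]
    have hHf : H k (Int.fract η + t) = H k (Int.fract η) := by
      have h1 := t07_H hH k (Int.fract η + t) ⌊η⌋
      have h2 := t07_H hH k (Int.fract η) ⌊η⌋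
      have h3 : Int.fract η + t + (⌊η⌋ : ℝ) = η + t := by linarith
      rw [h3] at h1
      rw [hfl] at h2
      linarith
    have ht : |t| ≤ δ k := by
      have := hH.fib k (η + t) η hh
      rwa [add_sub_cancel_left] at this
    refine ⟨(x, (Int.fract η, t)), ⟨⟨hx, ⟨(Int.fract_nonneg η), (Int.fract_lt_one η).le⟩,
      abs_le.1 ht⟩, hHf⟩, ?_⟩
    show (E x (Int.fract η), Φ t (E x (Int.fract η))) = (c, c')
    rw [hEf, hc', hc]
  · rintro ⟨⟨x, η, t⟩, ⟨⟨hx, -, -⟩, hh⟩, hq⟩
    obtain ⟨h1, h2⟩ := Prod.mk.inj hq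
    refine ⟨x, η, t, hx, h1.symm, ?_, hh⟩
    show c' = Φ t c
    rw [← h2, ← h1]

theorem RC_closed [CompactSpace X] (hΦ : IsFlow Φ) (hE : Cyl Φ E fx A A' B' B)
    (hH : CollT kk a b e H M δ) : IsClosed {p : X × X | RC Φ E A B H p.1 p.2} := by
  rw [← closure_subset_iff_isClosed]
  intro p hp
  by_cases hpe : p.1 = p.2
  · exact Or.inl hpe
  have hd : 0 < dist p.1 p.2 := dist_pos.2 hpe
  have hev : ∀ᶠ t in 𝓝 (0 : ℝ), ∀ c ∈ (univ : Set X), dist (Φ t c) c < dist p.1 p.2 / 2 := by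
    refine isCompact_univ.eventually_forall_of_forall_eventually fun c _ => ?_
    have hc : Continuous fun z : ℝ × X => dist (Φ z.1 z.2) z.2 :=
      hΦ.cont.dist continuous_snd
    have h0 : dist (Φ (0 : ℝ) c) c < dist p.1 p.2 / 2 := by
      rw [hΦ.zero, dist_self]
      positivity
    exact hc.continuousAt.eventually (Iio_mem_nhds h0)
  obtain ⟨τ, hτ, hτ2⟩ := Metric.eventually_nhds_iff.1 hev
  obtain ⟨N, hN⟩ := eventually_atTop.1 ((tendsto_order.1 hH.tend).2 τ hτ)
  set R : ℕ → Set (X × X) := fun k => {p : X × X | ∃ x η t, x ∈ Icc (A k) (B k) ∧ p.1 = E x η ∧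
    p.2 = Φ t p.1 ∧ H k (η + t) = H k η} with hR
  have hF : IsClosed ({q : X × X | dist q.1 q.2 ≤ dist p.1 p.2 / 2} ∪
      ⋃ k ∈ Finset.range N, R k) := by
    refine IsClosed.union (isClosed_le (by fun_prop) continuous_const) ?_
    exact isClosed_biUnion_finset fun k _ => (t07_compact hΦ hE hH k).isClosed
  have hsub : {p : X × X | RC Φ E A B H p.1 p.2} ⊆
      {q : X × X | dist q.1 q.2 ≤ dist p.1 p.2 / 2} ∪ ⋃ k ∈ Finset.range N, R k := by
    rintro q (hq | ⟨k, x, η, t, hx, hc, hc', hh⟩)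
    · left
      show dist q.1 q.2 ≤ _
      rw [hq, dist_self]
      positivity
    · by_cases hk : k < N
      · right
        simp only [mem_iUnion]
        exact ⟨k, Finset.mem_range.2 hk, x, η, t, hx, hc, hc', hh⟩
      · left
        have ht : |t| ≤ δ k := by
          have := hH.fib k (η + t) η hh
          rwa [add_sub_cancel_left] at this
        have h1 : dist t 0 < τ := by
          rw [Real.dist_eq, sub_zero]
          exact ht.trans_lt (hN k (not_lt.1 hk))
        have h2 := hτ2 h1 q.1 (mem_univ _)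
        rw [← hc', dist_comm] at h2
        exact h2.le
  have hpF := closure_minimal hsub hF hp
  rcases hpF with h | h
  · have h' : dist p.1 p.2 ≤ dist p.1 p.2 / 2 := h
    linarith
  · simp only [mem_iUnion] at h
    obtain ⟨k, -, x, η, t, hx, hc, hc', hh⟩ := h
    exact Or.inr ⟨k, x, η, t, hx, hc, hc', hh⟩

end CI48
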