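import Pool.Agent.LibCI48.T01
import Pool.Agent.LibCI48.T03
import Pool.Agent.LibCI48.T04
import Pool.Agent.LibCI48.T05
import Pool.Agent.LibCI48.T06
import Pool.Agent.LibCI48.T07

/-! TASK T09.  The dynamical theorem for a family of maps. -/

set_option autoImplicit false

namespace CI48

open CPE48 Set Function Filter Topology

theorem main_dynT {X Y : Type} [MetricSpace X] [CompactSpace X] [Nonempty X]
    [MetricSpace Y] [CompactSpace Y] [Nonempty Y]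
    {Φ : ℝ → X → X} {E : ℝ → ℝ → X} {fx : ℝ → ℝ → ℝ} {A A' B' B : ℕ → ℝ} {kk : ℕ → ℕ}
    {a b : ℕ → ℝ} {D : Y → Y} {O : ℕ → Set Y} {p : (ℕ → Bool) → X × Y → ℝ}
    (hΦ : IsFlow Φ) (hE : Cyl Φ E fx A A' B' B) (hmix : Mixing (Φ 1)) (hze : ZE (Φ 1))
    (hvis : Vis (Φ 1)) (hDc : Continuous D) (hD : IND D) (hO : ∀ l, (O l).Nonempty)
    (hp : PData Φ O (ArcR Φ E A B kk a b) p) (F : (ℕ → Bool) → X × Y → X × Y)
    (hFc : ∀ e, Continuous (F e))
    (hF : ∀ e x, F e (PP Φ p e x) = PP Φ p e (Prod.map (Φ 1) D x)) :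
    (∀ e, Mixing (F e)) ∧ (∀ e, CovT kk a b e → CPE (F e)) ∧
      (∀ e, (∃ (H : ℕ → ℝ → ℝ) (M δ : ℕ → ℝ), CollT kk a b e H M δ) → ¬ CPE (F e)) := by
  have hPc := PP_cont hΦ hp
  have hpe : ∀ e, Continuous (PP Φ p e) := fun e =>
    hPc.comp (continuous_const.prodMk continuous_id)
  have hΦ1 : Continuous (Φ 1) := hΦ.cont.comp (continuous_const.prodMk continuous_id)
  have hmixG : Mixing (Prod.map (Φ 1) D) := Mixing.prod hmix hD.mixing
  refine ⟨?_, ?_, ?_⟩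
  · intro e
    exact Mixing.factor (hpe e) (PP_surj hΦ hp e) (fun x => (hF e x).symm) hmixG
  · intro e hcov
    exact cpe_of hvis hD hO (R := ArcR Φ E A B kk a b) e (PP Φ p e) (F e) (hpe e)
      (PP_surj hΦ hp e) (fun x => hF e x) (fun l hl y hy c c' hc => PP_col hp e l hl y hy c c' hc)
      (fun Z _ κ hκ hc c c' => cyl_const hΦ hE hcov κ hκ hc c c')
  · rintro e ⟨H, M, δ, hH⟩
    exact not_cpe_of (O := O) (R := ArcR Φ E A B kk a b) hΦ1 hze e (PP Φ p e) (F e) (hpe e)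
      (PP_surj hΦ hp e) (fun x => hF e x) (fun x x' hx => PP_ker hΦ hp e x x' hx)
      (RC Φ E A B H) (RC_equiv hΦ hE hH) (RC_closed hΦ hE hH) (RC_map hΦ hE hH)
      (fun l hl c c' hc => RC_arc hH l hl c c' hc) (RC_nontriv hE)

end CI48
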