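import Pool.Agent.LibCI48.T08
import Pool.Agent.LibCI48.T09
import Pool.Agent.LibCI48.C07
import Pool.Agent.LibCI48.C09
import Pool.Agent.LibCI48.C11
import Pool.Agent.LibCI48.C12
import Pool.Agent.LibCI48.C13
import Pool.Agent.LibCI48.G3
import Pool.Agent.LibCI48.H1

/-! TASK H2 (owner).  Assembly: the family of maps on `X3 × (Y2 × T^m)`. -/

set_option autoImplicit false

namespace CI48

open CPE48 Set Function Filter Topology

theorem exists_family (m : ℕ) :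
    ∃ F : C(ℕ → Bool, C(Fin (m + 5) → UnitAddCircle, Fin (m + 5) → UnitAddCircle)),
      (∀ e, IsCk (m + 5) ⊤ (F e)) ∧ (∀ e, Mixing (F e)) ∧
      (∀ e, CovT CI.kk CI.aL (fun l => CI.aL l + CI.dL l) e → CPE (F e)) ∧
      (∀ e, (∃ (H : ℕ → ℝ → ℝ) (M δ : ℕ → ℝ),
        CollT CI.kk CI.aL (fun l => CI.aL l + CI.dL l) e H M δ) → ¬ CPE (F e)) := by
  obtain ⟨P⟩ := exists_par
  obtain ⟨ε, hε, hFs, hdc, hdb, hqc, hqb, hqd, hId, hqe, hql⟩ := CI.collapse_main P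
  have hQ : QD P ε := ⟨hqc, hqb, hqd, hqe, hql⟩
  obtain ⟨Φ, hΦ⟩ := exists_Phi P
  obtain ⟨D2, hD2c, hD2⟩ := exists_D2
  obtain ⟨p, hp, hPD⟩ := exists_pdata P ε hQ Φ hΦ
  obtain ⟨F, hFc, hFl, hFid⟩ := exists_F P ε hdc hdb hId Φ hΦ D2 hD2 p hp
  obtain ⟨hmix, hze, hvis⟩ := base_props P Φ hΦ
  have hdbc : Continuous (dbm m) := by
    unfold dbm
    fun_prop
  let FF : (ℕ → Bool) → X3 × (Y2 × (Fin m → UnitAddCircle)) →
      X3 × (Y2 × (Fin m → UnitAddCircle)) :=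
    fun e x => (F e (x.1, x.2.1), Prod.map D2 (dbm m) x.2)
  have hFFc : Continuous (fun q : (ℕ → Bool) × (X3 × (Y2 × (Fin m → UnitAddCircle))) =>
      FF q.1 q.2) := by
    refine Continuous.prodMk ?_ ?_
    · exact hFc.comp (by fun_prop : Continuous fun q : (ℕ → Bool) ×
        (X3 × (Y2 × (Fin m → UnitAddCircle))) => (q.1, (q.2.1, q.2.2.1)))
    · exact (hD2c.prodMap hdbc).comp (continuous_snd.comp continuous_snd)
  have hFFe : ∀ e, Continuous (FF e) := fun e =>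
    hFFc.comp (continuous_const.prodMk continuous_id)
  have hmain := main_dynT (Φ := Φ) (E := EL P) (fx := fxL P) (A := CI.Ak P)
    (A' := fun k => CI.Ak P k + 1 / 8) (B' := fun k => CI.Bk P k - 1 / 8) (B := CI.Bk P)
    (kk := CI.kk) (a := CI.aL) (b := fun l => CI.aL l + CI.dL l) (D := Prod.map D2 (dbm m))
    (O := fun l => {y : Y2 × (Fin m → UnitAddCircle) | y.1 ∈ ({pr2 (0, CI.jL l)} : Set Y2)})
    (p := fun e x => p e (x.1, x.2.1)) hΦ.1 (cyl_P P Φ hΦ) hmix hze hvis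
    (hD2c.prodMap hdbc) (ind_fib m D2 hD2)
    (fun l => ⟨(pr2 (0, CI.jL l), 0), rfl⟩) (pdata_prod hPD) FF hFFe
    (fun e x => by
      refine Prod.ext ?_ rfl
      exact hFid e x.1 x.2.1)
  obtain ⟨h1, h2, h3⟩ := hmain
  obtain ⟨h, hh⟩ := exists_hm m
  obtain ⟨Ψ, hΨc, hΨ⟩ := exists_conj h
  let F0 : C(ℕ → Bool, C(X3 × (Y2 × (Fin m → UnitAddCircle)),
      X3 × (Y2 × (Fin m → UnitAddCircle)))) := ContinuousMap.curry ⟨fun q => FF q.1 q.2, hFFc⟩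
  have hcoe : ∀ e, ⇑(Ψ (F0 e)) = fun y => h (FF e (h.symm y)) := fun e => funext (hΨ (F0 e))
  refine ⟨⟨fun e => Ψ (F0 e), hΨc.comp F0.continuous⟩, ?_, ?_, ?_, ?_⟩
  · intro e
    show IsCk (m + 5) ⊤ ⇑(Ψ (F0 e))
    rw [hcoe]
    refine hh (FF e) (CI.Fl P ε e) (hFs e) ?_
    intro z w
    refine Prod.ext ?_ (Prod.ext ?_ ?_)
    · exact hFl e z
    · exact hD2 z.2
    · show dbm m (prn m w) = prn m (w + w)
      funext i
      simp [dbm, prn]
  · intro e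
    show Mixing ⇑(Ψ (F0 e))
    rw [hcoe]
    exact (mixing_conj h _).2 (h1 e)
  · intro e he
    show CPE ⇑(Ψ (F0 e))
    rw [hcoe]
    exact (cpe_conj h _).2 (h2 e he)
  · intro e he
    show ¬ CPE ⇑(Ψ (F0 e))
    rw [hcoe, cpe_conj h]
    exact h3 e he

end CI48
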