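import Pool.Agent.LibCI48.H2
import Pool.Agent.LibCPE48.AN

/-! TASK H3 (EASY, ~60 lines).  The reduction of every analytic set, and the final theorem. -/

set_option autoImplicit false

namespace CI48

open CPE48 Set Function Filter Topology MeasureTheory

theorem reductionS (m : ℕ) {α : Type*} [TopologicalSpace α] [PolishSpace α] [MeasurableSpace α]
    [BorelSpace α] (A : Set α) (hA : AnalyticSet A) :
    ∃ G : α → C(Fin (m + 5) → UnitAddCircle, Fin (m + 5) → UnitAddCircle),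
      Measurable[_, borel _] G ∧ (∀ a, IsCk (m + 5) ⊤ (G a)) ∧ (∀ a, Mixing (G a)) ∧
      ∀ a, CPE (G a) ↔ a ∉ A := by
  obtain ⟨F, hFs, hFm, hFc, hFn⟩ := exists_family m
  obtain ⟨T, hTm, hT⟩ := exists_tree A hA
  refine ⟨fun a => F (swI (T a)), ?_, fun a => hFs _, fun a => hFm _, ?_⟩
  · have h2 := F.continuous.borel_measurable
    rw [← BorelSpace.measurable_eq (α := ℕ → Bool)] at h2
    exact @Measurable.comp α (ℕ → Bool) _ _ MeasurableSpace.pi (borel _) _ _ h2
      (swI_meas T hTm)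
  · intro a
    constructor
    · intro hC ha
      exact hFn _ (coll_swI (T a) ((hT a).2 ha)) hC
    · intro ha
      exact hFc _ (cov_swI (T a) (fun hb => ha ((hT a).1 hb)))

theorem result_n (n : ℕ) (hn : 5 ≤ n) :
    (∀ k : ℕ∞, ¬ MeasurableSet[borel {f : C(Fin n → UnitAddCircle, Fin n → UnitAddCircle) //
        IsCk n k f}]
      {f : {f : C(Fin n → UnitAddCircle, Fin n → UnitAddCircle) // IsCk n k f} |
        Mixing f.1 ∧ CPE f.1}) ∧
    ∀ (α : Type) [TopologicalSpace α] [PolishSpace α] (A : Set α), AnalyticSet A →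
      ∃ G : α → C(Fin n → UnitAddCircle, Fin n → UnitAddCircle),
        Measurable[borel α, borel C(Fin n → UnitAddCircle, Fin n → UnitAddCircle)] G ∧
        (∀ a, IsCk n ⊤ (G a)) ∧ (∀ a, Mixing (G a)) ∧ ∀ a, CPE (G a) ↔ a ∉ A := by
  obtain ⟨m, rfl⟩ : ∃ m, n = m + 5 := ⟨n - 5, by omega⟩
  have key : ∀ (α : Type) [TopologicalSpace α] [PolishSpace α] (A : Set α), AnalyticSet A →
      ∃ G : α → C(Fin (m + 5) → UnitAddCircle, Fin (m + 5) → UnitAddCircle),
        Measurable[borel α, borel C(Fin (m + 5) → UnitAddCircle, Fin (m + 5) → UnitAddCircle)] G ∧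
        (∀ a, IsCk (m + 5) ⊤ (G a)) ∧ (∀ a, Mixing (G a)) ∧ ∀ a, CPE (G a) ↔ a ∉ A := by
    intro α _ _ A hA
    let _ : MeasurableSpace α := borel α
    have : BorelSpace α := ⟨rfl⟩
    exact reductionS m A hA
  refine ⟨?_, key⟩
  intro k hS
  obtain ⟨A, hA, hnA⟩ := exists_analytic_not_borel
  obtain ⟨G, hG, hsm, hmix, hcpe⟩ := key (ℕ → ℕ) A hA
  apply hnA
  have hk : ∀ a, IsCk (m + 5) k (G a) := by
    intro a
    obtain ⟨F, h1, h2⟩ := hsm a
    exact ⟨F, h1.of_le (by exact_mod_cast (le_top : k ≤ ⊤)), h2⟩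
  let G' : (ℕ → ℕ) → {f : C(Fin (m + 5) → UnitAddCircle, Fin (m + 5) → UnitAddCircle) //
    IsCk (m + 5) k f} := fun a => ⟨G a, hk a⟩
  have hG' : Measurable[borel (ℕ → ℕ),
      borel {f : C(Fin (m + 5) → UnitAddCircle, Fin (m + 5) → UnitAddCircle) //
        IsCk (m + 5) k f}] G' := by
    have h0 : borel {f : C(Fin (m + 5) → UnitAddCircle, Fin (m + 5) → UnitAddCircle) //
        IsCk (m + 5) k f} = MeasurableSpace.comap Subtype.val
          (borel C(Fin (m + 5) → UnitAddCircle, Fin (m + 5) → UnitAddCircle)) := borel_comap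
    rw [h0]
    intro s hs
    obtain ⟨t, ht, rfl⟩ := hs
    exact hG ht
  have h1 := hG' hS
  have h2 : G' ⁻¹' {f : {f : C(Fin (m + 5) → UnitAddCircle, Fin (m + 5) → UnitAddCircle) //
      IsCk (m + 5) k f} | Mixing f.1 ∧ CPE f.1} = Aᶜ := by
    ext a
    exact ⟨fun h => (hcpe a).mp h.2, fun h => ⟨hmix a, (hcpe a).mpr h⟩⟩
  rw [h2] at h1
  have h3 : MeasurableSet[borel (ℕ → ℕ)] A := by
    have := MeasurableSet.compl h1
    rwa [compl_compl] at this
  rwa [← BorelSpace.measurable_eq (α := ℕ → ℕ)] at h3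

end CI48
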