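import Pool.Agent.LibCI48.TDefs

/-! TASK T02.  Independence of the fibre coordinate, with `IND`. -/

set_option autoImplicit false

namespace CI48

open CPE48 Set Function Filter Topology

theorem indep_of_ind {C Y Z : Type*} [MetricSpace C] [MetricSpace Y] [MetricSpace Z]
    {g : C → C} {D : Y → Y} (hD : IND D) (hvis : Vis g)
    (k : Z → Z) (π : C × Y → Z) (hπ : Continuous π) (hk : ∀ c y, π (g c, D y) = k (π (c, y)))
    (hz : ¬ (0 < Dynamics.coverEntropy k Set.univ)) (c : C) (y y' : Y) :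
    π (c, y) = π (c, y') := by
  classical
  by_contra hne
  apply hz
  have : Nonempty Y := ⟨y⟩
  obtain ⟨δ, N, O₁, O₂, hδ, hN, hcN, hO₁, hy₁, hO₂, hy₂, hsep⟩ := qa1_nbhd π hπ c y y' hne
  let O : Bool → Set Y := fun b => if b = true then O₁ else O₂
  obtain ⟨m, hm⟩ := hD O (fun b => by cases b <;> simpa [O])
    (fun b => by
      cases b
      · exact ⟨y', hy₂⟩
      · exact ⟨y, hy₁⟩)
  obtain ⟨θ, hθ, hfreq⟩ := hvis N hN ⟨c, hcN⟩
  have hlog : 0 < Real.log 2 := Real.log_pos (by norm_num)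
  have hmpos : (0:ℝ) < m + 1 := by positivity
  refine pos_entropy_of_separated k δ (θ * Real.log 2 / (m + 1)) hδ (by positivity) ?_
  refine hfreq.mono ?_
  rintro n ⟨c', hn⟩
  obtain ⟨r, i, hr, hi, hgap⟩ := sparse_visits {i | g^[i] c' ∈ N} m n θ hn
  -- the points
  have hpt : ∀ s : Fin r → Bool, ∃ w : Y, ∀ j (hj : j < r), D^[i j] w ∈ O (s ⟨j, hj⟩) := by
    intro s
    obtain ⟨w, hw⟩ := hm r i hgap
      (fun j => if hj : j < r then s ⟨j, hj⟩ else false)
    refine ⟨w, fun j hj => ?_⟩
    have := hw j hj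
    simpa [hj] using this
  choose w hw using hpt
  -- separation
  have hsepw : ∀ s s' : Fin r → Bool, s ≠ s' →
      ∃ j < n, δ ≤ dist (k^[j] (π (c', w s))) (k^[j] (π (c', w s'))) := by
    intro s s' hss
    obtain ⟨j, hj⟩ := Function.ne_iff.1 hss
    refine ⟨i j, (hi j j.2).1, ?_⟩
    rw [qa1_iter k π hk, qa1_iter k π hk]
    have hNj : g^[i j] c' ∈ N := (hi j j.2).2
    have h1 := hw s j j.2
    have h2 := hw s' j j.2
    rcases hb : s j with _ | _ <;> rcases hb' : s' j with _ | _
    · exact absurd (hb.trans hb'.symm) hj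
    · have h1' : D^[i j] (w s) ∈ O₂ := by simpa [O, hb] using h1
      have h2' : D^[i j] (w s') ∈ O₁ := by simpa [O, hb'] using h2
      rw [dist_comm]
      exact hsep _ hNj _ h2' _ hNj _ h1'
    · have h1' : D^[i j] (w s) ∈ O₁ := by simpa [O, hb] using h1
      have h2' : D^[i j] (w s') ∈ O₂ := by simpa [O, hb'] using h2
      exact hsep _ hNj _ h1' _ hNj _ h2'
    · exact absurd (hb.trans hb'.symm) hj
  have hinj : Function.Injective (fun s : Fin r → Bool => π (c', w s)) := by
    intro s s' h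
    by_contra hss
    obtain ⟨j, -, hj⟩ := hsepw s s' hss
    have h' : π (c', w s) = π (c', w s') := h
    rw [h', dist_self] at hj
    linarith
  refine ⟨(Finset.univ : Finset (Fin r → Bool)).image (fun s => π (c', w s)), ?_, ?_⟩
  · rw [Finset.card_image_of_injective _ hinj, Finset.card_univ, Fintype.card_fun,
      Fintype.card_bool, Fintype.card_fin]
    push_cast
    have h2 : (2:ℝ) ^ r = Real.exp (Real.log 2 * r) := by
      rw [Real.exp_mul, Real.exp_log (by norm_num), Real.rpow_natCast]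
    rw [h2]
    apply Real.exp_le_exp.2
    have : θ * Real.log 2 / (m + 1) * n = Real.log 2 * (θ * n / (m + 1)) := by ring
    rw [this]
    exact mul_le_mul_of_nonneg_left hr hlog.le
  · intro x hx x' hx' hxx
    obtain ⟨s, -, rfl⟩ := Finset.mem_image.1 hx
    obtain ⟨s', -, rfl⟩ := Finset.mem_image.1 hx'
    exact hsepw s s' (fun h => hxx (by rw [h]))

end CI48
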