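import Pool.Agent.LibCPE48.QI2

/-!
# CI48: the topological half of the smooth theorem (MP_972473_an): definitions

`Mixing`, `CPE`, `ZE`, `Vis`, `IsFlow`, `LL`, `WW`, `hf`, `sw`, `ixx`, `gj`, `gN`, `gm`,
`h04_g` are those of `LibCPE48`.
-/

set_option autoImplicit false

namespace CI48

open CPE48 Set Function Filter Topology

/-- independence: two open sets can be visited along every itinerary with large gaps -/
def IND {Y : Type*} [TopologicalSpace Y] (D : Y → Y) : Prop :=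
  ∀ O : Bool → Set Y, (∀ b, IsOpen (O b)) → (∀ b, (O b).Nonempty) →
    ∃ m₀ : ℕ, ∀ (r : ℕ) (i : ℕ → ℕ), (∀ j, i j + m₀ ≤ i (j + 1)) → ∀ s : ℕ → Bool,
      ∃ y, ∀ j < r, D^[i j] y ∈ O (s j)

/-- the leaf through the origin, times the circle: `E x η` is the point of position `x` on the
leaf and of phase `η` (a real number mod 1).  The flow moves the position by the one-dimensional
flow `fx` and adds `t` to the phase.  `[A k, B k]` are the invariant pieces; the points of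
`[A k, A' k]` and of `[B' k, B k]` are at rest, and those of `(A' k, B' k)` move to `B' k`. -/
structure Cyl {X : Type*} [MetricSpace X] (Φ : ℝ → X → X) (E : ℝ → ℝ → X) (fx : ℝ → ℝ → ℝ)
    (A A' B' B : ℕ → ℝ) : Prop where
  cont : Continuous (fun q : ℝ × ℝ => E q.1 q.2)
  per : ∀ x η, E x (η + 1) = E x η
  inj : ∀ x x' η η', E x η = E x' η' → x = x' ∧ ∃ n : ℤ, η' = η + n
  flow : ∀ t x η, Φ t (E x η) = E (fx t x) (η + t)
  le1 : ∀ k, A k ≤ A' k
  lt : ∀ k, A' k < B' k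
  le2 : ∀ k, B' k ≤ B k
  gap : ∀ k, B k < A (k + 1)
  maps : ∀ k t x, x ∈ Icc (A k) (B k) → fx t x ∈ Icc (A k) (B k)
  lim : ∀ k, ∀ x ∈ Ioo (A' k) (B' k), Tendsto (fun t => fx t x) atTop (𝓝 (B' k))
  dense : ∀ δ : ℝ, 0 < δ → ∃ k, ∀ c : X, ∃ x ∈ Icc (A' k) (B' k), ∃ η, dist c (E x η) < δ

/-- the arc number `l`: two points of the cylinder number `kk l` on the same orbit, with phases in
`[a l, b l]` -/
def ArcR {X : Type*} (Φ : ℝ → X → X) (E : ℝ → ℝ → X) (A B : ℕ → ℝ) (kk : ℕ → ℕ) (a b : ℕ → ℝ)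
    (l : ℕ) (c c' : X) : Prop :=
  ∃ x η t, x ∈ Icc (A (kk l)) (B (kk l)) ∧ η ∈ Icc (a l) (b l) ∧ η + t ∈ Icc (a l) (b l) ∧
    c = E x η ∧ c' = Φ t c

/-- the data of the collapsing maps: `p e (c, y)` is the time by which the point is moved back -/
structure PData {X Y : Type*} [MetricSpace X] [MetricSpace Y] (Φ : ℝ → X → X) (O : ℕ → Set Y)
    (R : ℕ → X → X → Prop) (p : (ℕ → Bool) → X × Y → ℝ) : Prop where
  cont : Continuous (fun q : (ℕ → Bool) × (X × Y) => p q.1 q.2)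
  bound : ∃ L : ℝ, ∀ e x, |p e x| ≤ L
  eq : ∀ e c y u v, u < v → u - p e (Φ u c, y) = v - p e (Φ v c, y) →
    ∃ l, e l = true ∧ y ∈ O l ∧ R l (Φ u c) (Φ v c)
  col : ∀ e l, e l = true → ∀ y ∈ O l, ∀ c c', R l c c' →
    Φ (-(p e (c, y))) c = Φ (-(p e (c', y))) c'

/-- the collapsing map -/
def PP {X Y : Type*} (Φ : ℝ → X → X) (p : (ℕ → Bool) → X × Y → ℝ) (e : ℕ → Bool)
    (x : X × Y) : X × Y :=
  (Φ (-(p e x)) x.1, x.2)

/-- the kernel of the collapsing map -/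
def RelT {X Y : Type*} (O : ℕ → Set Y) (R : ℕ → X → X → Prop) (e : ℕ → Bool)
    (x x' : X × Y) : Prop :=
  x = x' ∨ (x.2 = x'.2 ∧ ∃ l, e l = true ∧ x.2 ∈ O l ∧ (R l x.1 x'.1 ∨ R l x'.1 x.1))

/-- functions of the phase which collapse all arcs which are on -/
structure CollT (kk : ℕ → ℕ) (a b : ℕ → ℝ) (e : ℕ → Bool) (H : ℕ → ℝ → ℝ) (M δ : ℕ → ℝ) :
    Prop where
  cont : ∀ k, Continuous (H k)
  per : ∀ k x, H k (x + 1) = H k x + M k
  fib : ∀ k x y, H k x = H k y → |x - y| ≤ δ k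
  tend : Tendsto δ atTop (𝓝 0)
  const : ∀ l, e l = true → ∀ x ∈ Icc (a l) (b l), ∀ y ∈ Icc (a l) (b l),
    H (kk l) x = H (kk l) y

/-- the arcs which are on cover all phases mod 1 up to countably many, on each cylinder -/
def CovT (kk : ℕ → ℕ) (a b : ℕ → ℝ) (e : ℕ → Bool) : Prop :=
  ∀ k, ∃ Dx : Set ℝ, Dx.Countable ∧ ∀ x : ℝ, x ∉ Dx →
    ∃ l, e l = true ∧ kk l = k ∧ ∃ n : ℤ, x + n ∈ Icc (a l) (b l)

/-- the relation on `X` -/
def RC {X : Type*} (Φ : ℝ → X → X) (E : ℝ → ℝ → X) (A B : ℕ → ℝ) (H : ℕ → ℝ → ℝ)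
    (c c' : X) : Prop :=
  c = c' ∨ ∃ k x η t, x ∈ Icc (A k) (B k) ∧ c = E x η ∧ c' = Φ t c ∧ H k (η + t) = H k η

/-- a flow along the lines of the isometric flow `ρ`, with speed `V`, described by the
displacement `r c t` -/
structure SR {X : Type*} [MetricSpace X] (ρ : ℝ → X → X) (V : X → ℝ) (r : X → ℝ → ℝ) :
    Prop where
  flow : IsFlow ρ
  iso : ∀ u c c', dist (ρ u c) (ρ u c') = dist c c'
  speed : ∀ u c, dist (ρ u c) c ≤ |u|
  Vc : Continuous V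
  V0 : ∀ c, 0 ≤ V c
  V1 : ∀ c, V c ≤ 1
  cont : Continuous (fun q : X × ℝ => r q.1 q.2)
  zero : ∀ c, r c 0 = 0
  deriv : ∀ c t, HasDerivAt (r c) (V (ρ (r c t) c)) t
  add : ∀ c s t, r c (s + t) = r c s + r (ρ (r c s) c) t
  stop : ∀ c t, V c = 0 → r c t = 0

end CI48
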